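import Pool.Agent.Helper60.TJ.Defs

set_option autoImplicit false

/-! Basic lemmas on T-joins. -/

namespace Pool.Agent.Helper60.TJ

open MeasureTheory
open scoped symmDiff

/-! ### parity -/

theorem par_bx (U X : Ed → Bool) (v : Vx) : par (bx U X) v = xor (par U v) (par X v) := by
  unfold par bx
  cases U (edg v 0) <;> cases U (edg v 1) <;> cases U (edg v 2) <;> cases U (edg v 3) <;>
    cases X (edg v 0) <;> cases X (edg v 1) <;> cases X (edg v 2) <;> cases X (edg v 3) <;> rfl

theorem par_bx' (U X : Ed → Bool) : par (bx U X) = vx (par U) (par X) := by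
  funext v; exact par_bx U X v

theorem bx_comm (U X : Ed → Bool) : bx U X = bx X U := by
  funext e; simp [bx, Bool.xor_comm]

theorem bx_assoc (U X Y : Ed → Bool) : bx (bx U X) Y = bx U (bx X Y) := by
  funext e; simp [bx]

theorem bx_self (U : Ed → Bool) : bx U U = fun _ => false := by
  funext e; simp [bx]

theorem bx_false (U : Ed → Bool) : bx U (fun _ => false) = U := by
  funext e; simp [bx]

theorem bx_cancel (U X : Ed → Bool) : bx (bx U X) X = U := by
  rw [bx_assoc, bx_self, bx_false]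

theorem bx_cancel' (U X : Ed → Bool) : bx U (bx U X) = X := by
  rw [← bx_assoc, bx_self]; funext e; simp [bx]

theorem bx_eq_false_iff (U X : Ed → Bool) : (∀ e, bx U X e = false) ↔ U = X := by
  constructor
  · intro h; funext e; have := h e; unfold bx at this
    cases h1 : U e <;> cases h2 : X e <;> simp_all
  · rintro rfl e; simp [bx]

theorem ind_empty : ind ∅ = fun _ => false := by
  funext e; simp [ind]

theorem ind_symmDiff (X Y : Finset Ed) : ind (X ∆ Y) = bx (ind X) (ind Y) := by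
  funext e
  by_cases h : e ∈ X <;> by_cases h' : e ∈ Y <;> simp [ind, bx, Finset.mem_symmDiff, h, h']

theorem ind_eq_true {X : Finset Ed} {e : Ed} : ind X e = true ↔ e ∈ X := by
  simp [ind]

theorem par_ind_symmDiff (X Y : Finset Ed) : par (ind (X ∆ Y)) = vx (par (ind X)) (par (ind Y)) := by
  rw [ind_symmDiff, par_bx']

theorem par_empty : par (ind ∅) = fun _ => false := by
  funext v; simp [par, ind]

theorem isCyc_empty : IsCyc ∅ := fun v => congrFun par_empty v

theorem isCyc_iff (X : Finset Ed) : IsCyc X ↔ par (ind X) = fun _ => false := by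
  constructor
  · intro h; funext v; exact h v
  · intro h v; rw [h]

theorem IsCyc.symmDiff {X Y : Finset Ed} (hX : IsCyc X) (hY : IsCyc Y) : IsCyc (X ∆ Y) := by
  intro v; rw [par_ind_symmDiff]; unfold vx; rw [hX v, hY v]; rfl

theorem isCyc_symmDiff_of_eq {X Y : Finset Ed} (h : par (ind X) = par (ind Y)) : IsCyc (X ∆ Y) := by
  intro v; rw [par_ind_symmDiff, h]; unfold vx; simp

theorem vx_comm (S T : Vx → Bool) : vx S T = vx T S := by
  funext v; simp [vx, Bool.xor_comm]

theorem vx_assoc (S T R : Vx → Bool) : vx (vx S T) R = vx S (vx T R) := by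
  funext v; simp [vx]

theorem vx_self (S : Vx → Bool) : vx S S = fun _ => false := by
  funext v; simp [vx]

theorem vx_false (S : Vx → Bool) : vx S (fun _ => false) = S := by
  funext v; simp [vx]

theorem vx_trans (S T R : Vx → Bool) : vx (vx S T) (vx T R) = vx S R := by
  funext v; unfold vx; cases S v <;> cases T v <;> cases R v <;> rfl

/-! ### energies -/

theorem sg_mul_self (b : Bool) : sg b * sg b = 1 := by cases b <;> simp [sg]
theorem sg_not (b : Bool) : sg (!b) = - sg b := by cases b <;> simp [sg]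
theorem abs_sg (b : Bool) : |sg b| = 1 := by cases b <;> simp [sg]
theorem sg_xor (a b : Bool) : sg (xor a b) = sg a * sg b := by cases a <;> cases b <;> simp [sg]
theorem sg_le_one (b : Bool) : sg b ≤ 1 := by cases b <;> simp [sg]
theorem neg_one_le_sg (b : Bool) : -1 ≤ sg b := by cases b <;> simp [sg]

@[simp] theorem en_empty (w : Ed → ℝ) (U : Ed → Bool) : en w U ∅ = 0 := by simp [en]
@[simp] theorem tw_empty (w : Ed → ℝ) : tw w ∅ = 0 := by simp [tw]

theorem en_congr {w : Ed → ℝ} {U U' : Ed → Bool} {X : Finset Ed} (h : ∀ e ∈ X, U e = U' e) :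
    en w U X = en w U' X := by
  unfold en; exact Finset.sum_congr rfl fun e he => by rw [h e he]

theorem en_union {w : Ed → ℝ} {U : Ed → Bool} {X Y : Finset Ed} (h : Disjoint X Y) :
    en w U (X ∪ Y) = en w U X + en w U Y := by
  unfold en; exact Finset.sum_union h

theorem tw_nonneg {w : Ed → ℝ} (hw : ∀ e, 0 ≤ w e) (X : Finset Ed) : 0 ≤ tw w X :=
  Finset.sum_nonneg fun e _ => hw e

theorem tw_mono {w : Ed → ℝ} (hw : ∀ e, 0 ≤ w e) {X Y : Finset Ed} (h : X ⊆ Y) :
    tw w X ≤ tw w Y := Finset.sum_le_sum_of_subset_of_nonneg h fun e _ _ => hw e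

theorem en_le_tw {w : Ed → ℝ} (hw : ∀ e, 0 ≤ w e) (U : Ed → Bool) (X : Finset Ed) :
    en w U X ≤ tw w X := by
  unfold en tw
  refine Finset.sum_le_sum fun e _ => ?_
  have := sg_le_one (U e)
  nlinarith [hw e]

theorem neg_tw_le_en {w : Ed → ℝ} (hw : ∀ e, 0 ≤ w e) (U : Ed → Bool) (X : Finset Ed) :
    - tw w X ≤ en w U X := by
  unfold en tw
  rw [← Finset.sum_neg_distrib]
  refine Finset.sum_le_sum fun e _ => ?_
  have := neg_one_le_sg (U e)
  nlinarith [hw e]

theorem abs_en_le_tw {w : Ed → ℝ} (hw : ∀ e, 0 ≤ w e) (U : Ed → Bool) (X : Finset Ed) :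
    |en w U X| ≤ tw w X := abs_le.2 ⟨neg_tw_le_en hw U X, en_le_tw hw U X⟩

/-- flipping `X` and then `Y`. -/
theorem en_symmDiff (w : Ed → ℝ) (U : Ed → Bool) (X Y : Finset Ed) :
    en w U (X ∆ Y) = en w U X + en w (bx U (ind X)) Y := by
  classical
  have h1 : ∀ (U : Ed → Bool) (A : Finset Ed), A ⊆ X ∪ Y →
      en w U A = ∑ e ∈ X ∪ Y, if e ∈ A then w e * sg (U e) else 0 := by
    intro U A hA
    unfold en
    rw [← Finset.sum_filter, Finset.filter_mem_eq_inter, Finset.inter_eq_right.2 hA]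
  have hXY : X ∆ Y ⊆ X ∪ Y := by
    intro e he
    rw [Finset.mem_symmDiff] at he
    rcases he with h | h
    · exact Finset.mem_union_left _ h.1
    · exact Finset.mem_union_right _ h.1
  rw [h1 U _ hXY, h1 U X Finset.subset_union_left, h1 _ Y Finset.subset_union_right,
    ← Finset.sum_add_distrib]
  refine Finset.sum_congr rfl fun e _ => ?_
  by_cases h : e ∈ X <;> by_cases h' : e ∈ Y <;>
    simp [Finset.mem_symmDiff, h, h', bx, ind, sg_not]

theorem en_symmDiff_le {w : Ed → ℝ} (hw : ∀ e, 0 ≤ w e) (U : Ed → Bool) (X Y : Finset Ed) :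
    en w U (X ∆ Y) ≤ en w U X + tw w Y := by
  rw [en_symmDiff]
  have := en_le_tw hw (bx U (ind X)) Y
  linarith

theorem le_en_symmDiff {w : Ed → ℝ} (hw : ∀ e, 0 ≤ w e) (U : Ed → Bool) (X Y : Finset Ed) :
    en w U X - tw w Y ≤ en w U (X ∆ Y) := by
  rw [en_symmDiff]
  have := neg_tw_le_en hw (bx U (ind X)) Y
  linarith

/-- on the wall between `U` and `U'` the costs are opposite. -/
theorem en_wall {w : Ed → ℝ} {U U' : Ed → Bool} {X : Finset Ed} (h : ∀ e ∈ X, bx U U' e = true) :
    en w U' X = - en w U X := by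
  unfold en
  rw [← Finset.sum_neg_distrib]
  refine Finset.sum_congr rfl fun e he => ?_
  have := h e he
  unfold bx at this
  cases h1 : U e <;> cases h2 : U' e <;> simp_all [sg]

theorem en_neg (w : Ed → ℝ) (U : Ed → Bool) (X : Finset Ed) :
    en w (fun e => !(U e)) X = - en w U X := by
  unfold en
  rw [← Finset.sum_neg_distrib]
  exact Finset.sum_congr rfl fun e _ => by rw [sg_not]; ring

theorem wt_nonneg (J : Ed → ℝ) (e : Ed) : 0 ≤ wt J e := abs_nonneg _

/-! ### geometry -/

theorem edg_opp (v : Vx) (d : Dir) : edg (v + stp d) (opp d) = edg v d := by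
  obtain ⟨x, y⟩ := v
  fin_cases d <;> simp [edg, stp, opp]

theorem stp_opp (d : Dir) : stp (opp d) = - stp d := by
  fin_cases d <;> simp [stp, opp]

theorem opp_opp (d : Dir) : opp (opp d) = d := by
  fin_cases d <;> rfl

theorem edg_add (u v : Vx) (d : Dir) : edg (v + u) d = ((edg v d).1 + u, (edg v d).2) := by
  obtain ⟨x, y⟩ := v
  obtain ⟨a, b⟩ := u
  fin_cases d <;> simp [edg] <;> ring

theorem edg_injective (v : Vx) : Function.Injective (edg v) := by
  intro d d' h
  obtain ⟨x, y⟩ := v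
  fin_cases d <;> fin_cases d' <;> simp [edg] at h ⊢

theorem exists_edg (e : Ed) : ∃ v d, edg v d = e := by
  obtain ⟨v, b⟩ := e
  cases b
  · exact ⟨v, 3, rfl⟩
  · exact ⟨v, 2, rfl⟩

theorem sh_edg {α : Type*} (u : Vx) (X : Ed → α) (v : Vx) (d : Dir) :
    sh u X (edg v d) = X (edg (v + u) d) := by
  unfold sh; rw [edg_add]

theorem par_sh (u : Vx) (X : Ed → Bool) (v : Vx) : par (sh u X) v = par X (v + u) := by
  unfold par; simp only [sh_edg]

theorem sh_bx (u : Vx) (U X : Ed → Bool) : sh u (bx U X) = bx (sh u U) (sh u X) := rfl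

theorem sh_sh {α : Type*} (u v : Vx) (X : Ed → α) : sh u (sh v X) = sh (u + v) X := by
  funext e; simp [sh, add_assoc]

theorem sh_zero {α : Type*} (X : Ed → α) : sh 0 X = X := by
  funext e; simp [sh]

/-- translation of edges -/
def shE (u : Vx) : Ed ≃ Ed where
  toFun e := (e.1 + u, e.2)
  invFun e := (e.1 - u, e.2)
  left_inv e := by simp
  right_inv e := by simp

/-- translate of a finite edge set: `ind (shF u X) = sh u (ind X)` -/
def shF (u : Vx) (X : Finset Ed) : Finset Ed := X.map (shE u).symm.toEmbedding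

theorem mem_shF {u : Vx} {X : Finset Ed} {e : Ed} : e ∈ shF u X ↔ (e.1 + u, e.2) ∈ X := by
  unfold shF
  rw [Finset.mem_map_equiv]
  rfl

theorem ind_shF (u : Vx) (X : Finset Ed) : ind (shF u X) = sh u (ind X) := by
  funext e
  unfold sh ind
  rw [decide_eq_decide]
  exact mem_shF

theorem isCyc_shF {u : Vx} {X : Finset Ed} : IsCyc (shF u X) ↔ IsCyc X := by
  unfold IsCyc
  simp only [ind_shF, par_sh]
  constructor
  · intro h v
    have := h (v - u)
    rwa [sub_add_cancel] at this
  · intro h v; exact h _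

theorem en_sh (u : Vx) (w : Ed → ℝ) (U : Ed → Bool) (X : Finset Ed) :
    en (sh u w) (sh u U) (shF u X) = en w U X := by
  unfold en shF
  rw [Finset.sum_map]
  refine Finset.sum_congr rfl fun e _ => ?_
  simp [sh, shE]

theorem shF_shF (u v : Vx) (X : Finset Ed) : shF u (shF v X) = shF (u + v) X := by
  ext e; simp [mem_shF, add_assoc]

theorem shF_zero (X : Finset Ed) : shF 0 X = X := by
  ext e; simp [mem_shF]

theorem mem_GS_sh {u : Vx} {w : Ed → ℝ} {T : Vx → Bool} {U : Ed → Bool} :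
    sh u U ∈ GS (sh u w) (fun v => T (v + u)) ↔ U ∈ GS w T := by
  unfold GS
  simp only [Set.mem_ofPred_eq, par_sh]
  refine and_congr ?_ ?_
  · constructor
    · intro h v
      have := h (v - u)
      rwa [sub_add_cancel] at this
    · intro h v; exact h _
  · constructor
    · intro h C hC
      have := h (shF u C) (isCyc_shF.2 hC)
      rwa [en_sh] at this
    · intro h C hC
      have h1 := h (shF (-u) C) (isCyc_shF.2 hC)
      rw [← en_sh u, shF_shF, add_neg_cancel, shF_zero] at h1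
      exact h1

theorem wt_sh (u : Vx) (J : Ed → ℝ) : wt (sh u J) = sh u (wt J) := rfl
theorem ng_sh (u : Vx) (J : Ed → ℝ) : ng (sh u J) = sh u (ng J) := rfl
theorem fr_sh (u : Vx) (J : Ed → ℝ) : fr (sh u J) = fun v => fr J (v + u) := by
  funext v; unfold fr; rw [ng_sh, par_sh]

theorem mem_GJ_sh {u : Vx} {J : Ed → ℝ} {U : Ed → Bool} : sh u U ∈ GJ (sh u J) ↔ U ∈ GJ J := by
  unfold GJ
  rw [wt_sh, fr_sh]
  exact mem_GS_sh

theorem wl_shX (u : Vx) (p : XX) : wl (shX u p) = sh u (wl p) := rfl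

theorem shX_shX (u v : Vx) (p : XX) : shX u (shX v p) = shX (u + v) p := by
  simp [shX, sh_sh]

theorem shX_zero (p : XX) : shX 0 p = p := by
  simp [shX, sh_zero]

theorem par_wall {w : Ed → ℝ} {T : Vx → Bool} {U U' : Ed → Bool} (h : U ∈ GS w T)
    (h' : U' ∈ GS w T) (v : Vx) : par (bx U U') v = false := by
  rw [par_bx, h.1 v, h'.1 v]; simp

/-! ### connectedness -/

theorem Cn.refl (W : Ed → Bool) (v : Vx) : Cn W v v :=
  ⟨∅, by simp, by rw [par_empty, vx_self]⟩

theorem Cn.symm {W : Ed → Bool} {v v' : Vx} (h : Cn W v v') : Cn W v' v := by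
  obtain ⟨X, h1, h2⟩ := h
  exact ⟨X, h1, by rw [h2, vx_comm]⟩

theorem Cn.trans {W : Ed → Bool} {u v v' : Vx} (h : Cn W u v) (h' : Cn W v v') : Cn W u v' := by
  obtain ⟨X, h1, h2⟩ := h
  obtain ⟨Y, h3, h4⟩ := h'
  refine ⟨X ∆ Y, ?_, ?_⟩
  · intro e he
    rw [Finset.mem_symmDiff] at he
    rcases he with h | h
    · exact h1 e h.1
    · exact h3 e h.1
  · rw [par_ind_symmDiff, h2, h4, vx_trans]

theorem par_edg (v : Vx) (d : Dir) : par (ind {edg v d}) = vx (dl v) (dl (v + stp d)) := by
  funext ⟨a, b⟩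
  obtain ⟨x, y⟩ := v
  fin_cases d
  · simp [par, ind, edg, vx, dl, stp]
  · simp [par, ind, edg, vx, dl, stp]
  · have h : (a + 1 = x) ↔ (a = x + -1) := by omega
    simp [par, ind, edg, vx, dl, stp, h, Bool.xor_comm]
  · have h : (b + 1 = y) ↔ (b = y + -1) := by omega
    simp [par, ind, edg, vx, dl, stp, h, Bool.xor_comm]

theorem Cn.step {W : Ed → Bool} {v : Vx} {d : Dir} (h : W (edg v d) = true) :
    Cn W v (v + stp d) :=
  ⟨{edg v d}, by simpa using h, par_edg v d⟩

end Pool.Agent.Helper60.TJ
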