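import Pool.Agent.Helper60.TJ.Basic
import Pool.Agent.Helper66.TJ.Flp

set_option autoImplicit false

/-! TJ-C0: measurability. (The lemmas `measurable_sh`, `measurable_shX`, `measurable_upd`,
`measurable_updX`, `measurable_flp`, `measurable_par`, `measurableSet_GJ`, `measurableSet_Srv`, `mp_sh`,
`mp_flp`, `mp_upd`, `wt_flp`, `fr_flp` are in `Helper66.TJ`.) -/

namespace Pool.Agent.Helper60.TJ

open MeasureTheory

theorem measurable_en (C : Finset Ed) :
    Measurable (fun q : (Ed → ℝ) × (Ed → Bool) => en (wt q.1) q.2 C) :=
  (measurable_en_prod C).comp ((measurable_wt.comp measurable_fst).prodMk measurable_snd)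

theorem measurable_coord (e : Ed) : Measurable (fun W : Ed → Bool => W e) := measurable_pi_apply e

theorem measurable_bx : Measurable (fun q : (Ed → Bool) × (Ed → Bool) => bx q.1 q.2) := by
  refine measurable_pi_lambda _ fun e => ?_
  have h : Measurable fun b : Bool × Bool => xor b.1 b.2 := measurable_of_countable _
  have h2 : Measurable fun q : (Ed → Bool) × (Ed → Bool) => (q.1 e, q.2 e) :=
    ((measurable_coord e).comp measurable_fst).prodMk ((measurable_coord e).comp measurable_snd)
  exact h.comp h2

theorem measurable_wl : Measurable wl :=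
  measurable_bx.comp (measurable_snd)

theorem measurable_tw (R : Finset Ed) : Measurable fun w : Ed → ℝ => tw w R := by
  unfold tw
  exact Finset.measurable_sum _ fun e _ => measurable_pi_apply e

theorem measurableSet_coord (e : Ed) (b : Bool) : MeasurableSet {W : Ed → Bool | W e = b} :=
  (measurable_coord e) (measurableSet_singleton b)

theorem measurableSet_Cn (v v' : Vx) : MeasurableSet {W : Ed → Bool | Cn W v v'} := by
  have : {W : Ed → Bool | Cn W v v'} = ⋃ X : Finset Ed, ({W | ∀ e ∈ X, W e = true} ∩
      {_W | par (ind X) = vx (dl v) (dl v')}) := by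
    ext W; simp [Cn]
  rw [this]
  refine MeasurableSet.iUnion fun X => (MeasurableSet.inter ?_ (MeasurableSet.const _))
  have : {W : Ed → Bool | ∀ e ∈ X, W e = true} = ⋂ e ∈ X, {W | W e = true} := by
    ext W; simp
  rw [this]
  exact Finset.measurableSet_biInter _ fun e _ => measurableSet_coord e true

theorem measurableSet_OnW (v : Vx) : MeasurableSet {W : Ed → Bool | OnW W v} := by
  have : {W : Ed → Bool | OnW W v} = ⋃ d, {W | W (edg v d) = true} := by
    ext W; simp [OnW]
  rw [this]
  exact MeasurableSet.iUnion fun d => measurableSet_coord _ true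

theorem measurableSet_Deg2 : MeasurableSet {W : Ed → Bool | Deg2 W} := by
  have : {W : Ed → Bool | Deg2 W} = (⋂ v, {W | par W v = false}) ∩
      ⋂ v, ⋃ d, {W | W (edg v d) = false} := by
    ext W; simp [Deg2]
  rw [this]
  exact (MeasurableSet.iInter fun v => measurable_par v (measurableSet_singleton false)).inter
    (MeasurableSet.iInter fun v => MeasurableSet.iUnion fun d => measurableSet_coord _ false)

theorem measurableSet_Near (x : Vx) (M : ℝ) :
    MeasurableSet {p : XX | Near (wt p.1) (wl p) x M} := by
  have : {p : XX | Near (wt p.1) (wl p) x M} = ⋂ v, ({p : XX | OnW (wl p) v}ᶜ ∪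
      ⋃ v', ({p : XX | Cn (wl p) v v'} ∩ ⋃ R : Finset Ed,
        ({_p : XX | par (ind R) = vx (dl x) (dl v')} ∩ {p : XX | tw (wt p.1) R ≤ M}))) := by
    ext p
    simp only [Near, Set.mem_ofPred_eq, Set.mem_iInter, Set.mem_union, Set.mem_compl_iff,
      Set.mem_iUnion, Set.mem_inter_iff]
    refine forall_congr' fun v => ?_
    tauto
  rw [this]
  refine MeasurableSet.iInter fun v => ?_
  refine (measurable_wl (measurableSet_OnW v)).compl.union ?_
  refine MeasurableSet.iUnion fun v' => ?_
  refine (measurable_wl (measurableSet_Cn v v')).inter ?_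
  refine MeasurableSet.iUnion fun R => ?_
  refine (MeasurableSet.const _).inter ?_
  exact measurableSet_le (((measurable_tw R).comp measurable_wt).comp measurable_fst) measurable_const

end Pool.Agent.Helper60.TJ
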