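import Pool.Agent.Helper60.TJ.E1
import Pool.Agent.Helper60.TJ.C0

set_option autoImplicit false

/-! TJ-E2: flipping a union of components of a wall gives a locally minimal T-join. -/

namespace Pool.Agent.Helper60.TJ

open MeasureTheory
open scoped symmDiff

namespace E2

/-! ### handshake lemma -/

def bz (b : Bool) : ZMod 2 := if b then 1 else 0

theorem bz_xor (a b : Bool) : bz (xor a b) = bz a + bz b := by
  cases a <;> cases b <;> decide

theorem sum_bz_dl {B : Finset Vx} {v : Vx} (h : v ∈ B) : ∑ u ∈ B, bz (dl v u) = 1 := by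
  unfold bz dl
  simp [h]

theorem handshake_aux (Y : Finset Ed) : ∃ B₀ : Finset Vx, ∀ B : Finset Vx, B₀ ⊆ B →
    ∑ u ∈ B, bz (par (ind Y) u) = 0 := by
  induction Y using Finset.induction_on with
  | empty =>
    refine ⟨∅, fun B _ => ?_⟩
    rw [par_empty]
    simp [bz]
  | insert e Y he ih =>
    obtain ⟨B₀, hB₀⟩ := ih
    obtain ⟨v, d, hvd⟩ := exists_edg e
    refine ⟨insert v (insert (v + stp d) B₀), fun B hB => ?_⟩
    have h1 : insert e Y = Y ∆ {e} := by
      ext x
      rw [Finset.mem_insert, Finset.mem_symmDiff, Finset.mem_singleton]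
      constructor
      · rintro (h | h)
        · right; subst h; exact ⟨rfl, he⟩
        · left; refine ⟨h, ?_⟩; rintro rfl; exact he h
      · rintro (h | h)
        · exact Or.inr h.1
        · exact Or.inl h.1
    have h2 : ∀ u, bz (par (ind (insert e Y)) u)
        = bz (par (ind Y) u) + (bz (dl v u) + bz (dl (v + stp d) u)) := by
      intro u
      rw [h1, par_ind_symmDiff, ← hvd, par_edg]
      unfold vx
      rw [bz_xor, bz_xor]
    rw [Finset.sum_congr rfl fun u _ => h2 u, Finset.sum_add_distrib, Finset.sum_add_distrib,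
      hB₀ B, sum_bz_dl, sum_bz_dl]
    · decide
    · exact hB (by simp)
    · exact hB (by simp)
    · exact fun x hx => hB (by simp [hx])

theorem handshake (Y : Finset Ed) (v : Vx) : par (ind Y) ≠ dl v := by
  intro h
  obtain ⟨B₀, hB₀⟩ := handshake_aux Y
  have h1 := hB₀ (insert v B₀) (Finset.subset_insert _ _)
  rw [h, sum_bz_dl (Finset.mem_insert_self _ _)] at h1
  exact one_ne_zero h1

/-! ### saturated sets -/

theorem Sat.eq_W {W A : Ed → Bool} (h : Sat W A) {v : Vx} {d : Dir}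
    (hd : A (edg v d) = true) (i : Dir) : A (edg v i) = W (edg v i) := by
  cases hi : W (edg v i)
  · cases hA : A (edg v i)
    · rfl
    · rw [h.1 _ hA] at hi; exact absurd hi (by decide)
  · rw [h.2 v i d hi (h.1 _ hd), hd]

theorem Sat.par_false {W A : Ed → Bool} (h : Sat W A) (hW : ∀ v, par W v = false) (v : Vx) :
    par A v = false := by
  by_cases hd : ∃ d, A (edg v d) = true
  · obtain ⟨d, hd⟩ := hd
    have h1 := Sat.eq_W h hd
    rw [← hW v]
    unfold par
    rw [h1, h1, h1, h1]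
  · push Not at hd
    have h1 : ∀ d, A (edg v d) = false := fun d => by
      have := hd d
      cases h : A (edg v d)
      · rfl
      · exact absurd h this
    unfold par
    rw [h1, h1, h1, h1]; rfl

theorem par_filter_of {W A : Ed → Bool} (h : Sat W A) {X : Finset Ed}
    (hX : ∀ e ∈ X, W e = true) {u : Vx} {d : Dir} (hd : A (edg u d) = true) :
    par (ind (X.filter fun e => A e = true)) u = par (ind X) u := by
  have h1 : ∀ i : Dir, ind (X.filter fun e => A e = true) (edg u i) = ind X (edg u i) := by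
    intro i
    unfold ind
    rw [decide_eq_decide, Finset.mem_filter]
    constructor
    · exact fun h => h.1
    · intro hx
      refine ⟨hx, ?_⟩
      rw [Sat.eq_W h hd i]; exact hX _ hx
  unfold par
  rw [h1, h1, h1, h1]

theorem par_filter_not {A : Ed → Bool} {X : Finset Ed} {u : Vx}
    (hd : ∀ d, A (edg u d) = false) :
    par (ind (X.filter fun e => A e = true)) u = false := by
  have h1 : ∀ i : Dir, ind (X.filter fun e => A e = true) (edg u i) = false := by
    intro i
    unfold ind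
    rw [decide_eq_false_iff_not, Finset.mem_filter, hd i]
    simp
  unfold par
  rw [h1, h1, h1, h1]; rfl

theorem Sat.cn_aux {W A : Ed → Bool} (h : Sat W A) {v v' : Vx} {d d' : Dir} (hc : Cn W v v')
    (hd : A (edg v d) = true) (hd' : W (edg v' d') = true) : A (edg v' d') = true := by
  by_contra hne
  have hne' : A (edg v' d') = false := by
    cases h : A (edg v' d')
    · rfl
    · exact absurd h hne
  have hv : ∀ i, A (edg v' i) = false := by
    intro i
    cases hi : A (edg v' i)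
    · rfl
    · have := h.2 v' d' i hd' (h.1 _ hi)
      rw [hne', hi] at this
      exact absurd this (by decide)
  have hvv : v ≠ v' := by
    rintro rfl
    rw [hv d] at hd; exact absurd hd (by decide)
  obtain ⟨X, hX1, hX2⟩ := hc
  refine handshake (X.filter fun e => A e = true) v ?_
  funext u
  by_cases hu : ∃ i, A (edg u i) = true
  · obtain ⟨i, hi⟩ := hu
    rw [par_filter_of h hX1 hi, hX2]
    have huv : u ≠ v' := by
      rintro rfl
      rw [hv i] at hi; exact absurd hi (by decide)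
    unfold vx dl
    simp [huv]
  · push Not at hu
    have hu' : ∀ i, A (edg u i) = false := fun i => by
      have := hu i
      cases h : A (edg u i)
      · rfl
      · exact absurd h this
    rw [par_filter_not hu']
    have huv : u ≠ v := by
      rintro rfl
      rw [hu' d] at hd; exact absurd hd (by decide)
    unfold dl
    simp [huv]

theorem Sat.cn {W A : Ed → Bool} (h : Sat W A) {v v' : Vx} {d d' : Dir} (hc : Cn W v v')
    (hd : W (edg v d) = true) (hd' : W (edg v' d') = true) :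
    A (edg v d) = A (edg v' d') := by
  cases h1 : A (edg v d) <;> cases h2 : A (edg v' d')
  · rfl
  · have := Sat.cn_aux h hc.symm h2 hd
    rw [h1] at this; exact this
  · have := Sat.cn_aux h hc h1 hd'
    rw [h2] at this; exact this.symm
  · rfl

/-- every edge leaves its first end point -/
theorem exists_da (e : Ed) : ∃ d, edg (da e) d = e := by
  obtain ⟨v, b⟩ := e
  cases b
  · exact ⟨3, rfl⟩
  · exact ⟨2, rfl⟩

theorem cn_da {W : Ed → Bool} {v : Vx} {d : Dir} (h : W (edg v d) = true) :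
    Cn W v (da (edg v d)) := by
  obtain ⟨x, y⟩ := v
  fin_cases d
  · have := Cn.step (W := W) (v := (x, y)) (d := 0) h
    have e : da (edg (x, y) 0) = (x, y) + stp 0 := by simp [da, edg, stp]
    simp only [Fin.zero_eta]
    rw [e]; exact this
  · have := Cn.step (W := W) (v := (x, y)) (d := 1) h
    have e : da (edg (x, y) 1) = (x, y) + stp 1 := by simp [da, edg, stp]
    simp only [Fin.mk_one]
    rw [e]; exact this
  · exact Cn.refl _ _
  · exact Cn.refl _ _

open Classical in
/-- the union of the components which satisfy `P` -/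
noncomputable def comp (W : Ed → Bool) (P : Vx → Prop) : Ed → Bool :=
  fun e => decide (W e = true ∧ P (da e))

theorem comp_true {W : Ed → Bool} {P : Vx → Prop} {e : Ed} :
    comp W P e = true ↔ W e = true ∧ P (da e) := by
  simp [comp]

theorem sat_comp {W : Ed → Bool} {P : Vx → Prop} (hP : ∀ u u', P u → Cn W u u' → P u') :
    Sat W (comp W P) := by
  have key : ∀ v d d', W (edg v d) = true → W (edg v d') = true →
      comp W P (edg v d) = true → comp W P (edg v d') = true := by
    intro v d d' h1 h2 h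
    rw [comp_true] at h ⊢
    exact ⟨h2, hP _ _ h.2 ((cn_da h1).symm.trans (cn_da h2))⟩
  refine ⟨fun e he => (comp_true.1 he).1, fun v d d' h1 h2 => ?_⟩
  cases h : comp W P (edg v d) <;> cases h' : comp W P (edg v d')
  · rfl
  · have := key v d' d h2 h1 h'
    rw [h] at this; exact this
  · have := key v d d' h1 h2 h
    rw [h'] at this; exact this.symm
  · rfl

/-! ### the bad set -/

def Bad (C : Finset Ed) (ε : ℝ) : Set XX :=
  {p | ∃ A, Sat (wl p) A ∧ en (wt p.1) (bx p.2.1 A) C ≤ -ε}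

def Bad' (C a : Finset Ed) (ε : ℝ) : Set XX :=
  {p | (∀ e ∈ a, wl p e = true) ∧
    (∀ e ∈ C, ∀ e' ∈ C, wl p e = true → wl p e' = true → Cn (wl p) (da e) (da e') →
      (e ∈ a → e' ∈ a)) ∧ en (wt p.1) (bx p.2.1 (ind a)) C ≤ -ε}

theorem bad_eq (C : Finset Ed) (ε : ℝ) : Bad C ε = ⋃ a ∈ C.powerset, Bad' C a ε := by
  ext p
  simp only [Set.mem_iUnion, exists_prop]
  constructor
  · rintro ⟨A, hA, hle⟩
    refine ⟨C.filter fun e => A e = true, Finset.mem_powerset.2 (Finset.filter_subset _ _), ?_, ?_,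
      ?_⟩
    · intro e he
      exact hA.1 e (Finset.mem_filter.1 he).2
    · intro e he e' he' h1 h2 hc hea
      rw [Finset.mem_filter] at hea ⊢
      refine ⟨he', ?_⟩
      obtain ⟨d, hd⟩ := exists_da e
      obtain ⟨d', hd'⟩ := exists_da e'
      have := Sat.cn hA hc (d := d) (d' := d') (by rw [hd]; exact h1) (by rw [hd']; exact h2)
      rw [hd, hd'] at this
      rw [← this]; exact hea.2
    · rw [← en_congr (U := bx p.2.1 A)]
      · exact hle
      · intro e he
        unfold bx ind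
        congr 1
        cases h : A e
        · simp [h]
        · simp [h, he]
  · rintro ⟨a, ha, h1, h2, h3⟩
    rw [Finset.mem_powerset] at ha
    refine ⟨comp (wl p) (fun u => ∃ e ∈ a, Cn (wl p) (da e) u), sat_comp ?_, ?_⟩
    · rintro u u' ⟨e, he, hc⟩ hc'
      exact ⟨e, he, hc.trans hc'⟩
    · rw [← en_congr (U := bx p.2.1 (ind a))]
      · exact h3
      · intro e he
        unfold bx
        congr 1
        by_cases hea : e ∈ a
        · rw [ind_eq_true.2 hea]
          exact (comp_true.2 ⟨h1 e hea, e, hea, Cn.refl _ _⟩).symm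
        · have h4 : ind a e = false := by
            cases h : ind a e
            · rfl
            · exact absurd (ind_eq_true.1 h) hea
          rw [h4]
          cases h : comp (wl p) (fun u => ∃ e ∈ a, Cn (wl p) (da e) u) e
          · rfl
          · obtain ⟨h5, e', he', hc⟩ := comp_true.1 h
            exact absurd (h2 e' (ha he') e he (h1 e' he') h5 hc he') hea

theorem measurable_bx (a : Finset Ed) :
    Measurable (fun p : XX => bx p.2.1 (ind a)) := by
  refine measurable_pi_iff.2 fun e => ?_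
  unfold bx
  have h1 : Measurable (fun p : XX => p.2.1 e) :=
    (measurable_pi_apply e).comp (measurable_fst.comp measurable_snd)
  exact (measurable_of_countable (fun b : Bool => xor b (ind a e))).comp h1

theorem measurableSet_wl (e : Ed) : MeasurableSet {p : XX | wl p e = true} := by
  have h : Measurable (fun p : XX => wl p e) := (measurable_pi_apply e).comp measurable_wl
  exact h (measurableSet_singleton true)

theorem measurableSet_Bad' (C a : Finset Ed) (ε : ℝ) : MeasurableSet (Bad' C a ε) := by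
  have h0 : Bad' C a ε = {p : XX | ∀ e ∈ a, wl p e = true} ∩
      ({p : XX | ∀ e ∈ C, ∀ e' ∈ C, wl p e = true → wl p e' = true →
        Cn (wl p) (da e) (da e') → (e ∈ a → e' ∈ a)} ∩
      {p : XX | en (wt p.1) (bx p.2.1 (ind a)) C ≤ -ε}) := rfl
  rw [h0]
  refine MeasurableSet.inter ?_ (MeasurableSet.inter ?_ ?_)
  · have h : {p : XX | ∀ e ∈ a, wl p e = true} = ⋂ e ∈ a, {p : XX | wl p e = true} := by
      ext p; simp
    rw [h]
    exact Finset.measurableSet_biInter _ fun e _ => measurableSet_wl e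
  · have h : {p : XX | ∀ e ∈ C, ∀ e' ∈ C, wl p e = true → wl p e' = true →
        Cn (wl p) (da e) (da e') → (e ∈ a → e' ∈ a)}
        = ⋂ e ∈ C, ⋂ e' ∈ C, ({p : XX | wl p e = true}ᶜ ∪ ({p : XX | wl p e' = true}ᶜ ∪
          ((wl ⁻¹' {W | Cn W (da e) (da e')})ᶜ ∪ {_p : XX | e ∈ a → e' ∈ a}))) := by
      ext p
      simp only [Set.mem_iInter, Set.mem_union, Set.mem_compl_iff, Set.mem_preimage,
        Set.mem_ofPred_eq]
      constructor
      · intro h e he e' he'
        have := h e he e' he'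
        tauto
      · intro h e he e' he'
        have := h e he e' he'
        tauto
    rw [h]
    refine Finset.measurableSet_biInter _ fun e _ => Finset.measurableSet_biInter _ fun e' _ => ?_
    exact (measurableSet_wl e).compl.union ((measurableSet_wl e').compl.union
      ((measurable_wl (measurableSet_Cn _ _)).compl.union (MeasurableSet.const _)))
  · have h : Measurable (fun p : XX => en (wt p.1) (bx p.2.1 (ind a)) C) :=
      (measurable_en C).comp (measurable_fst.prodMk (measurable_bx a))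
    exact h measurableSet_Iic

theorem measurableSet_Bad (C : Finset Ed) (ε : ℝ) : MeasurableSet (Bad C ε) := by
  rw [bad_eq]
  exact Finset.measurableSet_biUnion _ fun a _ => measurableSet_Bad' C a ε

theorem sat_sh {u : Vx} {W A : Ed → Bool} : Sat (sh u W) (sh u A) ↔ Sat W A := by
  unfold Sat
  constructor
  · rintro ⟨h1, h2⟩
    constructor
    · intro e he
      have := h1 (e.1 - u, e.2)
      unfold sh at this
      simp only [sub_add_cancel] at this
      exact this he
    · intro v d d' hd hd'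
      have := h2 (v - u) d d'
      simp only [sh_edg, sub_add_cancel] at this
      exact this hd hd'
  · rintro ⟨h1, h2⟩
    constructor
    · intro e he
      exact h1 _ he
    · intro v d d' hd hd'
      simp only [sh_edg] at hd hd' ⊢
      exact h2 _ d d' hd hd'

theorem bad_sh (u : Vx) (C : Finset Ed) (ε : ℝ) :
    shX u ⁻¹' (Bad C ε) = Bad (shF (-u) C) ε := by
  ext p
  unfold Bad
  simp only [Set.mem_preimage, Set.mem_ofPred_eq]
  have hC : shF u (shF (-u) C) = C := by rw [shF_shF, add_neg_cancel, shF_zero]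
  have key : ∀ A' : Ed → Bool, en (wt (shX u p).1) (bx (shX u p).2.1 (sh u A')) C
      = en (wt p.1) (bx p.2.1 A') (shF (-u) C) := by
    intro A'
    have := en_sh u (wt p.1) (bx p.2.1 A') (shF (-u) C)
    rw [hC] at this
    rw [← this]
    rfl
  constructor
  · rintro ⟨A, hA, hle⟩
    refine ⟨sh (-u) A, ?_, ?_⟩
    · rw [← sat_sh (u := u), sh_sh, add_neg_cancel, sh_zero]
      rw [wl_shX] at hA
      exact hA
    · rw [← key, sh_sh, add_neg_cancel, sh_zero]
      exact hle
  · rintro ⟨A, hA, hle⟩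
    refine ⟨sh u A, ?_, ?_⟩
    · rw [wl_shX, sat_sh]; exact hA
    · rw [key]; exact hle

/-! ### counting -/

theorem mem_box {L : ℕ} {v : Vx} :
    v ∈ box L ↔ (-(L : ℤ) ≤ v.1 ∧ v.1 ≤ L) ∧ (-(L : ℤ) ≤ v.2 ∧ v.2 ≤ L) := by
  unfold box
  rw [Finset.mem_product, Finset.mem_Icc, Finset.mem_Icc]

theorem card_box_E2 (L : ℕ) : (box L).card = (2 * L + 1) ^ 2 := by
  unfold box
  rw [Finset.card_product, Int.card_Icc]
  have : ((L : ℤ) + 1 - -(L : ℤ)).toNat = 2 * L + 1 := by omega
  rw [this, sq]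

theorem card_circ_le (L : ℕ) : (circ L).card ≤ 8 * (2 * L + 1) := by
  have hI : (Finset.Icc (-(L : ℤ)) L).card = 2 * L + 1 := by
    rw [Int.card_Icc]; omega
  let S : Finset Vx := (({(L : ℤ)} ×ˢ Finset.Icc (-(L : ℤ)) L) ∪ ({-(L : ℤ)} ×ˢ Finset.Icc (-(L : ℤ)) L))
    ∪ ((Finset.Icc (-(L : ℤ)) L ×ˢ {(L : ℤ)}) ∪ (Finset.Icc (-(L : ℤ)) L ×ˢ {-(L : ℤ)}))
  have hS : S.card ≤ 4 * (2 * L + 1) := by
    refine (Finset.card_union_le _ _).trans ?_
    have h1 := Finset.card_union_le ({(L : ℤ)} ×ˢ Finset.Icc (-(L : ℤ)) L)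
      ({-(L : ℤ)} ×ˢ Finset.Icc (-(L : ℤ)) L)
    have h2 := Finset.card_union_le (Finset.Icc (-(L : ℤ)) L ×ˢ {(L : ℤ)})
      (Finset.Icc (-(L : ℤ)) L ×ˢ {-(L : ℤ)})
    simp only [Finset.card_product, Finset.card_singleton, hI] at h1 h2
    omega
  have hsub : circ L ⊆ S ×ˢ (Finset.univ : Finset Bool) := by
    intro e he
    unfold circ ebox at he
    simp only [Finset.mem_filter, Finset.mem_product] at he
    obtain ⟨⟨⟨h1, -⟩, -⟩, h2, -⟩ := he
    rw [mem_box] at h1
    obtain ⟨⟨a1, a2⟩, b1, b2⟩ := h1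
    refine Finset.mem_product.2 ⟨?_, Finset.mem_univ _⟩
    unfold onB da at h2
    rcases h2 with h2 | h2 | h2 | h2
    · refine Finset.mem_union_left _ (Finset.mem_union_left _ ?_)
      exact Finset.mem_product.2 ⟨Finset.mem_singleton.2 h2, Finset.mem_Icc.2 ⟨b1, b2⟩⟩
    · refine Finset.mem_union_left _ (Finset.mem_union_right _ ?_)
      exact Finset.mem_product.2 ⟨Finset.mem_singleton.2 h2, Finset.mem_Icc.2 ⟨b1, b2⟩⟩
    · refine Finset.mem_union_right _ (Finset.mem_union_left _ ?_)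
      exact Finset.mem_product.2 ⟨Finset.mem_Icc.2 ⟨a1, a2⟩, Finset.mem_singleton.2 h2⟩
    · refine Finset.mem_union_right _ (Finset.mem_union_right _ ?_)
      exact Finset.mem_product.2 ⟨Finset.mem_Icc.2 ⟨a1, a2⟩, Finset.mem_singleton.2 h2⟩
  have h3 := Finset.card_le_card hsub
  rw [Finset.card_product, Finset.card_univ, Fintype.card_bool] at h3
  omega

/-- sublattice points -/
def scl (s : ℕ) (u : Vx) : Vx := ((s : ℤ) * u.1, (s : ℤ) * u.2)

theorem scl_inj {s : ℕ} (hs : 0 < s) : Function.Injective (scl s) := by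
  rintro ⟨a, b⟩ ⟨c, d⟩ h
  unfold scl at h
  simp only [Prod.mk.injEq] at h
  have hs' : (s : ℤ) ≠ 0 := by exact_mod_cast hs.ne'
  rw [Prod.mk.injEq]
  exact ⟨mul_left_cancel₀ hs' h.1, mul_left_cancel₀ hs' h.2⟩

theorem mem_shF_neg {z : Vx} {C : Finset Ed} {e : Ed} :
    e ∈ shF (-z) C ↔ (e.1 - z, e.2) ∈ C := by
  rw [mem_shF, ← sub_eq_add_neg]

theorem card_shF (z : Vx) (C : Finset Ed) : (shF z C).card = C.card := by
  unfold shF; rw [Finset.card_map]

/-- the main estimate for one point -/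
theorem count_le {w : Ed → ℝ} (hw : ∀ e, 0 ≤ w e) {T : Vx → Bool} {U U' : Ed → Bool}
    (hU : U ∈ GS w T) (hU' : U' ∈ GS w T) {C : Finset Ed} (hC : IsCyc C) {r : ℕ}
    (hr : ∀ e ∈ C, e.1 ∈ box r) {ε : ℝ} (hε : 0 ≤ ε) (N : ℕ) (Z : Finset Vx)
    (hZ : Z ⊆ (box N).image (scl (2 * r + 1)))
    (hbad : ∀ z ∈ Z, ∃ A, Sat (bx U U') A ∧ en w (bx U A) (shF (-z) C) ≤ -ε) :
    ε * Z.card ≤ 2 ^ (C.card + 1) * tw w (circ ((2 * r + 1) * N + r + 1)) := by
  classical
  choose! A hA using hbad
  have hzb : ∀ z ∈ Z, ∃ u ∈ box N, scl (2 * r + 1) u = z := fun z hz => by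
    have := hZ hz
    rw [Finset.mem_image] at this
    exact this
  refine recomb hw hU hU' hε Z (fun z => shF (-z) C) A ?_ ?_ (fun z hz => (hA z hz).1)
    (fun z hz => (hA z hz).2)
  · intro z hz
    refine ⟨?_, (card_shF _ _).le, isCyc_shF.2 hC⟩
    obtain ⟨u, hu, rfl⟩ := hzb z hz
    rw [mem_box] at hu
    intro e he
    rw [mem_shF_neg] at he
    have h1 := hr _ he
    rw [mem_box] at h1
    simp only [scl, Prod.fst_sub, Prod.snd_sub] at h1
    obtain ⟨⟨a1, a2⟩, b1, b2⟩ := h1
    obtain ⟨⟨c1, c2⟩, d1, d2⟩ := hu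
    push_cast at a1 a2 b1 b2
    have e1 : (2 * (r : ℤ) + 1) * u.1 ≤ (2 * (r : ℤ) + 1) * N :=
      mul_le_mul_of_nonneg_left c2 (by positivity)
    have e2 : (2 * (r : ℤ) + 1) * (-(N : ℤ)) ≤ (2 * (r : ℤ) + 1) * u.1 :=
      mul_le_mul_of_nonneg_left c1 (by positivity)
    have e3 : (2 * (r : ℤ) + 1) * u.2 ≤ (2 * (r : ℤ) + 1) * N :=
      mul_le_mul_of_nonneg_left d2 (by positivity)
    have e4 : (2 * (r : ℤ) + 1) * (-(N : ℤ)) ≤ (2 * (r : ℤ) + 1) * u.2 :=
      mul_le_mul_of_nonneg_left d1 (by positivity)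
    unfold ebox
    rw [Finset.mem_filter, Finset.mem_product, mem_box, mem_box]
    push_cast
    refine ⟨⟨⟨⟨by linarith, by linarith⟩, by linarith, by linarith⟩, Finset.mem_univ _⟩, ?_⟩
    unfold db
    split_ifs
    · simp only
      exact ⟨⟨by linarith, by linarith⟩, by linarith, by linarith⟩
    · simp only
      exact ⟨⟨by linarith, by linarith⟩, by linarith, by linarith⟩
  · intro z hz z' hz' hne
    obtain ⟨u, hu, rfl⟩ := hzb z hz
    obtain ⟨u', hu', rfl⟩ := hzb z' hz'
    rw [Finset.disjoint_left]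
    intro e he he'
    rw [mem_shF_neg] at he he'
    have h1 := hr _ he
    have h2 := hr _ he'
    rw [mem_box] at h1 h2
    simp only [scl, Prod.fst_sub, Prod.snd_sub] at h1 h2
    obtain ⟨⟨a1, a2⟩, b1, b2⟩ := h1
    obtain ⟨⟨c1, c2⟩, d1, d2⟩ := h2
    push_cast at a1 a2 b1 b2 c1 c2 d1 d2
    apply hne
    have key : ∀ x y : ℤ, -(2 * (r : ℤ)) ≤ (2 * (r : ℤ) + 1) * x - (2 * (r : ℤ) + 1) * y →
        (2 * (r : ℤ) + 1) * x - (2 * (r : ℤ) + 1) * y ≤ 2 * (r : ℤ) → x = y := by
      intro x y h1 h2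
      have h3 : (2 * (r : ℤ) + 1) * (x - y) ≤ 2 * (r : ℤ) := by linarith
      have h4 : -(2 * (r : ℤ)) ≤ (2 * (r : ℤ) + 1) * (x - y) := by linarith
      by_contra hxy
      rcases lt_or_gt_of_ne hxy with h | h
      · have h5 : x - y ≤ -1 := by omega
        nlinarith
      · have h5 : 1 ≤ x - y := by omega
        nlinarith
    have h3 : u.1 = u'.1 := key _ _ (by linarith) (by linarith)
    have h4 : u.2 = u'.2 := key _ _ (by linarith) (by linarith)
    unfold scl
    rw [h3, h4]

theorem exists_box (C : Finset Ed) : ∃ r : ℕ, ∀ e ∈ C, e.1 ∈ box r := by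
  refine ⟨∑ e ∈ C, (e.1.1.natAbs + e.1.2.natAbs), fun e he => ?_⟩
  have h := Finset.single_le_sum (f := fun e : Ed => e.1.1.natAbs + e.1.2.natAbs)
    (fun _ _ => Nat.zero_le _) he
  rw [mem_box]
  generalize (∑ e ∈ C, (e.1.1.natAbs + e.1.2.natAbs)) = t at h ⊢
  omega

/-- the mean of a coupling under `Q` -/
theorem lintegral_coupling {μ : Measure ℝ} [IsProbabilityMeasure μ] {k : ℕ} {Q : Measure XX}
    (hQ : IsQ μ k Q) (e : Ed) : ∫⁻ p, ENNReal.ofReal |p.1 e| ∂Q
      ≤ (k * k : ℕ) * ∫⁻ x, ENNReal.ofReal |x| ∂μ := by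
  have hm : Measurable (fun x : ℝ => ENNReal.ofReal |x|) :=
    ENNReal.measurable_ofReal.comp measurable_norm
  have hme : Measurable (fun J : Ed → ℝ => ENNReal.ofReal |J e|) := hm.comp (measurable_pi_apply e)
  have h1 : Q.map Prod.fst ≤ ((k * k : ℕ) : ENNReal) • PP μ := by
    refine Measure.le_iff.2 fun s hs => ?_
    rw [Measure.map_apply measurable_fst hs, Measure.smul_apply, smul_eq_mul]
    exact hQ.fst_le s
  calc ∫⁻ p, ENNReal.ofReal |p.1 e| ∂Q
      = ∫⁻ J, ENNReal.ofReal |J e| ∂(Q.map Prod.fst) := (lintegral_map hme measurable_fst).symm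
    _ ≤ ∫⁻ J, ENNReal.ofReal |J e| ∂(((k * k : ℕ) : ENNReal) • PP μ) := lintegral_mono' h1 le_rfl
    _ = (k * k : ℕ) * ∫⁻ J, ENNReal.ofReal |J e| ∂(PP μ) := by
        rw [lintegral_smul_measure, smul_eq_mul]
    _ = (k * k : ℕ) * ∫⁻ x, ENNReal.ofReal |x| ∂μ := by
        congr 1
        have h2 : (PP μ).map (fun J : Ed → ℝ => J e) = μ :=
          (measurePreserving_eval_infinitePi (fun _ : Ed => μ) e).map_eq
        rw [← h2, lintegral_map hm (measurable_pi_apply e), h2]

theorem bad_null {μ : Measure ℝ} [IsProbabilityMeasure μ] (hint : Integrable (fun x : ℝ => x) μ)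
    {k : ℕ} {Q : Measure XX} (hQ : IsQ μ k Q) {C : Finset Ed} (hC : IsCyc C) {ε : ℝ}
    (hε : 0 < ε) : Q (Bad C ε) = 0 := by
  classical
  obtain ⟨r, hr⟩ := exists_box C
  set M1 : ENNReal := ∫⁻ x, ENNReal.ofReal |x| ∂μ with hM1
  have hM1f : M1 ≠ ⊤ := by
    have h := hint.2
    unfold HasFiniteIntegral at h
    have h2 : ∀ x : ℝ, ‖x‖ₑ = ENNReal.ofReal |x| := fun x => by
      rw [← Real.norm_eq_abs, ofReal_norm]
    simp only [h2] at h
    exact h.ne
  set c : ENNReal := 2 ^ (C.card + 1) * (8 * ((2 * r + 3 : ℕ) : ENNReal)) *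
    ((k * k : ℕ) * M1) with hc
  have hcf : c ≠ ⊤ := by
    rw [hc]
    refine ENNReal.mul_ne_top (ENNReal.mul_ne_top (by simp) ?_)
      (ENNReal.mul_ne_top (ENNReal.natCast_ne_top _) hM1f)
    exact ENNReal.mul_ne_top (by simp) (ENNReal.natCast_ne_top _)
  by_contra hne
  have hpos : ENNReal.ofReal ε * Q (Bad C ε) ≠ 0 :=
    mul_ne_zero (by simpa using hε) hne
  obtain ⟨n, hn⟩ := ENNReal.exists_nat_mul_gt hpos hcf
  -- the estimate for the box of radius `n`
  set L : ℕ := (2 * r + 1) * n + r + 1 with hL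
  set Z : Finset Vx := (box n).image (scl (2 * r + 1)) with hZ
  have hZc : Z.card = (2 * n + 1) ^ 2 := by
    rw [hZ, Finset.card_image_of_injective _ (scl_inj (by omega)), card_box_E2]
  have hmeas : ∀ z : Vx, MeasurableSet (Bad (shF (-z) C) ε) := fun z => measurableSet_Bad _ _
  have hQz : ∀ z : Vx, Q (Bad (shF (-z) C) ε) = Q (Bad C ε) := by
    intro z
    rw [← bad_sh]
    exact (hQ.inv z).measure_preimage (measurableSet_Bad C ε).nullMeasurableSet
  have hpt : ∀ᵐ p ∂Q, ENNReal.ofReal ε * ∑ z ∈ Z, (Bad (shF (-z) C) ε).indicator 1 p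
      ≤ 2 ^ (C.card + 1) * ∑ e ∈ circ L, ENNReal.ofReal |p.1 e| := by
    filter_upwards [hQ.nice] with p hp
    obtain ⟨hn1, hU, hU', -⟩ := hp
    have h1 : ∑ z ∈ Z, (Bad (shF (-z) C) ε).indicator (1 : XX → ENNReal) p
        = ((Z.filter fun z => p ∈ Bad (shF (-z) C) ε).card : ENNReal) := by
      rw [Finset.card_filter]
      push_cast
      refine Finset.sum_congr rfl fun z _ => ?_
      by_cases h : p ∈ Bad (shF (-z) C) ε
      · rw [Set.indicator_of_mem h, if_pos h]; rfl
      · rw [Set.indicator_of_notMem h, if_neg h]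
    rw [h1]
    have h2 := count_le (w := wt p.1) (wt_nonneg p.1) hU hU' hC hr hε.le n
      (Z.filter fun z => p ∈ Bad (shF (-z) C) ε) (Finset.filter_subset _ _)
      (fun z hz => (Finset.mem_filter.1 hz).2)
    have h3 : ENNReal.ofReal ε * ((Z.filter fun z => p ∈ Bad (shF (-z) C) ε).card : ENNReal)
        = ENNReal.ofReal (ε * (Z.filter fun z => p ∈ Bad (shF (-z) C) ε).card) := by
      rw [ENNReal.ofReal_mul hε.le, ENNReal.ofReal_natCast]
    rw [h3]
    refine (ENNReal.ofReal_le_ofReal h2).trans (le_of_eq ?_)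
    rw [ENNReal.ofReal_mul (by positivity)]
    congr 1
    · rw [ENNReal.ofReal_pow (by norm_num)]
      congr 1
      simp
    · unfold tw wt
      rw [ENNReal.ofReal_sum_of_nonneg fun e _ => abs_nonneg _]
  have hint2 := lintegral_mono_ae hpt
  have hlhs : ∫⁻ p, ENNReal.ofReal ε * ∑ z ∈ Z, (Bad (shF (-z) C) ε).indicator 1 p ∂Q
      = ENNReal.ofReal ε * (((2 * n + 1) ^ 2 : ℕ) * Q (Bad C ε)) := by
    rw [lintegral_const_mul]
    · congr 1
      rw [lintegral_finsetSum]
      · rw [Finset.sum_congr rfl (g := fun _ => Q (Bad C ε))]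
        · rw [Finset.sum_const, hZc, nsmul_eq_mul]
        · intro z _
          rw [lintegral_indicator_one (hmeas z), hQz]
      · intro z _
        exact measurable_one.indicator (hmeas z)
    · exact Finset.measurable_sum _ fun z _ => measurable_one.indicator (hmeas z)
  have hme : ∀ e : Ed, Measurable (fun p : XX => ENNReal.ofReal |p.1 e|) := fun e =>
    (ENNReal.measurable_ofReal.comp measurable_norm).comp
      ((measurable_pi_apply e).comp measurable_fst)
  have hrhs : ∫⁻ p, 2 ^ (C.card + 1) * ∑ e ∈ circ L, ENNReal.ofReal |p.1 e| ∂Q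
      ≤ 2 ^ (C.card + 1) * (((8 * (2 * L + 1) : ℕ) : ENNReal) * ((k * k : ℕ) * M1)) := by
    rw [lintegral_const_mul _ (Finset.measurable_sum _ fun e _ => hme e)]
    gcongr
    rw [lintegral_finsetSum _ fun e _ => hme e]
    calc ∑ e ∈ circ L, ∫⁻ p, ENNReal.ofReal |p.1 e| ∂Q
        ≤ ∑ e ∈ circ L, ((k * k : ℕ) * M1 : ENNReal) :=
          Finset.sum_le_sum fun e _ => lintegral_coupling hQ e
      _ = ((circ L).card : ENNReal) * ((k * k : ℕ) * M1) := by
          rw [Finset.sum_const, nsmul_eq_mul]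
      _ ≤ ((8 * (2 * L + 1) : ℕ) : ENNReal) * ((k * k : ℕ) * M1) := by
          gcongr
          exact card_circ_le L
  rw [hlhs] at hint2
  have h4 := hint2.trans hrhs
  have hLle : 8 * (2 * L + 1) ≤ (8 * (2 * r + 3)) * (2 * n + 1) := by
    rw [hL]; nlinarith
  have h5 : ENNReal.ofReal ε * (((2 * n + 1) ^ 2 : ℕ) * Q (Bad C ε))
      ≤ c * ((2 * n + 1 : ℕ) : ENNReal) := by
    refine h4.trans ?_
    calc 2 ^ (C.card + 1) * (((8 * (2 * L + 1) : ℕ) : ENNReal) * ((k * k : ℕ) * M1))
        ≤ 2 ^ (C.card + 1) * (((8 * (2 * r + 3) * (2 * n + 1) : ℕ) : ENNReal)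
            * ((k * k : ℕ) * M1)) := by
          gcongr
      _ = c * ((2 * n + 1 : ℕ) : ENNReal) := by
          rw [hc]; push_cast; ring
  have h6 : ENNReal.ofReal ε * (((2 * n + 1) ^ 2 : ℕ) * Q (Bad C ε))
      = (((2 * n + 1 : ℕ) : ENNReal) * (ENNReal.ofReal ε * Q (Bad C ε)))
        * ((2 * n + 1 : ℕ) : ENNReal) := by
    push_cast; ring
  rw [h6] at h5
  have h7 : ((2 * n + 1 : ℕ) : ENNReal) * (ENNReal.ofReal ε * Q (Bad C ε)) ≤ c := by
    refine (ENNReal.mul_le_mul_iff_left ?_ (ENNReal.natCast_ne_top (2 * n + 1))).1 h5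
    simp
  refine absurd (h7.trans_lt hn) (not_lt.2 ?_)
  gcongr
  omega

end E2

theorem recomb_ae {μ : Measure ℝ} [IsProbabilityMeasure μ] (hint : Integrable (fun x : ℝ => x) μ)
    {k : ℕ} {Q : Measure XX} (hQ : IsQ μ k Q) :
    ∀ᵐ p ∂Q, ∀ A : Ed → Bool, Sat (wl p) A → bx p.2.1 A ∈ GJ p.1 := by
  have h1 : ∀ᵐ p ∂Q, ∀ C : Finset Ed, ∀ n : ℕ, IsCyc C → p ∉ E2.Bad C (1 / ((n : ℝ) + 1)) := by
    rw [ae_all_iff]
    intro C
    rw [ae_all_iff]
    intro n
    by_cases hC : IsCyc C
    · have h := E2.bad_null hint hQ hC (ε := 1 / ((n : ℝ) + 1)) (by positivity)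
      have h2 : ∀ᵐ p ∂Q, p ∉ E2.Bad C (1 / ((n : ℝ) + 1)) := measure_eq_zero_iff_ae_notMem.1 h
      filter_upwards [h2] with p hp _ using hp
    · exact Filter.Eventually.of_forall fun p h => absurd h hC
  filter_upwards [h1, hQ.nice] with p hp hnice A hA
  obtain ⟨-, hU, hU', -⟩ := hnice
  refine ⟨fun v => ?_, fun C hC => ?_⟩
  · rw [par_bx, hU.1 v, E2.Sat.par_false hA (par_wall hU hU') v]
    simp
  · by_contra hneg
    rw [not_le] at hneg
    obtain ⟨n, hn⟩ := exists_nat_one_div_lt (neg_pos.2 hneg)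
    exact hp C n hC ⟨A, hA, by linarith⟩

/-- finitely many components: there are at most `k` pairwise disconnected vertices of the wall -/
theorem few_comp {J : Ed → ℝ} {k : ℕ} (hJ : Nice k J) {U W : Ed → Bool} (hU : U ∈ GJ J)
    (h : ∀ A : Ed → Bool, Sat W A → bx U A ∈ GJ J) (hW : ∀ v, par W v = false)
    (s : Finset Vx) (hs : ∀ v ∈ s, OnW W v) (hs' : ∀ v ∈ s, ∀ v' ∈ s, Cn W v v' → v = v') :
    s.card ≤ k := by
  have hsat : ∀ v, Sat W (E2.comp W (fun u => Cn W v u)) := fun v =>
    E2.sat_comp fun u u' h1 h2 => h1.trans h2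
  have hinj : Set.InjOn (fun v => bx U (E2.comp W (fun u => Cn W v u))) (s : Set Vx) := by
    intro v hv v' hv' he
    have he' : E2.comp W (fun u => Cn W v u) = E2.comp W (fun u => Cn W v' u) := by
      have h1 := congrArg (bx U) he
      simp only [bx_cancel'] at h1
      exact h1
    obtain ⟨d, hd⟩ := hs v hv
    have h1 : E2.comp W (fun u => Cn W v u) (edg v d) = true :=
      E2.comp_true.2 ⟨hd, E2.cn_da hd⟩
    rw [he'] at h1
    have h2 := (E2.comp_true.1 h1).2
    exact (hs' v' hv' v hv (h2.trans (E2.cn_da hd).symm)).symm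
  have h1 : (s : Set Vx).ncard ≤ (GJ J).ncard :=
    Set.ncard_le_ncard_of_injOn _ (fun v _ => h _ (hsat v)) hinj hJ.fin
  rw [hJ.card, Set.ncard_coe_finset] at h1
  exact h1

end Pool.Agent.Helper60.TJ
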