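import Pool.Agent.Helper60.TJ.A1

set_option autoImplicit false

/-! TJ-A3: the number of locally minimal T-joins is infinite a.s., or a constant `k ≥ 1` and then
almost all couplings are nice. -/

namespace Pool.Agent.Helper60.TJ

open MeasureTheory Set
open Pool.Agent.Helper23.EA Pool.Agent.Helper42.EA

private theorem abs_mul_sg (x : ℝ) (b : Bool) : |x| * sg b = x ∨ |x| * sg b = -x := by
  unfold sg
  rcases abs_choice x with h | h <;> cases b <;> simp [h]

theorem ae_basic (μ : Measure ℝ) [IsProbabilityMeasure μ] (hμ : ∀ x : ℝ, μ {x} = 0) :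
    ∀ᵐ J ∂(PP μ), (∀ e, J e ≠ 0) ∧ NT (wt J) := by
  have : NullSingletonClass μ := ⟨hμ⟩
  have h : ∀ᵐ J ∂(PP μ), ∀ S P : Finset Ed, S.Nonempty →
      ∑ e ∈ S, J e * (if e ∈ P then 1 else -1) ≠ (0 : ℝ) := by
    rw [ae_all_iff]; intro S
    rw [ae_all_iff]; intro P
    by_cases hS : S.Nonempty
    · have := null_tie (fun _ : Ed => μ) S P hS
      rw [ae_iff]
      simpa [hS] using this
    · simp [hS]
  filter_upwards [h] with J hJ
  refine ⟨fun e he => ?_, fun C hC U hU => ?_⟩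
  · have := hJ {e} {e} (by simp)
    simp [he] at this
  · refine hJ C (C.filter fun e => |J e| * sg (U e) = J e) hC ?_
    rw [← hU]
    unfold en
    refine Finset.sum_congr rfl fun e he => ?_
    by_cases h : |J e| * sg (U e) = J e
    · rw [if_pos (Finset.mem_filter.2 ⟨he, h⟩)]
      simp only [wt]
      rw [h, mul_one]
    · have h2 := (abs_mul_sg (J e) (U e)).resolve_left h
      have hn : e ∉ C.filter (fun e => |J e| * sg (U e) = J e) :=
        fun h' => h (Finset.mem_filter.1 h').2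
      rw [if_neg hn]
      simp only [wt]
      rw [h2]
      ring

private theorem hmove2 : ∀ F : Finset Ed, ∃ f : Vx ≃ Vx, ∃ g : Ed ≃ Ed,
    IsAut pa pb f g ∧ ∀ e ∈ F, g e ∉ F := by
  intro F
  obtain ⟨M, hM⟩ : ∃ M : ℕ, ∀ e ∈ F, e.1.1.natAbs ≤ M :=
    ⟨F.sup (fun e : Ed => e.1.1.natAbs), fun e he =>
      Finset.le_sup (f := fun e : Ed => e.1.1.natAbs) he⟩
  refine ⟨Equiv.addRight (((2 * M + 1 : ℤ), (0 : ℤ)) : Vx),
    (Equiv.addRight (((2 * M + 1 : ℤ), (0 : ℤ)) : Vx)).prodCongr (Equiv.refl Bool), ?_, ?_⟩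
  · rintro ⟨⟨x, y⟩, b⟩
    left
    constructor
    · rfl
    · cases b
      · simp [pb]; ring
      · simp [pb]
  · rintro ⟨⟨x, y⟩, b⟩ he hge
    have h1 := hM _ he
    have h2 := hM _ hge
    simp at h1 h2
    omega

/-! ### the number of weak ground states -/

/-- patterns of weak ground states on a window -/
private def pat (B : Finset Vx) (J : Ed → ℝ) : Set (B → Bool) :=
  {p | ∃ σ, WGS pa pb hlf2 J σ ∧ ∀ v : B, σ v = p v}

private theorem measurable_pat (B : Finset Vx) : Measurable (pat B) := by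
  rw [measurable_set_iff]
  intro p
  have h : IsClosed {J : Ed → ℝ | ∃ σ τ, (J, (σ, τ)) ∈
      {x : (Ed → ℝ) × ((Vx → Bool) × (Vx → Bool)) | WGS pa pb hlf2 x.1 x.2.1} ∩
      {x | ∀ v : B, x.2.1 v = p v}} :=
    isClosed_proj (isClosed_WGS_left.inter (isClosed_pattern_left B p))
  have h2 : {J : Ed → ℝ | p ∈ pat B J} = {J : Ed → ℝ | ∃ σ τ, (J, (σ, τ)) ∈
      {x : (Ed → ℝ) × ((Vx → Bool) × (Vx → Bool)) | WGS pa pb hlf2 x.1 x.2.1} ∩
      {x | ∀ v : B, x.2.1 v = p v}} := by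
    ext J
    simp only [pat, mem_ofPred_eq, mem_inter_iff]
    constructor
    · rintro ⟨σ, h3, h4⟩
      exact ⟨σ, σ, h3, h4⟩
    · rintro ⟨σ, _, h3, h4⟩
      exact ⟨σ, h3, h4⟩
  have h3 : MeasurableSet {J : Ed → ℝ | p ∈ pat B J} := by
    rw [h2]; exact h.measurableSet
  exact measurableSet_setOfPred.1 h3

/-- the couplings with exactly `n` weak ground states -/
private def TN (n : ℕ) : Set (Ed → ℝ) :=
  {J | J ∈ FinWG pa pb hlf2 ∧ (WG pa pb hlf2 J).ncard = n}

private theorem ncard_pat {B : Finset Vx} {J : Ed → ℝ} (h : J ∈ Sep pa pb hlf2 B) :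
    (pat B J).ncard = (WG pa pb hlf2 J).ncard := by
  have h1 : pat B J = (fun σ : Vx → Bool => fun v : B => σ v) '' (WG pa pb hlf2 J) := by
    ext p
    simp only [pat, WG, mem_ofPred_eq, mem_image]
    constructor
    · rintro ⟨σ, h2, h3⟩
      exact ⟨σ, h2, funext h3⟩
    · rintro ⟨σ, h2, h3⟩
      exact ⟨σ, h2, fun v => congrFun h3 v⟩
  rw [h1]
  refine Set.InjOn.ncard_image ?_
  intro σ hσ τ hτ hst
  exact h σ τ hσ hτ fun v hv => congrFun hst ⟨v, hv⟩

private theorem TN_eq (n : ℕ) :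
    TN n = ⋃ B : Finset Vx, Sep pa pb hlf2 B ∩ pat B ⁻¹' {P | P.ncard = n} := by
  ext J
  simp only [TN, mem_ofPred_eq, mem_iUnion, mem_inter_iff, mem_preimage]
  constructor
  · rintro ⟨h1, h2⟩
    obtain ⟨B, hB⟩ := (finWG_iff J).1 h1
    exact ⟨B, hB, by rw [ncard_pat hB, h2]⟩
  · rintro ⟨B, hB, h2⟩
    exact ⟨(finWG_iff J).2 ⟨B, hB⟩, by rw [← ncard_pat hB, h2]⟩

private theorem measurableSet_TN (n : ℕ) : MeasurableSet (TN n) := by
  rw [TN_eq]
  refine MeasurableSet.iUnion fun B => (measurableSet_Sep B).inter ?_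
  exact measurable_pat B (Set.toFinite _).measurableSet

private theorem TN_inv {f : Vx ≃ Vx} {g : Ed ≃ Ed} (h : IsAut pa pb f g) (n : ℕ) (J : Ed → ℝ) :
    (fun e => J (g e)) ∈ TN n ↔ J ∈ TN n := by
  let φ : (Vx → Bool) ≃ (Vx → Bool) :=
    ⟨fun σ v => σ (f v), fun σ v => σ (f.symm v), fun σ => by simp, fun σ => by simp⟩
  have h1 : WG pa pb hlf2 (fun e => J (g e)) = φ '' (WG pa pb hlf2 J) := by
    ext σ
    rw [Equiv.image_eq_preimage_symm]
    show WGS pa pb hlf2 (fun e => J (g e)) σ ↔ WGS pa pb hlf2 J (φ.symm σ)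
    rw [← h.WGS J (φ.symm σ)]
    simp [φ]
  unfold TN
  rw [mem_ofPred_eq, mem_ofPred_eq, h.finWG, h1, Set.ncard_image_of_injective _ φ.injective]

private theorem ae_ncard (μ : Measure ℝ) [IsProbabilityMeasure μ]
    (hfin : ∀ᵐ J ∂(PP μ), J ∈ FinWG pa pb hlf2) :
    ∃ n : ℕ, ∀ᵐ J ∂(PP μ), (WG pa pb hlf2 J).ncard = n := by
  have h01 : ∀ n, PP μ (TN n) = 0 ∨ PP μ (TN n) = 1 := by
    intro n
    refine zero_one μ (measurableSet_TN n) fun F => ?_
    obtain ⟨f, g, hfg, hF⟩ := hmove2 F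
    exact ⟨g, hF, fun J => TN_inv hfg n J⟩
  by_contra hcon'
  have hcon := not_exists.1 hcon'
  have h0 : ∀ n, PP μ (TN n) = 0 := by
    intro n
    rcases h01 n with h | h
    · exact h
    · exfalso
      have h2 : ∀ᵐ J ∂(PP μ), J ∈ TN n := (prob_compl_eq_zero_iff (measurableSet_TN n)).2 h
      exact hcon n (h2.mono fun J hJ => hJ.2)
  have h1 : ∀ᵐ J ∂(PP μ), ∀ n, J ∉ TN n := by
    rw [ae_all_iff]
    intro n
    rw [ae_iff]
    simpa using h0 n
  have hfalse : ∀ᵐ J ∂(PP μ), False := by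
    filter_upwards [hfin, h1] with J h2 h3
    exact h3 _ ⟨h2, rfl⟩
  rw [Filter.eventually_false_iff_eq_bot, ae_eq_bot] at hfalse
  have := measure_univ (μ := PP μ)
  rw [hfalse] at this
  simp at this

/-! ### from spin configurations to T-joins -/

private theorem xor_cancel {b x y : Bool} (h : xor b x = xor b y) : x = y := by
  revert h; cases b <;> cases x <;> cases y <;> simp

private theorem bxc {N X Y : Ed → Bool} (h : bx N X = bx N Y) : X = Y :=
  funext fun e => xor_cancel (congrFun h e)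

private theorem cut_not (s : Vx → Bool) : cut (fun v => !(s v)) = cut s := by
  funext e
  show xor (!(s (pa e))) (!(s (pb e))) = xor (s (pa e)) (s (pb e))
  cases s (pa e) <;> cases s (pb e) <;> rfl

private theorem GJ_eq {J : Ed → ℝ} (hJ : ∀ e, J e ≠ 0) :
    GJ J = (fun s => bx (ng J) (cut s)) '' {s | s ∈ WG pa pb hlf2 J ∧ s 0 = false} := by
  ext U
  rw [mem_GJ_iff hJ]
  constructor
  · rintro ⟨s, h1, h2⟩
    by_cases hs : s 0 = false
    · exact ⟨s, ⟨h2, hs⟩, h1.symm⟩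
    · refine ⟨fun v => !(s v), ⟨?_, ?_⟩, ?_⟩
      · exact WGS.near h2 (near_not s)
      · simpa using hs
      · show bx (ng J) (cut fun v => !(s v)) = U
        rw [cut_not, h1]
  · rintro ⟨s, ⟨h1, _⟩, h2⟩
    exact ⟨s, h2.symm, h1⟩

private theorem injOn_cut (J : Ed → ℝ) :
    Set.InjOn (fun s => bx (ng J) (cut s)) {s | s ∈ WG pa pb hlf2 J ∧ s 0 = false} := by
  rintro s ⟨_, hs⟩ t ⟨_, ht⟩ h
  have h1 : cut s = cut t := bxc h
  rcases cut_eq_iff.1 h1 with h2 | h2
  · exact h2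
  · exfalso
    have h3 : s 0 = !(t 0) := congrFun h2 0
    rw [hs, ht] at h3
    exact absurd h3 (by simp)

private theorem ncard_WG {J : Ed → ℝ} (hJ : ∀ e, J e ≠ 0) (hfin : J ∈ FinWG pa pb hlf2) :
    (WG pa pb hlf2 J).ncard = 2 * (GJ J).ncard := by
  have hf : (WG pa pb hlf2 J).Finite := hfin
  set W0 : Set (Vx → Bool) := {s | s ∈ WG pa pb hlf2 J ∧ s 0 = false} with hW0
  set W1 : Set (Vx → Bool) := {s | s ∈ WG pa pb hlf2 J ∧ s 0 = true} with hW1
  have h1 : (GJ J).ncard = W0.ncard := by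
    rw [GJ_eq hJ, Set.InjOn.ncard_image (injOn_cut J)]
  have h2 : W1 = (fun s : Vx → Bool => fun v => !(s v)) '' W0 := by
    ext s
    constructor
    · rintro ⟨h3, h4⟩
      refine ⟨fun v => !(s v), ⟨WGS.near h3 (near_not s), by simp [h4]⟩, ?_⟩
      funext v
      simp
    · rintro ⟨t, ⟨h3, h4⟩, rfl⟩
      exact ⟨WGS.near h3 (near_not t), by simp [h4]⟩
  have h3 : W1.ncard = W0.ncard := by
    rw [h2]
    apply Set.ncard_image_of_injective
    intro s t h
    funext v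
    have := congrFun h v
    simpa using this
  have h4 : WG pa pb hlf2 J = W0 ∪ W1 := by
    ext s
    simp only [hW0, hW1, mem_union, mem_ofPred_eq]
    constructor
    · intro h
      cases h0 : s 0
      · exact Or.inl ⟨h, rfl⟩
      · exact Or.inr ⟨h, rfl⟩
    · rintro (h | h)
      · exact h.1
      · exact h.1
  have h5 : Disjoint W0 W1 := by
    rw [Set.disjoint_left]
    rintro s ⟨_, h6⟩ ⟨_, h7⟩
    rw [h6] at h7
    exact absurd h7 (by simp)
  rw [h4, Set.ncard_union_eq h5 (hf.subset fun s hs => hs.1) (hf.subset fun s hs => hs.1), h1, h3]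
  ring

theorem ae_nice_or (μ : Measure ℝ) [IsProbabilityMeasure μ] (hμ : ∀ x : ℝ, μ {x} = 0) :
    (∀ᵐ J ∂(PP μ), (GJ J).Infinite) ∨ ∃ k : ℕ, 1 ≤ k ∧ ∀ᵐ J ∂(PP μ), Nice k J := by
  have : NullSingletonClass μ := ⟨hμ⟩
  have hb := ae_basic μ hμ
  rcases ae_finWG (hlf := hlf2) μ hmove2 with hinf | hfin
  · left
    filter_upwards [hb, hinf] with J h1 h2 h3
    apply h2
    show (WG pa pb hlf2 J).Finite
    have h4 : {s | s ∈ WG pa pb hlf2 J ∧ s 0 = false}.Finite := by
      rw [GJ_eq h1.1] at h3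
      exact Set.Finite.of_finite_image h3 (injOn_cut J)
    have h5 : WG pa pb hlf2 J ⊆ {s | s ∈ WG pa pb hlf2 J ∧ s 0 = false} ∪
        (fun s : Vx → Bool => fun v => !(s v)) '' {s | s ∈ WG pa pb hlf2 J ∧ s 0 = false} := by
      intro s hs
      cases h0 : s 0
      · exact Or.inl ⟨hs, h0⟩
      · right
        refine ⟨fun v => !(s v), ⟨WGS.near hs (near_not s), by simp [h0]⟩, ?_⟩
        funext v
        simp
    exact (h4.union (h4.image _)).subset h5
  · right
    obtain ⟨n, hn⟩ := ae_ncard μ hfin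
    have hib := ae_infinite_barrier (hlf := hlf2) μ hmove2
    have hall : ∀ᵐ J ∂(PP μ), Nice (n / 2) J ∧ (GJ J).Nonempty := by
      filter_upwards [hb, hfin, hn, hib] with J h1 h2 h3 h4
      have h5 := ncard_WG h1.1 h2
      have hGfin : (GJ J).Finite := by
        rw [GJ_eq h1.1]
        have h6 : (WG pa pb hlf2 J).Finite := h2
        exact (h6.subset fun s hs => hs.1).image _
      refine ⟨⟨hGfin, by omega, h1.1, h1.2, ?_⟩, ?_⟩
      · intro U hU U' hU' hne K hK
        obtain ⟨s, hs1, hs2⟩ := (mem_GJ_iff h1.1 U).1 hU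
        obtain ⟨t, ht1, ht2⟩ := (mem_GJ_iff h1.1 U').1 hU'
        have hst : ∃ e, status pa pb s e ≠ status pa pb t e := by
          by_contra hcon
          push Not at hcon
          apply hne
          rw [hs1, ht1]
          congr 1
          funext e
          have := hcon e
          revert this
          unfold cut status
          cases s (pa e) <;> cases s (pb e) <;> cases t (pa e) <;> cases t (pb e) <;> simp
        rw [hs1, ht1, reach_iff h1.1] at hK
        exact h4 h2 s t hs2 ht2 hst K hK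
      · obtain ⟨σ, hσ⟩ := exists_WGS pa pb hlf2 J
        exact ⟨_, (mem_GJ_iff h1.1 _).2 ⟨σ, rfl, hσ⟩⟩
    refine ⟨n / 2, ?_, hall.mono fun J hJ => hJ.1⟩
    obtain ⟨J, hJ1, hJ2⟩ := hall.exists
    rw [← hJ1.card]
    exact (Set.ncard_pos hJ1.fin).2 hJ2

end Pool.Agent.Helper60.TJ
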