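import Mathlib

set_option autoImplicit false

/-!
# Ground states of the Edwards-Anderson model on `ℤ²` as locally minimal T-joins

Definitions only. Edge sets are functions `Ed → Bool`; finite edge sets are `Finset Ed`.
-/

namespace Pool.Agent.Helper60.TJ

open MeasureTheory

/-- Vertices of `ℤ²`; also plaquettes (vertices of the dual lattice): the plaquette `v` has lower left
corner `v`. -/
abbrev Vx := ℤ × ℤ

/-- Edges: `(x, false)` joins the vertices `x` and `x + (1,0)`, `(x, true)` joins `x` and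
`x + (0,1)`. -/
abbrev Ed := Vx × Bool

/-- first end point of an edge in `ℤ²` -/
def pa (e : Ed) : Vx := e.1

/-- second end point of an edge in `ℤ²` -/
def pb (e : Ed) : Vx := if e.2 then (e.1.1, e.1.2 + 1) else (e.1.1 + 1, e.1.2)

/-- directions in the dual lattice: 0 east, 1 north, 2 west, 3 south -/
abbrev Dir := Fin 4

/-- unit steps -/
def stp : Dir → Vx := ![(1, 0), (0, 1), (-1, 0), (0, -1)]

/-- the opposite direction -/
def opp (d : Dir) : Dir := d + 2

/-- the (dual) edge which leaves the plaquette `v` in direction `d` -/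
def edg (v : Vx) : Dir → Ed :=
  ![((v.1 + 1, v.2), true), ((v.1, v.2 + 1), false), (v, true), (v, false)]

/-- parity of the number of elements of the edge set `X` around the plaquette `v` -/
def par (X : Ed → Bool) (v : Vx) : Bool :=
  xor (xor (X (edg v 0)) (X (edg v 1))) (xor (X (edg v 2)) (X (edg v 3)))

/-- indicator of a finite edge set -/
def ind (X : Finset Ed) : Ed → Bool := fun e => decide (e ∈ X)

/-- indicator of a plaquette -/
def dl (x : Vx) : Vx → Bool := fun v => decide (v = x)

/-- symmetric difference of edge sets -/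
def bx (U X : Ed → Bool) : Ed → Bool := fun e => xor (U e) (X e)

/-- symmetric difference of sets of plaquettes -/
def vx (S T : Vx → Bool) : Vx → Bool := fun v => xor (S v) (T v)

/-- finite even edge sets (cycles) -/
def IsCyc (X : Finset Ed) : Prop := ∀ v, par (ind X) v = false

/-- sign -/
def sg (b : Bool) : ℝ := if b then -1 else 1

/-- cost of flipping the finite edge set `X` in `U` -/
noncomputable def en (w : Ed → ℝ) (U : Ed → Bool) (X : Finset Ed) : ℝ :=
  ∑ e ∈ X, w e * sg (U e)

/-- total weight of a finite edge set -/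
noncomputable def tw (w : Ed → ℝ) (X : Finset Ed) : ℝ := ∑ e ∈ X, w e

/-- locally minimal `T`-joins for the weights `w` -/
def GS (w : Ed → ℝ) (T : Vx → Bool) : Set (Ed → Bool) :=
  {U | (∀ v, par U v = T v) ∧ ∀ C : Finset Ed, IsCyc C → 0 ≤ en w U C}

/-- `U'` can be reached from `U` at cost at most `K` -/
def Reach (w : Ed → ℝ) (U U' : Ed → Bool) (K : ℝ) : Prop :=
  ∀ F : Finset Ed, ∃ X : Finset Ed, IsCyc X ∧ (∀ e ∈ F, bx U (ind X) e = U' e) ∧ en w U X ≤ K

/-- infinite barriers -/
def IB (w : Ed → ℝ) (T : Vx → Bool) : Prop :=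
  ∀ U ∈ GS w T, ∀ U' ∈ GS w T, U ≠ U' → ∀ K : ℝ, ¬ Reach w U U' K

/-- no ties -/
def NT (w : Ed → ℝ) : Prop := ∀ C : Finset Ed, C.Nonempty → ∀ U : Ed → Bool, en w U C ≠ 0

/-- weights of the couplings -/
def wt (J : Ed → ℝ) : Ed → ℝ := fun e => |J e|

/-- negative couplings -/
noncomputable def ng (J : Ed → ℝ) : Ed → Bool := fun e => decide (J e < 0)

/-- frustrated plaquettes -/
noncomputable def fr (J : Ed → ℝ) : Vx → Bool := par (ng J)

/-- the locally minimal T-joins of the couplings `J` (= pairs of ground states of `J`) -/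
noncomputable def GJ (J : Ed → ℝ) : Set (Ed → Bool) := GS (wt J) (fr J)

/-- flip the signs of the couplings in the edge set `D` -/
noncomputable def flp (D : Ed → Bool) (J : Ed → ℝ) : Ed → ℝ := fun e => if D e then - J e else J e

/-- translates -/
def sh {α : Type*} (u : Vx) (X : Ed → α) : Ed → α := fun e => X (e.1 + u, e.2)

/-- the law of the couplings -/
noncomputable abbrev PP (μ : Measure ℝ) : Measure (Ed → ℝ) := Measure.infinitePi fun _ : Ed => μ

/-- couplings with exactly `k` locally minimal T-joins, infinite barriers between them, no ties -/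
structure Nice (k : ℕ) (J : Ed → ℝ) : Prop where
  fin : (GJ J).Finite
  card : (GJ J).ncard = k
  nz : ∀ e, J e ≠ 0
  nt : NT (wt J)
  ib : IB (wt J) (fr J)

/-- couplings together with two T-joins -/
abbrev XX := (Ed → ℝ) × (Ed → Bool) × (Ed → Bool)

/-- translates -/
def shX (u : Vx) (p : XX) : XX := (sh u p.1, sh u p.2.1, sh u p.2.2)

/-- the wall between the two T-joins -/
def wl (p : XX) : Ed → Bool := bx p.2.1 p.2.2

/-- change of one coupling -/
noncomputable def upd (J : Ed → ℝ) (e : Ed) (x : ℝ) : Ed → ℝ := Function.update J e x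

/-- pairs (point, new coupling at `e`) for which both T-joins survive -/
def Srv (e : Ed) : Set (XX × ℝ) :=
  {q | q.1.2.1 ∈ GJ (upd q.1.1 e q.2) ∧ q.1.2.2 ∈ GJ (upd q.1.1 e q.2)}

/-- change of one coupling -/
noncomputable def updX (e : Ed) (q : XX × ℝ) : XX := (upd q.1.1 e q.2, q.1.2.1, q.1.2.2)

/-- `Q` is (law of the couplings) × (counting measure on ordered pairs of distinct T-joins). -/
structure IsQ (μ : Measure ℝ) (k : ℕ) (Q : Measure XX) : Prop where
  univ_eq : Q Set.univ = (k * (k - 1) : ℕ)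
  nice : ∀ᵐ p ∂Q, Nice k p.1 ∧ p.2.1 ∈ GJ p.1 ∧ p.2.2 ∈ GJ p.1 ∧ p.2.1 ≠ p.2.2
  inv : ∀ u : Vx, MeasurePreserving (shX u) Q Q
  res : ∀ e : Ed, ((Q.prod μ).restrict (Srv e)).map (updX e) ≤ Q
  ae_all : ∀ D : Set XX, MeasurableSet D → Q D = 0 →
    ∀ᵐ J ∂(PP μ), ∀ U ∈ GJ J, ∀ U' ∈ GJ J, U ≠ U' → (J, U, U') ∉ D
  fst_le : ∀ R : Set (Ed → ℝ), Q (Prod.fst ⁻¹' R) ≤ (k * k : ℕ) * PP μ R
  ex_le : ∀ D : Set XX, MeasurableSet D →
    PP μ {J | ∃ U ∈ GJ J, ∃ U' ∈ GJ J, U ≠ U' ∧ (J, U, U') ∈ D} ≤ Q D

/-- `v` and `v'` are connected inside the edge set `W` -/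
def Cn (W : Ed → Bool) (v v' : Vx) : Prop :=
  ∃ X : Finset Ed, (∀ e ∈ X, W e = true) ∧ par (ind X) = vx (dl v) (dl v')

/-- `v` is a vertex of `W` -/
def OnW (W : Ed → Bool) (v : Vx) : Prop := ∃ d, W (edg v d) = true

/-- `A` is a union of components of `W` -/
def Sat (W A : Ed → Bool) : Prop :=
  (∀ e, A e = true → W e = true) ∧
    ∀ v d d', W (edg v d) = true → W (edg v d') = true → A (edg v d) = A (edg v d')

/-- every vertex of `W` has degree two -/
def Deg2 (W : Ed → Bool) : Prop :=
  (∀ v, par W v = false) ∧ ∀ v, ∃ d, W (edg v d) = false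

/-- every component of `W` is joined to `x` by an edge set of weight at most `M` -/
def Near (w : Ed → ℝ) (W : Ed → Bool) (x : Vx) (M : ℝ) : Prop :=
  ∀ v, OnW W v → ∃ v', Cn W v v' ∧ ∃ R : Finset Ed, par (ind R) = vx (dl x) (dl v') ∧ tw w R ≤ M

/-- box of plaquettes -/
noncomputable def box (L : ℕ) : Finset Vx := Finset.Icc (-(L : ℤ)) L ×ˢ Finset.Icc (-(L : ℤ)) L

/-- first dual end point -/
def da (e : Ed) : Vx := e.1

/-- second dual end point -/
def db (e : Ed) : Vx := if e.2 then (e.1.1 - 1, e.1.2) else (e.1.1, e.1.2 - 1)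

/-- boundary of the box -/
def onB (L : ℕ) (v : Vx) : Prop := v.1 = L ∨ v.1 = -L ∨ v.2 = L ∨ v.2 = -L

instance (L : ℕ) (v : Vx) : Decidable (onB L v) := by unfold onB; infer_instance

/-- edges with both end points in the box -/
noncomputable def ebox (L : ℕ) : Finset Ed :=
  (box L ×ˢ (Finset.univ : Finset Bool)).filter fun e => db e ∈ box L

/-- edges of the box with both end points on its boundary -/
noncomputable def circ (L : ℕ) : Finset Ed :=
  (ebox L).filter fun e => onB L (da e) ∧ onB L (db e)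

/-- a point of the wall space: a point of `XX` and an outgoing wall direction at the origin -/
abbrev YY := XX × Dir

/-- next direction at the vertex `v` of `W` after arriving with direction `d` -/
def nxt (W : Ed → Bool) (v : Vx) (d : Dir) : Dir :=
  if W (edg v d) then d else if W (edg v (d + 1)) then d + 1 else d + 3

/-- the other wall direction at `v` -/
def oth (W : Ed → Bool) (v : Vx) (d : Dir) : Dir := nxt W v (d + 2)

/-- one step along the wall -/
def Th (y : YY) : YY :=
  (shX (stp y.2) y.1, nxt (wl (shX (stp y.2) y.1)) 0 y.2)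

/-- reversal -/
def rv (y : YY) : YY := (y.1, oth (wl y.1) 0 y.2)

/-- position after `n` steps -/
def pos (y : YY) : ℕ → Vx
  | 0 => 0
  | n + 1 => pos y n + stp ((Th^[n] y).2)

/-- signed weight of the outgoing edge -/
noncomputable def xv (y : YY) : ℝ := |y.1.1 (edg 0 y.2)| * sg (y.1.2.1 (edg 0 y.2))

/-- energy of the first `n` wall edges -/
noncomputable def Vn (n : ℕ) (y : YY) : ℝ := ∑ i ∈ Finset.range n, xv (Th^[i] y)

/-- measure on the wall space -/
noncomputable def nuM (Q : Measure XX) : Measure YY :=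
  ∑ d : Dir, (Q.restrict {p | wl p (edg 0 d) = true}).map (fun p => (p, d))

end Pool.Agent.Helper60.TJ
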