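import Pool.Agent.Helper60.TJ.F2

set_option autoImplicit false

/-! TJ-G1: no eigenfunctions of the walk along the walls. -/

namespace Pool.Agent.Helper60.TJ

open MeasureTheory Filter Topology
open scoped symmDiff

namespace G1

/-! ### flexibility -/

/-- cycles through `e` have a cost bounded below -/
theorem cost_pos {w : Ed → ℝ} {T : Vx → Bool} (hIB : IB w T) {U : Ed → Bool}
    (hU : U ∈ GS w T) (e : Ed) :
    ∃ δ : ℝ, 0 < δ ∧ ∀ C : Finset Ed, IsCyc C → e ∈ C → δ ≤ en w U C := by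
  classical
  by_contra hcon
  push Not at hcon
  choose C hC hCe hCn using fun n : ℕ => hcon (1 / ((n : ℝ) + 1)) (by positivity)
  let 𝒰 : Ultrafilter ℕ := Filter.hyperfilter ℕ
  let V : Ed → Bool := fun f => decide (∀ᶠ n in (𝒰 : Filter ℕ), bx U (ind (C n)) f = true)
  have h1 : ∀ f, ∀ᶠ n in (𝒰 : Filter ℕ), bx U (ind (C n)) f = V f := by
    intro f
    by_cases h : ∀ᶠ n in (𝒰 : Filter ℕ), bx U (ind (C n)) f = true
    · simp only [V, h, decide_true]
    · have h' := (Ultrafilter.eventually_not (f := 𝒰)).2 h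
      simp only [V, h, decide_false]
      filter_upwards [h'] with n hn
      simpa using hn
  have key : ∀ (F : Finset Ed) (δ : ℝ), 0 < δ →
      ∃ n, en w U (C n) ≤ δ ∧ ∀ f ∈ F, bx U (ind (C n)) f = V f := by
    intro F δ hδ
    have h2 : ∀ᶠ n in (𝒰 : Filter ℕ), ∀ f ∈ F, bx U (ind (C n)) f = V f := by
      rw [Filter.eventually_all_finset]
      intro f _
      exact h1 f
    have h3 : ∀ᶠ n : ℕ in (𝒰 : Filter ℕ), 1 / ((n : ℝ) + 1) ≤ δ := by
      have h4 : ∀ᶠ n : ℕ in Filter.atTop, 1 / ((n : ℝ) + 1) ≤ δ := by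
        have := tendsto_one_div_add_atTop_nhds_zero_nat (𝕜 := ℝ)
        exact (this.eventually (Iio_mem_nhds hδ)).mono fun n hn => le_of_lt hn
      exact (Nat.hyperfilter_le_atTop) h4
    obtain ⟨n, hn, hn'⟩ := (h2.and h3).exists
    exact ⟨n, (hCn n).le.trans hn', hn⟩
  have hVT : V ∈ GS w T := by
    constructor
    · intro v
      obtain ⟨n, -, hn⟩ := key (Finset.univ.image (edg v)) 1 one_pos
      have h1 : par V v = par (bx U (ind (C n))) v := by
        unfold par
        rw [hn (edg v 0) (by simp), hn (edg v 1) (by simp), hn (edg v 2) (by simp),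
          hn (edg v 3) (by simp)]
      rw [h1, par_bx, hU.1 v, hC n v]
      simp
    · intro Y hY
      refine le_of_forall_pos_le_add fun δ hδ => ?_
      obtain ⟨n, hn1, hn⟩ := key Y δ hδ
      have h4 : en w V Y = en w U (C n ∆ Y) - en w U (C n) := by
        rw [en_symmDiff, en_congr hn]
        ring
      have h2 := hU.2 _ ((hC n).symmDiff hY)
      linarith
  have hne : U ≠ V := by
    intro h
    obtain ⟨n, -, hn⟩ := key {e} 1 one_pos
    have h5 := hn e (by simp)
    rw [← h] at h5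
    unfold bx at h5
    rw [ind_eq_true.2 (hCe n)] at h5
    simp at h5
  exact hIB U hU V hVT hne 1 fun F => by
    obtain ⟨n, hn1, hn⟩ := key F 1 one_pos
    exact ⟨C n, hC n, hn, hn1⟩

theorem upd_self (J : Ed → ℝ) (e : Ed) (x : ℝ) : upd J e x e = x := by
  unfold upd
  exact Function.update_self _ _ _

theorem upd_ne (J : Ed → ℝ) {e f : Ed} (h : f ≠ e) (x : ℝ) : upd J e x f = J f := by
  unfold upd
  exact Function.update_of_ne h _ _

theorem en_upd (J : Ed → ℝ) (e : Ed) (x : ℝ) (U : Ed → Bool) (C : Finset Ed) :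
    en (wt (upd J e x)) U C = en (wt J) U C + if e ∈ C then (|x| - |J e|) * sg (U e) else 0 := by
  classical
  have h : en (wt (upd J e x)) U C - en (wt J) U C =
      ∑ f ∈ C, if f = e then (|x| - |J e|) * sg (U e) else 0 := by
    unfold en
    rw [← Finset.sum_sub_distrib]
    refine Finset.sum_congr rfl fun f _ => ?_
    by_cases hf : f = e
    · subst hf
      rw [if_pos rfl, wt, upd_self, wt]
      ring
    · rw [if_neg hf, wt, upd_ne J hf, wt]
      ring
  rw [Finset.sum_ite_eq'] at h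
  linarith

theorem ng_upd {J : Ed → ℝ} {e : Ed} {x : ℝ} (h : |x - J e| < |J e|) :
    ng (upd J e x) = ng J := by
  funext f
  unfold ng
  by_cases hf : f = e
  · subst hf
    rw [upd_self, decide_eq_decide]
    rcases lt_or_ge (J f) 0 with h1 | h1
    · rw [abs_of_neg h1, abs_lt] at h
      exact ⟨fun _ => h1, fun _ => by linarith⟩
    · rw [abs_of_nonneg h1, abs_lt] at h
      exact ⟨fun h2 => by linarith, fun h2 => by linarith⟩
  · rw [upd_ne J hf]

end G1

open G1

/-- both T-joins survive a small change of one coupling -/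
theorem flex {J : Ed → ℝ} {k : ℕ} (hJ : Nice k J) (e : Ed) :
    ∃ δ : ℝ, 0 < δ ∧ ∀ x : ℝ, |x - J e| < δ → ∀ U ∈ GJ J, U ∈ GJ (upd J e x) := by
  classical
  have h1 : ∃ δ : ℝ, 0 < δ ∧ ∀ U ∈ GJ J, ∀ C : Finset Ed, IsCyc C → e ∈ C →
      δ ≤ en (wt J) U C := by
    have h0 : ∀ U ∈ GJ J, ∃ δ : ℝ, 0 < δ ∧ ∀ C : Finset Ed, IsCyc C → e ∈ C →
        δ ≤ en (wt J) U C := fun U hU => cost_pos hJ.ib hU e
    choose! f hf using h0
    by_cases hne : (GJ J).Nonempty
    · obtain ⟨U0, hU0, hmin⟩ := Set.exists_min_image (GJ J) f hJ.fin hne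
      exact ⟨f U0, (hf U0 hU0).1, fun U hU C hC he => (hmin U hU).trans ((hf U hU).2 C hC he)⟩
    · exact ⟨1, one_pos, fun U hU => absurd ⟨U, hU⟩ hne⟩
  obtain ⟨δ, hδ, h2⟩ := h1
  refine ⟨min δ |J e|, lt_min hδ (abs_pos.2 (hJ.nz e)), fun x hx U hU => ?_⟩
  have hx1 : |x - J e| < δ := hx.trans_le (min_le_left _ _)
  have hx2 : |x - J e| < |J e| := hx.trans_le (min_le_right _ _)
  refine ⟨fun v => ?_, fun C hC => ?_⟩
  · unfold fr
    rw [ng_upd hx2]
    exact hU.1 v
  · rw [en_upd]
    by_cases he : e ∈ C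
    · rw [if_pos he]
      have h3 := h2 U hU C hC he
      have h4 : |(|x| - |J e|) * sg (U e)| ≤ |x - J e| := by
        rw [abs_mul, abs_sg, mul_one]
        exact abs_abs_sub_abs_le_abs_sub x (J e)
      have h5 := neg_abs_le ((|x| - |J e|) * sg (U e))
      linarith
    · rw [if_neg he, add_zero]
      exact hU.2 C hC


namespace G1

/-! ### twins -/

/-- `y'` differs from `y` only by the coupling at `e` -/
def Tw (e : Ed) (y y' : YY) : Prop :=
  y'.2 = y.2 ∧ y'.1.2 = y.1.2 ∧ ∀ f, f ≠ e → y'.1.1 f = y.1.1 f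

theorem Tw.wl {e : Ed} {y y' : YY} (h : Tw e y y') : wl y'.1 = wl y.1 := by
  unfold TJ.wl
  rw [h.2.1]

theorem Tw.iter {e : Ed} {y y' : YY} (h : Tw e y y') (n : ℕ) :
    pos y' n = pos y n ∧ (Th^[n] y').2 = (Th^[n] y).2 := by
  induction n with
  | zero => exact ⟨rfl, h.1⟩
  | succ n ih =>
    obtain ⟨ih1, ih2⟩ := ih
    have hp : pos y' (n + 1) = pos y (n + 1) := by
      simp only [pos]
      rw [ih1, ih2]
    refine ⟨hp, ?_⟩
    rw [Function.iterate_succ_apply', Function.iterate_succ_apply']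
    show nxt (TJ.wl (shX (stp (Th^[n] y').2) (Th^[n] y').1)) 0 (Th^[n] y').2
      = nxt (TJ.wl (shX (stp (Th^[n] y).2) (Th^[n] y).1)) 0 (Th^[n] y).2
    rw [ih2]
    congr 1
    rw [wl_shX, wl_shX, th_iterate_fst, th_iterate_fst, wl_shX, wl_shX, ih1, h.wl]

theorem Tw.wedge {e : Ed} {y y' : YY} (h : Tw e y y') (n : ℕ) : wedge y' n = wedge y n := by
  unfold TJ.wedge
  rw [(h.iter n).1, (h.iter n).2]

theorem xv_iter (y : YY) (n : ℕ) :
    xv (Th^[n] y) = |y.1.1 (wedge y n)| * sg (y.1.2.1 (wedge y n)) := by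
  unfold xv
  rw [th_iterate_fst]
  show |sh (pos y n) y.1.1 (edg 0 (Th^[n] y).2)| * sg (sh (pos y n) y.1.2.1 (edg 0 (Th^[n] y).2)) = _
  rw [sh_edg, sh_edg, zero_add]
  rfl

theorem Tw.xv {e : Ed} {y y' : YY} (h : Tw e y y') (n : ℕ) (hn : TJ.wedge y n ≠ e) :
    xv (Th^[n] y') = xv (Th^[n] y) := by
  rw [xv_iter, xv_iter, h.wedge, h.2.2 _ hn, h.2.1]

/-! ### windows -/

/-- forget the couplings and the T-joins outside of the finite set `F` -/
noncomputable def tau (F : Finset Ed) (y : YY) : YY :=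
  ((fun f => if f ∈ F then y.1.1 f else 0, fun f => if f ∈ F then y.1.2.1 f else false,
    fun f => if f ∈ F then y.1.2.2 f else false), y.2)

theorem measurable_tau (F : Finset Ed) : Measurable (tau F) := by
  unfold tau
  have h1 : Measurable (fun y : YY => (fun f => if f ∈ F then y.1.1 f else 0 : Ed → ℝ)) := by
    refine measurable_pi_lambda _ fun f => ?_
    by_cases hf : f ∈ F
    · simp only [hf, if_true]
      exact (measurable_pi_apply f).comp (measurable_fst.comp measurable_fst)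
    · simp only [hf, if_false]
      exact measurable_const
  have h2 : Measurable (fun y : YY => (fun f => if f ∈ F then y.1.2.1 f else false : Ed → Bool)) := by
    refine measurable_pi_lambda _ fun f => ?_
    by_cases hf : f ∈ F
    · simp only [hf, if_true]
      exact (measurable_pi_apply f).comp (measurable_fst.comp (measurable_snd.comp measurable_fst))
    · simp only [hf, if_false]
      exact measurable_const
  have h3 : Measurable (fun y : YY => (fun f => if f ∈ F then y.1.2.2 f else false : Ed → Bool)) := by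
    refine measurable_pi_lambda _ fun f => ?_
    by_cases hf : f ∈ F
    · simp only [hf, if_true]
      exact (measurable_pi_apply f).comp (measurable_snd.comp (measurable_snd.comp measurable_fst))
    · simp only [hf, if_false]
      exact measurable_const
  exact (h1.prodMk (h2.prodMk h3)).prodMk measurable_snd

theorem tau_tau {F G : Finset Ed} (h : F ⊆ G) (y : YY) : tau F (tau G y) = tau F y := by
  unfold tau
  simp only
  congr 2
  · funext f
    by_cases hf : f ∈ F
    · simp [hf, h hf]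
    · simp [hf]
  · congr 1
    · funext f
      by_cases hf : f ∈ F
      · simp [hf, h hf]
      · simp [hf]
    · funext f
      by_cases hf : f ∈ F
      · simp [hf, h hf]
      · simp [hf]

theorem Tw.tau {e : Ed} {y y' : YY} (h : Tw e y y') {F : Finset Ed} {n : ℕ}
    (hF : ∀ f ∈ F, ((f.1 + pos y n, f.2) : Ed) ≠ e) : G1.tau F (Th^[n] y') = G1.tau F (Th^[n] y) := by
  have h1 := (h.iter n).1
  have h2 := (h.iter n).2
  unfold G1.tau
  rw [h2, th_iterate_fst, th_iterate_fst, h1]
  have e1 : (shX (pos y n) y'.1).2 = (shX (pos y n) y.1).2 := by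
    show (sh (pos y n) y'.1.2.1, sh (pos y n) y'.1.2.2) = (sh (pos y n) y.1.2.1, sh (pos y n) y.1.2.2)
    rw [h.2.1]
  rw [e1]
  congr 2
  funext f
  by_cases hf : f ∈ F
  · simp only [hf, if_true]
    exact h.2.2 _ (hF f hf)
  · simp only [hf, if_false]

/-- cylinder sets -/
def Cyl : Set (Set YY) := {A | ∃ F : Finset Ed, ∃ B : Set YY, MeasurableSet B ∧ A = tau F ⁻¹' B}

theorem isPiSystem_Cyl : IsPiSystem Cyl := by
  classical
  rintro _ ⟨F, B, hB, rfl⟩ _ ⟨G, C, hC, rfl⟩ _
  refine ⟨F ∪ G, tau F ⁻¹' B ∩ tau G ⁻¹' C, (measurable_tau F hB).inter (measurable_tau G hC), ?_⟩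
  ext y
  simp only [Set.mem_inter_iff, Set.mem_preimage]
  rw [tau_tau Finset.subset_union_left, tau_tau Finset.subset_union_right]

theorem measurable_of_tau {α : Type*} [MeasurableSpace α] (c : YY → α) (hc : Measurable c)
    (F : Finset Ed) (h : ∀ y, c (tau F y) = c y) : Measurable[MeasurableSpace.generateFrom Cyl] c := by
  intro B hB
  refine MeasurableSpace.measurableSet_generateFrom ⟨F, c ⁻¹' B, hc hB, ?_⟩
  ext y
  simp only [Set.mem_preimage]
  rw [h]

theorem gen_Cyl : (inferInstance : MeasurableSpace YY) = MeasurableSpace.generateFrom Cyl := by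
  apply le_antisymm
  · have h1 : Measurable[MeasurableSpace.generateFrom Cyl] (fun y : YY => y.1.1) := by
      refine @measurable_pi_lambda _ _ _ (MeasurableSpace.generateFrom Cyl) _ _ fun f => ?_
      refine measurable_of_tau (fun y : YY => y.1.1 f)
        ((measurable_pi_apply f).comp (measurable_fst.comp measurable_fst)) {f} fun y => ?_
      simp [tau]
    have h2 : Measurable[MeasurableSpace.generateFrom Cyl] (fun y : YY => y.1.2.1) := by
      refine @measurable_pi_lambda _ _ _ (MeasurableSpace.generateFrom Cyl) _ _ fun f => ?_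
      refine measurable_of_tau (fun y : YY => y.1.2.1 f)
        ((measurable_pi_apply f).comp (measurable_fst.comp (measurable_snd.comp measurable_fst)))
        {f} fun y => ?_
      simp [tau]
    have h3 : Measurable[MeasurableSpace.generateFrom Cyl] (fun y : YY => y.1.2.2) := by
      refine @measurable_pi_lambda _ _ _ (MeasurableSpace.generateFrom Cyl) _ _ fun f => ?_
      refine measurable_of_tau (fun y : YY => y.1.2.2 f)
        ((measurable_pi_apply f).comp (measurable_snd.comp (measurable_snd.comp measurable_fst)))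
        {f} fun y => ?_
      simp [tau]
    have h4 : Measurable[MeasurableSpace.generateFrom Cyl] (fun y : YY => y.2) :=
      measurable_of_tau (fun y : YY => y.2) measurable_snd ∅ fun y => rfl
    have h5 : Measurable[MeasurableSpace.generateFrom Cyl]
        (fun y : YY => (((y.1.1, y.1.2.1, y.1.2.2), y.2) : YY)) :=
      (h1.prodMk (h2.prodMk h3)).prodMk h4
    intro s hs
    exact h5 hs
  · apply MeasurableSpace.generateFrom_le
    rintro _ ⟨F, B, hB, rfl⟩
    exact measurable_tau F hB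

end G1


namespace G1

/-! ### convergence -/

theorem squeeze {a : ℕ → ENNReal} {b : ℕ → ℕ → ENNReal} {r : ℕ → ENNReal}
    (h : ∀ K n, a n ≤ b K n + r K) (hb : ∀ K, Tendsto (b K) atTop (𝓝 0))
    (hr : Tendsto r atTop (𝓝 0)) : Tendsto a atTop (𝓝 0) := by
  rw [ENNReal.tendsto_nhds_zero]
  intro ε hε
  have hε2 : 0 < ε / 2 := ENNReal.half_pos hε.ne'
  obtain ⟨K, hK⟩ := ((ENNReal.tendsto_nhds_zero.1 hr) (ε / 2) hε2).exists
  filter_upwards [(ENNReal.tendsto_nhds_zero.1 (hb K)) (ε / 2) hε2] with n hn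
  exact (h K n).trans ((add_le_add hn hK).trans (ENNReal.add_halves ε).le)

variable {Ω : Type*} [MeasurableSpace Ω]

/-- two random points of the wall space which differ only by the coupling at `e` -/
structure Cpl (M : Measure Ω) (ν : Measure YY) (e : Ed) (A B : Ω → YY) : Prop where
  mA : Measurable A
  mB : Measurable B
  lA : M.map A ≤ ν
  lB : M.map B ≤ ν
  tw : ∀ᵐ q ∂M, Tw e (A q) (B q)

variable {M : Measure Ω} {ν : Measure YY} {e : Ed} {A B : Ω → YY}

theorem law_le {A : Ω → YY} (mA : Measurable A) (lA : M.map A ≤ ν)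
    (hν : MeasurePreserving Th ν ν) (n : ℕ) {E : Set YY} (hE : MeasurableSet E) :
    M {q | Th^[n] (A q) ∈ E} ≤ ν E := by
  rw [← (hν.iterate n).measure_preimage hE.nullMeasurableSet]
  have h1 : M {q | Th^[n] (A q) ∈ E} = M.map A (Th^[n] ⁻¹' E) := by
    rw [Measure.map_apply mA ((measurable_Th.iterate n) hE)]
    rfl
  rw [h1]
  exact lA _

theorem law_ae {A : Ω → YY} (mA : Measurable A) (lA : M.map A ≤ ν) {P : YY → Prop}
    (hP : ∀ᵐ y ∂ν, P y) : ∀ᵐ q ∂M, P (A q) :=
  ae_of_ae_map mA.aemeasurable ((Measure.absolutelyContinuous_of_le lA).ae_le hP)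

theorem loc (h : Cpl M ν e A B) (hν : MeasurePreserving Th ν ν) [IsFiniteMeasure ν]
    (hpos : ∀ v : Vx, Tendsto (fun n => ν {y | pos y n = v}) atTop (𝓝 0)) :
    ∀ A0 : Set YY, MeasurableSet A0 →
      Tendsto (fun n => M {q | ¬(Th^[n] (A q) ∈ A0 ↔ Th^[n] (B q) ∈ A0)}) atTop (𝓝 0) := by
  refine MeasurableSpace.induction_on_inter
    (C := fun A0 _ => Tendsto (fun n => M {q | ¬(Th^[n] (A q) ∈ A0 ↔ Th^[n] (B q) ∈ A0)})
      atTop (𝓝 0)) gen_Cyl isPiSystem_Cyl ?_ ?_ ?_ ?_
  · simp
  · rintro _ ⟨F, C, hC, rfl⟩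
    have hsum : Tendsto (fun n => ∑ f ∈ F, ν {y | pos y n = e.1 - f.1}) atTop (𝓝 0) := by
      have := tendsto_finsetSum F fun f _ => hpos (e.1 - f.1)
      simpa using this
    refine tendsto_of_tendsto_of_tendsto_of_le_of_le tendsto_const_nhds hsum
      (fun _ => zero_le) fun n => ?_
    have hsub : {q | ¬(Th^[n] (A q) ∈ tau F ⁻¹' C ↔ Th^[n] (B q) ∈ tau F ⁻¹' C)} ⊆
        {q | ¬ Tw e (A q) (B q)} ∪ ⋃ f ∈ F, {q | pos (A q) n = e.1 - f.1} := by
      intro q hq
      by_cases ht : Tw e (A q) (B q)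
      · right
        by_contra hc
        simp only [Set.mem_iUnion, not_exists] at hc
        apply hq
        rw [Set.mem_preimage, Set.mem_preimage, ht.tau]
        intro f hf heq
        apply hc f hf
        have h2 : f.1 + pos (A q) n = e.1 := congrArg Prod.fst heq
        show pos (A q) n = e.1 - f.1
        rw [← h2, add_sub_cancel_left]
      · left
        exact ht
    refine (measure_mono hsub).trans ((measure_union_le _ _).trans ?_)
    have h0 : M {q | ¬ Tw e (A q) (B q)} = 0 := h.tw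
    rw [h0, zero_add]
    refine (measure_biUnion_finset_le _ _).trans (Finset.sum_le_sum fun f _ => ?_)
    have h1 : MeasurableSet {y : YY | pos y n = e.1 - f.1} :=
      (measurable_pos n) (measurableSet_singleton _)
    have h2 : M {q | pos (A q) n = e.1 - f.1} = M.map A {y : YY | pos y n = e.1 - f.1} := by
      rw [Measure.map_apply h.mA h1]
      rfl
    rw [h2]
    exact h.lA _
  · intro t ht ih
    have h1 : ∀ n, {q | ¬(Th^[n] (A q) ∈ tᶜ ↔ Th^[n] (B q) ∈ tᶜ)} =
        {q | ¬(Th^[n] (A q) ∈ t ↔ Th^[n] (B q) ∈ t)} := by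
      intro n
      ext q
      simp only [Set.mem_compl_iff, Set.mem_ofPred_eq, not_iff_not]
    simp only [h1]
    exact ih
  · intro f hd hfm ih
    refine squeeze (b := fun K n => ∑ i ∈ Finset.range K,
        M {q | ¬(Th^[n] (A q) ∈ f i ↔ Th^[n] (B q) ∈ f i)})
      (r := fun K => (∑' k, ν (f (k + K))) + ∑' k, ν (f (k + K))) ?_ ?_ ?_
    · intro K n
      have hmt : MeasurableSet (⋃ k, f (k + K)) := MeasurableSet.iUnion fun k => hfm _
      have hsub : {q | ¬(Th^[n] (A q) ∈ ⋃ i, f i ↔ Th^[n] (B q) ∈ ⋃ i, f i)} ⊆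
          (⋃ i ∈ Finset.range K, {q | ¬(Th^[n] (A q) ∈ f i ↔ Th^[n] (B q) ∈ f i)}) ∪
            ({q | Th^[n] (A q) ∈ ⋃ k, f (k + K)} ∪ {q | Th^[n] (B q) ∈ ⋃ k, f (k + K)}) := by
        intro q hq
        by_contra hc
        simp only [Set.mem_union, Set.mem_iUnion, Finset.mem_range, Set.mem_ofPred_eq, not_or,
          not_exists, not_not] at hc
        obtain ⟨c1, c2, c3⟩ := hc
        apply hq
        simp only [Set.mem_iUnion]
        constructor
        · rintro ⟨i, hi⟩
          rcases Nat.lt_or_ge i K with h1 | h1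
          · exact ⟨i, (c1 i h1).1 hi⟩
          · obtain ⟨k, rfl⟩ := Nat.exists_eq_add_of_le' h1
            exact absurd hi (c2 k)
        · rintro ⟨i, hi⟩
          rcases Nat.lt_or_ge i K with h1 | h1
          · exact ⟨i, (c1 i h1).2 hi⟩
          · obtain ⟨k, rfl⟩ := Nat.exists_eq_add_of_le' h1
            exact absurd hi (c3 k)
      refine (measure_mono hsub).trans ((measure_union_le _ _).trans (add_le_add ?_ ?_))
      · exact measure_biUnion_finset_le _ _
      · refine (measure_union_le _ _).trans (add_le_add ?_ ?_)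
        · exact (law_le h.mA h.lA hν n hmt).trans (measure_iUnion_le _)
        · exact (law_le h.mB h.lB hν n hmt).trans (measure_iUnion_le _)
    · intro K
      have := tendsto_finsetSum (Finset.range K) fun i _ => ih i
      simpa using this
    · have h1 : ∑' i, ν (f i) ≠ ⊤ := by
        refine ((tsum_measure_le_measure_univ (fun i => (hfm i).nullMeasurableSet)
          fun i j hij => (hd hij).aedisjoint).trans_lt (measure_lt_top ν _)).ne
      have h2 := ENNReal.tendsto_sum_nat_add (fun i => ν (f i)) h1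
      have h3 := h2.add h2
      simpa using h3

theorem conv (h : Cpl M ν e A B) (hν : MeasurePreserving Th ν ν) [IsFiniteMeasure ν]
    (hpos : ∀ v : Vx, Tendsto (fun n => ν {y | pos y n = v}) atTop (𝓝 0))
    {g : YY → ℂ} (hg : Measurable g) {ε : ℝ} (hε : 0 < ε) :
    Tendsto (fun n => M {q | ε ≤ ‖g (Th^[n] (A q)) - g (Th^[n] (B q))‖}) atTop (𝓝 0) := by
  set c := TopologicalSpace.denseSeq ℂ with hc
  have hA0 : ∀ j, MeasurableSet (g ⁻¹' Metric.ball (c j) (ε / 2)) := fun j =>
    hg Metric.isOpen_ball.measurableSet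
  set E : ℕ → Set YY := fun K => ⋂ j ∈ Finset.range K, (g ⁻¹' Metric.ball (c j) (ε / 2))ᶜ with hE
  have hEm : ∀ K, MeasurableSet (E K) := fun K =>
    Finset.measurableSet_biInter _ fun j _ => (hA0 j).compl
  refine squeeze (b := fun K n => ∑ j ∈ Finset.range K,
      M {q | ¬(Th^[n] (A q) ∈ g ⁻¹' Metric.ball (c j) (ε / 2) ↔
        Th^[n] (B q) ∈ g ⁻¹' Metric.ball (c j) (ε / 2))})
    (r := fun K => ν (E K)) ?_ ?_ ?_
  · intro K n
    have hsub : {q | ε ≤ ‖g (Th^[n] (A q)) - g (Th^[n] (B q))‖} ⊆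
        (⋃ j ∈ Finset.range K, {q | ¬(Th^[n] (A q) ∈ g ⁻¹' Metric.ball (c j) (ε / 2) ↔
          Th^[n] (B q) ∈ g ⁻¹' Metric.ball (c j) (ε / 2))}) ∪ {q | Th^[n] (A q) ∈ E K} := by
      intro q hq
      by_contra hcon
      simp only [Set.mem_union, Set.mem_iUnion, Set.mem_ofPred_eq, not_or, not_exists,
        not_not] at hcon
      obtain ⟨c1, c2⟩ := hcon
      have c3 : ∃ j ∈ Finset.range K, Th^[n] (A q) ∈ g ⁻¹' Metric.ball (c j) (ε / 2) := by
        by_contra h4
        push Not at h4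
        apply c2
        rw [hE]
        simp only [Set.mem_iInter, Set.mem_compl_iff]
        exact h4
      obtain ⟨j, hj, h5⟩ := c3
      have h6 := (c1 j hj).1 h5
      rw [Set.mem_preimage, Metric.mem_ball] at h5 h6
      have h7 := dist_triangle_right (g (Th^[n] (A q))) (g (Th^[n] (B q))) (c j)
      have hq' : ε ≤ dist (g (Th^[n] (A q))) (g (Th^[n] (B q))) := by
        rw [dist_eq_norm]
        exact hq
      linarith
    refine (measure_mono hsub).trans ((measure_union_le _ _).trans (add_le_add ?_ ?_))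
    · exact measure_biUnion_finset_le _ _
    · exact law_le h.mA h.lA hν n (hEm K)
  · intro K
    have := tendsto_finsetSum (Finset.range K) fun j _ => loc h hν hpos _ (hA0 j)
    simpa using this
  · have hanti : Antitone E := by
      intro K L hKL y hy
      rw [hE] at hy ⊢
      simp only [Set.mem_iInter, Finset.mem_range] at hy ⊢
      exact fun j hj => hy j (hj.trans_le hKL)
    have h1 := tendsto_measure_iInter_atTop (μ := ν) (fun K => (hEm K).nullMeasurableSet) hanti
      ⟨0, measure_ne_top ν _⟩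
    have h2 : ⋂ K, E K = ∅ := by
      rw [Set.eq_empty_iff_forall_notMem]
      intro y hy
      obtain ⟨j, hj⟩ := (TopologicalSpace.denseRange_denseSeq ℂ).exists_dist_lt (g y) (half_pos hε)
      have h3 := Set.mem_iInter.1 hy (j + 1)
      rw [hE] at h3
      simp only [Set.mem_iInter, Finset.mem_range, Set.mem_compl_iff] at h3
      exact h3 j (Nat.lt_succ_self j) hj
    rw [h2, measure_empty] at h1
    exact h1

theorem Vn_succ (n : ℕ) (y : YY) :
    Vn (n + 1) y = Vn n y + xv (Th^[n] y) := by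
  unfold Vn
  rw [Finset.sum_range_succ]

theorem eig_iter (hν : MeasurePreserving Th ν ν) {g : YY → ℂ} {l : ℝ}
    (heq : ∀ᵐ y ∂ν, Complex.exp (l * xv y * Complex.I) * g (Th y) = g y) :
    ∀ᵐ y ∂ν, ∀ n, Complex.exp (l * Vn n y * Complex.I) * g (Th^[n] y) = g y := by
  have h1 : ∀ᵐ y ∂ν, ∀ n, Complex.exp (l * xv (Th^[n] y) * Complex.I) * g (Th (Th^[n] y))
      = g (Th^[n] y) := by
    rw [ae_all_iff]
    intro n
    exact (hν.iterate n).quasiMeasurePreserving.ae heq
  filter_upwards [h1] with y hy n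
  induction n with
  | zero => simp [Vn]
  | succ n ih =>
    rw [Vn_succ, Function.iterate_succ_apply', ← ih, ← hy n, ← mul_assoc, ← Complex.exp_add]
    congr 2
    push_cast
    ring

theorem core (h : Cpl M ν e A B) (hν : MeasurePreserving Th ν ν) [IsFiniteMeasure ν]
    (hpos : ∀ v : Vx, Tendsto (fun n => ν {y | pos y n = v}) atTop (𝓝 0))
    {g : YY → ℂ} (hg : Measurable g) {l : ℝ}
    (heq : ∀ᵐ y ∂ν, Complex.exp (l * xv y * Complex.I) * g (Th y) = g y)
    (hw : ∀ᵐ q ∂M, ∀ n, TJ.wedge (A q) (n + 1) ≠ e) :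
    ∀ᵐ q ∂M, g (A q) = Complex.exp (-(l * (xv (B q) - xv (A q)) * Complex.I)) * g (B q) := by
  have h1 := eig_iter hν heq
  have hA := law_ae h.mA h.lA h1
  have hB := law_ae h.mB h.lB h1
  have key : ∀ᵐ q ∂M, ∀ n, ‖g (Th^[n + 1] (A q)) - g (Th^[n + 1] (B q))‖ =
      ‖g (A q) - Complex.exp (-(l * (xv (B q) - xv (A q)) * Complex.I)) * g (B q)‖ := by
    filter_upwards [hA, hB, hw, h.tw] with q hAq hBq hwq htq n
    have h2 : Vn (n + 1) (B q) = Vn (n + 1) (A q) + (xv (B q) - xv (A q)) := by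
      have h3 : ∀ i, xv (Th^[i + 1] (B q)) = xv (Th^[i + 1] (A q)) := fun i =>
        htq.xv (i + 1) (hwq i)
      unfold Vn
      rw [Finset.sum_range_succ', Finset.sum_range_succ']
      simp only [h3, Function.iterate_zero, id]
      ring
    have h4 : g (A q) - Complex.exp (-(l * (xv (B q) - xv (A q)) * Complex.I)) * g (B q) =
        Complex.exp (l * Vn (n + 1) (A q) * Complex.I) *
          (g (Th^[n + 1] (A q)) - g (Th^[n + 1] (B q))) := by
      have e3 : Complex.exp (-(l * (xv (B q) - xv (A q)) * Complex.I)) *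
          Complex.exp (l * Vn (n + 1) (B q) * Complex.I) =
          Complex.exp (l * Vn (n + 1) (A q) * Complex.I) := by
        rw [← Complex.exp_add, h2]
        congr 1
        push_cast
        ring
      linear_combination (-1 : ℂ) * hAq (n + 1) +
        Complex.exp (-(l * (xv (B q) - xv (A q)) * Complex.I)) * hBq (n + 1) -
        g (Th^[n + 1] (B q)) * e3
    rw [h4, norm_mul]
    have h5 : ‖Complex.exp (l * Vn (n + 1) (A q) * Complex.I)‖ = 1 := by
      rw [← Complex.ofReal_mul]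
      exact Complex.norm_exp_ofReal_mul_I _
    rw [h5, one_mul]
  have h6 : ∀ᵐ q ∂M, ∀ m : ℕ, ¬ (1 / ((m : ℝ) + 1) ≤
      ‖g (A q) - Complex.exp (-(l * (xv (B q) - xv (A q)) * Complex.I)) * g (B q)‖) := by
    rw [ae_all_iff]
    intro m
    rw [ae_iff]
    simp only [not_not]
    have h7 := (conv h hν hpos hg (ε := 1 / ((m : ℝ) + 1)) (by positivity)).comp
      (tendsto_add_atTop_nat 1)
    refine le_antisymm (ge_of_tendsto' h7 fun n => ?_) zero_le
    refine measure_mono_ae ?_
    filter_upwards [key] with q hq hq2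
    show 1 / ((m : ℝ) + 1) ≤ ‖g (Th^[n + 1] (A q)) - g (Th^[n + 1] (B q))‖
    rw [hq n]
    exact hq2
  filter_upwards [h6] with q hq
  rw [← sub_eq_zero, ← norm_eq_zero]
  by_contra hne
  have hpos' : 0 < ‖g (A q) - Complex.exp (-(l * (xv (B q) - xv (A q)) * Complex.I)) * g (B q)‖ :=
    lt_of_le_of_ne (norm_nonneg _) (Ne.symm hne)
  obtain ⟨m, hm⟩ := exists_nat_one_div_lt hpos'
  exact hq m hm.le

end G1


namespace G1

/-! ### reversal -/

theorem nxt_aux2 : ∀ (f : Fin 4 → Bool) (d : Fin 4),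
    xor (xor (f 0) (f 1)) (xor (f 2) (f 3)) = false → (∃ d, f d = false) → f (d + 2) = true →
    (f (if f d then d else if f (d + 1) then d + 1 else d + 3) = true ∧
      (if f d then d else if f (d + 1) then d + 1 else d + 3) ≠ d + 2 ∧
      ∀ d', f d' = true → d' ≠ d + 2 →
        d' = (if f d then d else if f (d + 1) then d + 1 else d + 3)) := by
  decide

theorem nxt_spec2 {W : Ed → Bool} (h : Deg2 W) {v : Vx} {d : Dir}
    (hd : W (edg v (opp d)) = true) :
    W (edg v (nxt W v d)) = true ∧ nxt W v d ≠ opp d ∧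
      ∀ d', W (edg v d') = true → d' ≠ opp d → d' = nxt W v d :=
  nxt_aux2 (fun d => W (edg v d)) d (h.1 v) (h.2 v) hd

theorem oth_spec2 {W : Ed → Bool} (h : Deg2 W) {v : Vx} {d : Dir}
    (hd : W (edg v d) = true) :
    W (edg v (oth W v d)) = true ∧ oth W v d ≠ d ∧
      ∀ d', W (edg v d') = true → d' ≠ d → d' = oth W v d := by
  have e : opp (d + 2) = d := opp_opp d
  have := nxt_spec2 h (v := v) (d := d + 2) (by rw [e]; exact hd)
  rw [e] at this
  exact this

theorem deg2_sh2 {W : Ed → Bool} (h : Deg2 W) (u : Vx) : Deg2 (sh u W) := by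
  refine ⟨fun v => ?_, fun v => ?_⟩
  · rw [par_sh]; exact h.1 _
  · obtain ⟨d, hd⟩ := h.2 (v + u)
    exact ⟨d, by rw [sh_edg]; exact hd⟩

theorem edg_eq2 {v v' : Vx} {d d' : Dir} (h : edg v d = edg v' d') :
    (v = v' ∧ d = d') ∨ (v' = v + stp d ∧ d' = opp d) := by
  obtain ⟨x, y⟩ := v
  obtain ⟨x', y'⟩ := v'
  fin_cases d <;> fin_cases d' <;> simp [edg, stp, opp] at h ⊢ <;> omega

/-- the reversed step uses the same edge -/
theorem xv_rv_Th {y : YY} (h : GY y) : xv (rv (Th y)) = xv y := by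
  obtain ⟨p, d⟩ := y
  obtain ⟨h1, h2, h3⟩ := h
  simp only at h1 h2
  have h1' := deg2_sh2 h1 (stp d)
  have har : sh (stp d) (wl p) (edg 0 (opp d)) = true := by
    rw [sh_edg, edg_opp]
    exact h2
  have b := nxt_spec2 h1' har
  have c := oth_spec2 h1' b.1
  have hd3 : oth (sh (stp d) (wl p)) 0 (nxt (sh (stp d) (wl p)) 0 d) = opp d :=
    (c.2.2 _ har b.2.1.symm).symm
  have e1 : ∀ d' : Dir, d' = opp d →
      |sh (stp d) p.1 (edg 0 d')| * sg (sh (stp d) p.2.1 (edg 0 d')) =
        |p.1 (edg 0 d)| * sg (p.2.1 (edg 0 d)) := by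
    rintro d' rfl
    rw [sh_edg, sh_edg, edg_opp]
  exact e1 _ hd3

theorem eig_rv {ν : Measure YY} (hTh : MeasurePreserving Th ν ν) (hrv : MeasurePreserving rv ν ν)
    (hGY : ∀ᵐ y ∂ν, GY y) {g : YY → ℂ} {l : ℝ}
    (heq : ∀ᵐ y ∂ν, Complex.exp (l * xv y * Complex.I) * g (Th y) = g y) :
    ∀ᵐ y ∂ν, Complex.exp ((-l : ℝ) * xv y * Complex.I) * g (rv (Th y)) = g (rv y) := by
  have h1 : ∀ᵐ y ∂ν, Complex.exp (l * xv (rv (Th y)) * Complex.I) * g (Th (rv (Th y)))
      = g (rv (Th y)) := (hrv.comp hTh).quasiMeasurePreserving.ae heq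
  filter_upwards [h1, hGY] with y hy hG
  have h2 : Th (rv (Th y)) = rv y := by
    have := th_inv hG.rv
    rwa [rv_rv hG] at this
  rw [xv_rv_Th hG, h2] at hy
  rw [← hy, ← mul_assoc, ← Complex.exp_add]
  have h3 : ((-l : ℝ) : ℂ) * xv y * Complex.I + l * xv y * Complex.I = 0 := by
    push_cast
    ring
  rw [h3, Complex.exp_zero, one_mul]

theorem Tw.rv {e : Ed} {y y' : YY} (h : Tw e y y') : Tw e (rv y) (rv y') := by
  refine ⟨?_, h.2.1, h.2.2⟩
  show oth (TJ.wl y'.1) 0 y'.2 = oth (TJ.wl y.1) 0 y.2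
  rw [h.wl, h.1]

theorem wedge_zero (y : YY) : wedge y 0 = edg 0 y.2 := rfl

theorem wedge_ne {y : YY} (h : GY y) (n : ℕ) : wedge y (n + 1) ≠ edg 0 y.2 := by
  rw [← wedge_zero]
  intro h1
  have := wedge_injective h h1
  omega

theorem wedge_rv_ne {y : YY} (h : GY y) (n : ℕ) : wedge (rv y) n ≠ edg 0 y.2 := by
  intro h1
  have hinj := pos_injective h.rv
  rcases edg_eq2 h1 with ⟨h2, h3⟩ | ⟨h2, h3⟩
  · have h4 : n = 0 := hinj (show pos (rv y) n = pos (rv y) 0 from h2)
    subst h4
    exact (oth_spec2 h.1 h.2.1).2.1 h3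
  · have h4 : n + 1 = 0 := hinj (show pos (rv y) (n + 1) = pos (rv y) 0 from h2.symm)
    omega

/-! ### measures -/

theorem pos_tend {ν : Measure YY} [IsFiniteMeasure ν] (hGY : ∀ᵐ y ∂ν, GY y) (v : Vx) :
    Tendsto (fun n => ν {y | pos y n = v}) atTop (𝓝 0) := by
  apply ENNReal.tendsto_atTop_zero_of_tsum_ne_top
  refine ((tsum_measure_le_measure_univ (fun n =>
    ((measurable_pos n) (measurableSet_singleton v)).nullMeasurableSet) ?_).trans_lt
    (measure_lt_top ν _)).ne
  intro m n hmn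
  refine measure_mono_null ?_ (show ν {y | ¬ GY y} = 0 from hGY)
  rintro y ⟨h1, h2⟩ hG
  exact hmn (pos_injective hG (Eq.trans h1 (Eq.symm h2)))

/-- the space of one resampled coupling -/
def Sd (d : Dir) : Set (XX × ℝ) := {q | wl q.1 (edg 0 d) = true} ∩ Srv (edg 0 d)

theorem nu_le (Q : Measure XX) (d : Dir) :
    (Q.restrict {p | wl p (edg 0 d) = true}).map (fun p => ((p, d) : YY)) ≤ nuM Q := by
  rw [Measure.le_iff']
  intro s
  unfold nuM
  rw [Measure.finsetSum_apply]
  exact Finset.single_le_sum (f := fun d : Dir =>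
    ((Q.restrict {p | wl p (edg 0 d) = true}).map (fun p => ((p, d) : YY))) s)
    (fun _ _ => zero_le) (Finset.mem_univ d)

theorem law1 {μ : Measure ℝ} [IsProbabilityMeasure μ] (Q : Measure XX) [SFinite Q] (d : Dir) :
    ((Q.prod μ).restrict (Sd d)).map (fun q : XX × ℝ => ((q.1, d) : YY)) ≤ nuM Q := by
  refine le_trans ?_ (nu_le Q d)
  rw [Measure.le_iff]
  intro s hs
  have m1 : Measurable (fun q : XX × ℝ => ((q.1, d) : YY)) := measurable_fst.prodMk measurable_const
  have m2 : Measurable (fun p : XX => ((p, d) : YY)) := measurable_id.prodMk measurable_const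
  have hw : MeasurableSet {p : XX | wl p (edg 0 d) = true} :=
    measurableSet_eq_fun ((measurable_pi_apply (edg 0 d)).comp measurable_wl) measurable_const
  rw [Measure.map_apply m1 hs, Measure.map_apply m2 hs, Measure.restrict_apply (m1 hs),
    Measure.restrict_apply (m2 hs)]
  have h1 : (fun q : XX × ℝ => ((q.1, d) : YY)) ⁻¹' s ∩ Sd d ⊆
      Prod.fst ⁻¹' ((fun p : XX => ((p, d) : YY)) ⁻¹' s ∩ {p | wl p (edg 0 d) = true}) :=
    fun q hq => ⟨hq.1, hq.2.1⟩
  refine (measure_mono h1).trans ?_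
  rw [measurePreserving_fst.measure_preimage ((m2 hs).inter hw).nullMeasurableSet]

theorem law2 {μ : Measure ℝ} [IsProbabilityMeasure μ] {k : ℕ} {Q : Measure XX} (hQ : IsQ μ k Q)
    (d : Dir) :
    ((Q.prod μ).restrict (Sd d)).map (fun q : XX × ℝ => ((updX (edg 0 d) q, d) : YY)) ≤ nuM Q := by
  refine le_trans ?_ (nu_le Q d)
  rw [Measure.le_iff]
  intro s hs
  have m1 : Measurable (fun q : XX × ℝ => ((updX (edg 0 d) q, d) : YY)) :=
    (measurable_updX _).prodMk measurable_const
  have m2 : Measurable (fun p : XX => ((p, d) : YY)) := measurable_id.prodMk measurable_const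
  have hw : MeasurableSet {p : XX | wl p (edg 0 d) = true} :=
    measurableSet_eq_fun ((measurable_pi_apply (edg 0 d)).comp measurable_wl) measurable_const
  rw [Measure.map_apply m1 hs, Measure.map_apply m2 hs, Measure.restrict_apply (m1 hs),
    Measure.restrict_apply (m2 hs)]
  have h1 : (fun q : XX × ℝ => ((updX (edg 0 d) q, d) : YY)) ⁻¹' s ∩ Sd d ⊆
      updX (edg 0 d) ⁻¹' ((fun p : XX => ((p, d) : YY)) ⁻¹' s ∩ {p | wl p (edg 0 d) = true}) ∩
        Srv (edg 0 d) :=
    fun q hq => ⟨⟨hq.1, hq.2.1⟩, hq.2.2⟩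
  refine (measure_mono h1).trans ?_
  rw [← Measure.restrict_apply (measurable_updX _ ((m2 hs).inter hw)),
    ← Measure.map_apply (measurable_updX _) ((m2 hs).inter hw)]
  exact hQ.res _ _

theorem supp_ae {μ : Measure ℝ} [IsProbabilityMeasure μ] {k : ℕ} {Q : Measure XX}
    (hQ : IsQ μ k Q) (e : Ed) : ∀ᵐ p ∂Q, p.1 e ∈ μ.support := by
  have h1 : PP μ {J | J e ∉ μ.support} = 0 := by
    have h2 := (measurePreserving_eval_infinitePi (fun _ : Ed => μ) e).measure_preimage
      (s := μ.supportᶜ) Measure.isOpen_compl_support.measurableSet.nullMeasurableSet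
    have h3 : μ μ.supportᶜ = 0 := Measure.support_mem_ae
    rw [h3] at h2
    exact h2
  have h4 := hQ.fst_le {J | J e ∉ μ.support}
  rw [h1, mul_zero] at h4
  exact le_antisymm h4 zero_le

theorem exp_ne {t : ℝ} (h0 : t ≠ 0) (h1 : |t| < 2 * Real.pi) :
    Complex.exp (-(t * Complex.I)) ≠ 1 := by
  intro h
  rw [Complex.exp_eq_one_iff] at h
  obtain ⟨n, hn⟩ := h
  have h2 : ((-t : ℝ) : ℂ) * Complex.I = ((n * (2 * Real.pi) : ℝ) : ℂ) * Complex.I := by
    push_cast
    linear_combination hn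
  have h3 : -t = n * (2 * Real.pi) := by
    have := mul_right_cancel₀ Complex.I_ne_zero h2
    exact_mod_cast this
  have hn0 : n ≠ 0 := by
    rintro rfl
    rw [Int.cast_zero, zero_mul, neg_eq_zero] at h3
    exact h0 h3
  have h4 : (1 : ℝ) ≤ |(n : ℝ)| := by
    rw [← Int.cast_abs]
    exact_mod_cast Int.one_le_abs hn0
  have h5 : |t| = |(n : ℝ)| * (2 * Real.pi) := by
    rw [← abs_neg t, h3, abs_mul, abs_of_pos (by positivity : 0 < 2 * Real.pi)]
  nlinarith [Real.pi_pos]

end G1

open G1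

theorem no_eig {μ : Measure ℝ} [IsProbabilityMeasure μ] (hμ : ∀ x : ℝ, μ {x} = 0) {k : ℕ}
    {Q : Measure XX} (hQ : IsQ μ k Q) {l : ℝ} (hl : l ≠ 0) {h : YY → ℂ} (hm : Measurable h)
    (hi : Integrable h (nuM Q))
    (heq : ∀ᵐ y ∂(nuM Q), Complex.exp (l * xv y * Complex.I) * h (Th y) = h y) :
    ∀ᵐ y ∂(nuM Q), h y = 0 := by
  have : IsFiniteMeasure (nuM Q) := ⟨nu_univ_lt hQ⟩
  have : IsFiniteMeasure Q := ⟨by rw [hQ.univ_eq]; exact ENNReal.natCast_lt_top _⟩
  have hTh := mp_Th hQ
  have hrv := mp_rv hQ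
  have hGY := nu_ae_GY hQ
  have hpos := fun v => pos_tend hGY v
  have key : ∀ d : Dir, ∀ᵐ p ∂Q, wl p (edg 0 d) = true → h (p, d) = 0 := by
    intro d
    have mA : Measurable (fun q : XX × ℝ => ((q.1, d) : YY)) :=
      measurable_fst.prodMk measurable_const
    have mB : Measurable (fun q : XX × ℝ => ((updX (edg 0 d) q, d) : YY)) :=
      (measurable_updX _).prodMk measurable_const
    have tw : ∀ q : XX × ℝ, Tw (edg 0 d) (q.1, d) (updX (edg 0 d) q, d) := fun q =>
      ⟨rfl, rfl, fun f hf => upd_ne _ hf _⟩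
    have c1 : Cpl ((Q.prod μ).restrict (Sd d)) (nuM Q) (edg 0 d)
        (fun q : XX × ℝ => ((q.1, d) : YY)) (fun q => (updX (edg 0 d) q, d)) :=
      ⟨mA, mB, law1 Q d, law2 hQ d, Eventually.of_forall tw⟩
    have c2 : Cpl ((Q.prod μ).restrict (Sd d)) (nuM Q) (edg 0 d)
        (fun q : XX × ℝ => rv ((q.1, d) : YY)) (fun q => rv (updX (edg 0 d) q, d)) := by
      refine ⟨measurable_rv.comp mA, measurable_rv.comp mB, ?_, ?_,
        Eventually.of_forall fun q => (tw q).rv⟩
      · have h1 := Measure.map_mono (law1 (μ := μ) Q d) measurable_rv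
        rw [Measure.map_map measurable_rv mA, hrv.map_eq] at h1
        exact h1
      · have h1 := Measure.map_mono (law2 hQ d) measurable_rv
        rw [Measure.map_map measurable_rv mB, hrv.map_eq] at h1
        exact h1
    have gA : ∀ᵐ q ∂((Q.prod μ).restrict (Sd d)), GY (q.1, d) := law_ae c1.mA c1.lA hGY
    have gB : ∀ᵐ q ∂((Q.prod μ).restrict (Sd d)), GY (updX (edg 0 d) q, d) :=
      law_ae c1.mB c1.lB hGY
    have r1 := core c1 hTh hpos hm heq (gA.mono fun q hq n => wedge_ne hq n)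
    have r2 := core c2 hTh hpos (hm.comp measurable_rv) (eig_rv hTh hrv hGY heq)
      (gA.mono fun q hq n => wedge_rv_ne hq (n + 1))
    have r3 : ∀ᵐ q ∂((Q.prod μ).restrict (Sd d)), h (q.1, d) =
        Complex.exp (-(l * (xv (updX (edg 0 d) q, d) - xv (q.1, d)) * Complex.I)) *
          h (q.1, d) := by
      filter_upwards [r1, r2, gA, gB] with q h1 h2 g1 g2
      have e0 : xv (rv (updX (edg 0 d) q, d)) = xv (rv (q.1, d)) :=
        (tw q).rv.xv 0 (wedge_rv_ne g1 0)
      simp only [Function.comp] at h2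
      rw [e0, rv_rv g1, rv_rv g2, sub_self, mul_zero, zero_mul, neg_zero, Complex.exp_zero,
        one_mul] at h2
      rw [← h2] at h1
      exact h1
    have r4 := ae_imp_of_ae_restrict r3
    have r5 := Measure.ae_ae_of_ae_prod r4
    filter_upwards [r5, hQ.nice, supp_ae hQ (edg 0 d)] with p hp hn hs hwl
    by_contra hne
    obtain ⟨δ, hδ, hflex⟩ := flex hn.1 (edg 0 d)
    have hJ : p.1 (edg 0 d) ≠ 0 := hn.1.nz _
    have hl' : 0 < |l| := abs_pos.2 hl
    have hρ : 0 < min (min δ |p.1 (edg 0 d)|) (2 * Real.pi / |l|) :=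
      lt_min (lt_min hδ (abs_pos.2 hJ)) (by positivity)
    set ρ := min (min δ |p.1 (edg 0 d)|) (2 * Real.pi / |l|) with hρdef
    have hball : 0 < μ (Metric.ball (p.1 (edg 0 d)) ρ) :=
      ((Measure.mem_support_iff_forall _).1 hs) _ (Metric.ball_mem_nhds _ hρ)
    have hx0 : ∀ᵐ x ∂μ, x ≠ p.1 (edg 0 d) := by
      rw [ae_iff]
      simpa using hμ (p.1 (edg 0 d))
    have hbad : ∀ᵐ x ∂μ, x ∉ Metric.ball (p.1 (edg 0 d)) ρ := by
      filter_upwards [hp, hx0] with x hx hx0 hlt
      rw [Metric.mem_ball, Real.dist_eq] at hlt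
      have l1 : |x - p.1 (edg 0 d)| < δ :=
        hlt.trans_le ((min_le_left _ _).trans (min_le_left _ _))
      have l2 : |x - p.1 (edg 0 d)| < |p.1 (edg 0 d)| :=
        hlt.trans_le ((min_le_left _ _).trans (min_le_right _ _))
      have l3 : |x - p.1 (edg 0 d)| < 2 * Real.pi / |l| := hlt.trans_le (min_le_right _ _)
      have hmem : ((p, x) : XX × ℝ) ∈ Sd d :=
        ⟨hwl, hflex x l1 _ hn.2.1, hflex x l1 _ hn.2.2.1⟩
      have h1 := hx hmem
      have h2 : Complex.exp (-(l * (xv (updX (edg 0 d) (p, x), d) - xv (p, d)) * Complex.I))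
          = 1 := by
        have h3 : (1 : ℂ) * h (p, d) =
            Complex.exp (-(l * (xv (updX (edg 0 d) (p, x), d) - xv (p, d)) * Complex.I)) *
              h (p, d) := by
          rw [one_mul]
          exact h1
        exact (mul_right_cancel₀ hne h3).symm
      have h4 : xv (updX (edg 0 d) (p, x), d) - xv (p, d) =
          (|x| - |p.1 (edg 0 d)|) * sg (p.2.1 (edg 0 d)) := by
        have h5 : xv (updX (edg 0 d) (p, x), d) = |x| * sg (p.2.1 (edg 0 d)) := by
          show |upd p.1 (edg 0 d) x (edg 0 d)| * sg (p.2.1 (edg 0 d)) = _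
          rw [upd_self]
        rw [h5]
        show |x| * sg (p.2.1 (edg 0 d)) - |p.1 (edg 0 d)| * sg (p.2.1 (edg 0 d)) = _
        ring
      have h6 : |(|x| - |p.1 (edg 0 d)|)| = |x - p.1 (edg 0 d)| := by
        rcases lt_or_gt_of_ne hJ with h7 | h7
        · rw [abs_of_neg h7, abs_lt] at l2
          rw [abs_of_neg h7, abs_of_neg (show x < 0 by linarith), ← abs_neg]
          congr 1
          ring
        · rw [abs_of_pos h7, abs_lt] at l2
          rw [abs_of_pos h7, abs_of_pos (show 0 < x by linarith)]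
      have h8 : |l * (xv (updX (edg 0 d) (p, x), d) - xv (p, d))| =
          |l| * |x - p.1 (edg 0 d)| := by
        rw [h4, abs_mul, abs_mul, abs_sg, mul_one, h6]
      have h9 : 0 < |x - p.1 (edg 0 d)| := abs_pos.2 (sub_ne_zero.2 hx0)
      refine exp_ne (t := l * (xv (updX (edg 0 d) (p, x), d) - xv (p, d))) ?_ ?_ ?_
      · rw [← abs_pos, h8]
        positivity
      · rw [h8]
        rw [lt_div_iff₀ hl'] at l3
        linarith
      · rw [← h2]
        push_cast
        rfl
    have h10 : μ (Metric.ball (p.1 (edg 0 d)) ρ) = 0 := by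
      have h11 := ae_iff.1 hbad
      simp only [not_not] at h11
      exact h11
    exact hball.ne' h10
  unfold nuM
  rw [ae_finsetSum_measure_iff]
  intro d _
  have m2 : Measurable (fun p : XX => ((p, d) : YY)) := measurable_id.prodMk measurable_const
  have hs0 : MeasurableSet {y : YY | h y = 0} := hm (measurableSet_singleton 0)
  rw [ae_map_iff m2.aemeasurable hs0]
  have hw : MeasurableSet {p : XX | wl p (edg 0 d) = true} :=
    measurableSet_eq_fun ((measurable_pi_apply (edg 0 d)).comp measurable_wl) measurable_const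
  rw [ae_restrict_iff' hw]
  exact key d

end Pool.Agent.Helper60.TJ
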