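import Mathlib
import Pool.Agent.Helper99.TJ.CL

set_option autoImplicit false

/-! TJ-G2: Cesàro decay of `ν(|V_n| ≤ K)` (abstract). -/

namespace Pool.Agent.Helper60.TJ

open MeasureTheory Filter Topology

theorem cesaro {Y : Type*} [MeasurableSpace Y] {ν : Measure Y} [IsFiniteMeasure ν] {Θ : Y → Y}
    (hΘ : MeasurePreserving Θ ν ν) {x : Y → ℝ} (hx : Measurable x)
    (hno : ∀ l : ℝ, l ≠ 0 → ∀ h : Y → ℂ, Measurable h → Integrable h ν →
      (∀ᵐ y ∂ν, Complex.exp (l * x y * Complex.I) * h (Θ y) = h y) → ∀ᵐ y ∂ν, h y = 0) (K : ℝ) :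
    Tendsto (fun N : ℕ => (N : ℝ)⁻¹ * ∑ n ∈ Finset.range N,
      (ν {y | |∑ i ∈ Finset.range n, x (Θ^[i] y)| ≤ K}).toReal) atTop (𝓝 0) := by
  have hNE : Pool.Agent.Helper99.TJ.NoEig ν Θ x := by
    intro l hl h hm hb heq
    obtain ⟨C, hC⟩ := hb
    refine hno l hl h hm ?_ ?_
    · exact (integrable_const C).mono' hm.aestronglyMeasurable (Eventually.of_forall hC)
    · filter_upwards [heq] with y hy
      unfold Pool.Agent.Helper99.TJ.ph at hy
      push_cast at hy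
      exact hy
  exact Pool.Agent.Helper99.TJ.cesaro_small hΘ hx hNE K

end Pool.Agent.Helper60.TJ
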