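import Pool.Agent.Helper60.TJ.Basic

set_option autoImplicit false

/-! TJ-F: walking along walls (deterministic). -/

namespace Pool.Agent.Helper60.TJ

open MeasureTheory
open scoped symmDiff

/-- good points of the wall space -/
def GY (y : YY) : Prop :=
  Deg2 (wl y.1) ∧ wl y.1 (edg 0 y.2) = true ∧
    ∀ C : Finset Ed, IsCyc C → (∀ e ∈ C, wl y.1 e = true) → C = ∅

/-! ### local analysis at a vertex -/

private theorem nxt_aux : ∀ (f : Fin 4 → Bool) (d : Fin 4),
    xor (xor (f 0) (f 1)) (xor (f 2) (f 3)) = false → (∃ d, f d = false) → f (d + 2) = true →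
    (f (if f d then d else if f (d + 1) then d + 1 else d + 3) = true ∧
      (if f d then d else if f (d + 1) then d + 1 else d + 3) ≠ d + 2 ∧
      ∀ d', f d' = true → d' ≠ d + 2 →
        d' = (if f d then d else if f (d + 1) then d + 1 else d + 3)) := by
  decide

private theorem nxt_spec {W : Ed → Bool} (h : Deg2 W) {v : Vx} {d : Dir}
    (hd : W (edg v (opp d)) = true) :
    W (edg v (nxt W v d)) = true ∧ nxt W v d ≠ opp d ∧
      ∀ d', W (edg v d') = true → d' ≠ opp d → d' = nxt W v d :=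
  nxt_aux (fun d => W (edg v d)) d (h.1 v) (h.2 v) hd

private theorem oth_spec {W : Ed → Bool} (h : Deg2 W) {v : Vx} {d : Dir}
    (hd : W (edg v d) = true) :
    W (edg v (oth W v d)) = true ∧ oth W v d ≠ d ∧
      ∀ d', W (edg v d') = true → d' ≠ d → d' = oth W v d := by
  have e : opp (d + 2) = d := opp_opp d
  have := nxt_spec h (v := v) (d := d + 2) (by rw [e]; exact hd)
  rw [e] at this
  exact this

private theorem deg2_sh {W : Ed → Bool} (h : Deg2 W) (u : Vx) : Deg2 (sh u W) := by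
  refine ⟨fun v => ?_, fun v => ?_⟩
  · rw [par_sh]; exact h.1 _
  · obtain ⟨d, hd⟩ := h.2 (v + u)
    exact ⟨d, by rw [sh_edg]; exact hd⟩

private theorem acyc_sh {W : Ed → Bool}
    (h : ∀ C : Finset Ed, IsCyc C → (∀ e ∈ C, W e = true) → C = ∅) (u : Vx) :
    ∀ C : Finset Ed, IsCyc C → (∀ e ∈ C, sh u W e = true) → C = ∅ := by
  intro C hC hW
  have h1 : shF (-u) C = ∅ := by
    apply h _ (isCyc_shF.2 hC)
    intro e he
    rw [mem_shF] at he
    have := hW _ he
    unfold sh at this
    simpa using this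
  have h2 : shF u (shF (-u) C) = ∅ := by rw [h1]; rfl
  rwa [shF_shF, add_neg_cancel, shF_zero] at h2

/-- the arrival edge after one step -/
private theorem arrive {W : Ed → Bool} {d : Dir} (h : W (edg 0 d) = true) :
    sh (stp d) W (edg 0 (opp d)) = true := by
  rw [sh_edg, edg_opp]; exact h

theorem GY.th {y : YY} (h : GY y) : GY (Th y) := by
  obtain ⟨p, d⟩ := y
  obtain ⟨h1, h2, h3⟩ := h
  have h1' := deg2_sh h1 (stp d)
  exact ⟨h1', (nxt_spec h1' (arrive h2)).1, acyc_sh h3 (stp d)⟩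

theorem GY.rv {y : YY} (h : GY y) : GY (rv y) := by
  obtain ⟨p, d⟩ := y
  obtain ⟨h1, h2, h3⟩ := h
  exact ⟨h1, (oth_spec h1 h2).1, h3⟩

theorem rv_rv {y : YY} (h : GY y) : rv (rv y) = y := by
  obtain ⟨p, d⟩ := y
  obtain ⟨h1, h2, h3⟩ := h
  simp only at h1 h2
  have a := oth_spec h1 h2
  have b := oth_spec h1 a.1
  show (p, oth (wl p) 0 (oth (wl p) 0 d)) = (p, d)
  rw [← b.2.2 d h2 a.2.1.symm]

/-- `rv ∘ Th ∘ rv` is the inverse of `Th` -/
theorem th_inv {y : YY} (h : GY y) : Th (rv (Th (rv y))) = y := by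
  obtain ⟨p, d⟩ := y
  obtain ⟨h1, h2, h3⟩ := h
  simp only at h1 h2
  have a := oth_spec h1 h2
  set d1 := oth (wl p) 0 d with hd1
  have h1' := deg2_sh h1 (stp d1)
  have har := arrive a.1
  have b := nxt_spec h1' har
  set d2 := nxt (sh (stp d1) (wl p)) 0 d1 with hd2
  have c := oth_spec h1' b.1
  -- the other direction is `opp d1`
  have hd3 : oth (sh (stp d1) (wl p)) 0 d2 = opp d1 := (c.2.2 _ har b.2.1.symm).symm
  show ((shX (stp (oth (wl (shX (stp d1) p)) 0 d2)) (shX (stp d1) p),
    nxt (wl (shX (stp (oth (wl (shX (stp d1) p)) 0 d2)) (shX (stp d1) p))) 0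
      (oth (wl (shX (stp d1) p)) 0 d2)) : YY) = (p, d)
  have e1 : oth (wl (shX (stp d1) p)) 0 d2 = opp d1 := hd3
  rw [e1, shX_shX, stp_opp, neg_add_cancel, shX_zero]
  have f := nxt_spec h1 (v := 0) (d := opp d1) (by rw [opp_opp]; exact a.1)
  rw [opp_opp] at f
  rw [← f.2.2 d h2 a.2.1.symm]

theorem th_inv' {y : YY} (h : GY y) : rv (Th (rv (Th y))) = y := by
  have h1 := th_inv h.rv
  rw [rv_rv h] at h1
  rw [h1, rv_rv h]

theorem th_iterate_fst (y : YY) (n : ℕ) : (Th^[n] y).1 = shX (pos y n) y.1 := by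
  induction n with
  | zero => simp [pos, shX_zero]
  | succ n ih =>
    rw [Function.iterate_succ_apply']
    show shX (stp (Th^[n] y).2) (Th^[n] y).1 = _
    rw [ih, shX_shX]
    simp only [pos]
    rw [add_comm]

/-- the `n`-th edge of the walk -/
def wedge (y : YY) (n : ℕ) : Ed := edg (pos y n) ((Th^[n] y).2)

/-- the first `n` edges of the walk -/
def seg (y : YY) (n : ℕ) : Finset Ed := (Finset.range n).image (wedge y)

private theorem gy_iter {y : YY} (h : GY y) (n : ℕ) : GY (Th^[n] y) := by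
  induction n with
  | zero => exact h
  | succ n ih => rw [Function.iterate_succ_apply']; exact ih.th

theorem wedge_mem {y : YY} (h : GY y) (n : ℕ) : wl y.1 (wedge y n) = true := by
  have h1 := (gy_iter h n).2.1
  rw [th_iterate_fst, wl_shX, sh_edg, zero_add] at h1
  exact h1

private theorem edg_eq {v v' : Vx} {d d' : Dir} (h : edg v d = edg v' d') :
    (v = v' ∧ d = d') ∨ (v' = v + stp d ∧ d' = opp d) := by
  obtain ⟨x, y⟩ := v
  obtain ⟨x', y'⟩ := v'
  fin_cases d <;> fin_cases d' <;> simp [edg, stp, opp] at h ⊢ <;> omega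

/-- no backtracking -/
private theorem no_back {y : YY} (h : GY y) (n : ℕ) :
    (Th^[n + 1] y).2 ≠ opp (Th^[n] y).2 := by
  have g := gy_iter h n
  rw [Function.iterate_succ_apply']
  exact (nxt_spec (deg2_sh g.1 (stp (Th^[n] y).2)) (arrive g.2.1)).2.1

/-- an edge which is used twice gives a repeated position -/
private theorem wedge_eq {y : YY} (h : GY y) {a b : ℕ} (hab : a < b)
    (e : wedge y a = wedge y b) : pos y a = pos y b ∨ (a + 1 < b ∧ pos y (a + 1) = pos y b) := by
  rcases edg_eq e with ⟨h1, _⟩ | ⟨h1, h2⟩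
  · exact Or.inl h1
  · right
    refine ⟨?_, ?_⟩
    · rcases Nat.lt_or_ge (a + 1) b with h3 | h3
      · exact h3
      · have h4 : b = a + 1 := by omega
        subst h4
        exact absurd h2 (no_back h a)
    · rw [h1]; rfl

private theorem image_Ico_succ {f : ℕ → Ed} {i m : ℕ} (him : i ≤ m)
    (hn : ∀ a, i ≤ a → a < m → f a ≠ f m) :
    (Finset.Ico i (m + 1)).image f = (Finset.Ico i m).image f ∆ {f m} := by
  ext e
  simp only [Finset.mem_image, Finset.mem_Ico, Finset.mem_symmDiff, Finset.mem_singleton]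
  constructor
  · rintro ⟨a, ⟨h1, h2⟩, rfl⟩
    rcases Nat.lt_or_ge a m with h3 | h3
    · exact Or.inl ⟨⟨a, ⟨h1, h3⟩, rfl⟩, hn a h1 h3⟩
    · have h4 : a = m := by omega
      subst h4
      refine Or.inr ⟨rfl, ?_⟩
      rintro ⟨b, ⟨h5, h6⟩, h7⟩
      exact hn b h5 h6 h7
  · rintro (⟨⟨a, ⟨h1, h2⟩, rfl⟩, _⟩ | ⟨rfl, _⟩)
    · exact ⟨a, ⟨h1, by omega⟩, rfl⟩
    · exact ⟨m, ⟨him, by omega⟩, rfl⟩

private theorem par_image {y : YY} {i : ℕ} : ∀ m, i ≤ m →
    (∀ a b, i ≤ a → a < b → b < m → wedge y a ≠ wedge y b) →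
    par (ind ((Finset.Ico i m).image (wedge y))) = vx (dl (pos y i)) (dl (pos y m)) := by
  intro m
  induction m with
  | zero =>
    intro h _
    have : i = 0 := by omega
    subst this
    simp only [Finset.Ico_self, Finset.image_empty]
    rw [par_empty, vx_self]
  | succ m ih =>
    intro h hn
    rcases Nat.lt_or_ge m i with h1 | h1
    · have : i = m + 1 := by omega
      subst this
      simp only [Finset.Ico_self, Finset.image_empty]
      rw [par_empty, vx_self]
    · rw [image_Ico_succ h1 (fun a h2 h3 => hn a m h2 h3 (by omega)), par_ind_symmDiff,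
        ih h1 (fun a b h2 h3 h4 => hn a b h2 h3 (by omega))]
      have e : par (ind {wedge y m}) = vx (dl (pos y m)) (dl (pos y (m + 1))) := by
        unfold wedge
        rw [par_edg]
        rfl
      rw [e, vx_trans]

theorem pos_injective {y : YY} (h : GY y) : Function.Injective (pos y) := by
  classical
  by_contra hcon
  have hex : ∃ j, ∃ i, i < j ∧ pos y i = pos y j := by
    rw [Function.Injective] at hcon
    push Not at hcon
    obtain ⟨a, b, h1, h2⟩ := hcon
    rcases Nat.lt_or_gt_of_ne h2 with h3 | h3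
    · exact ⟨b, a, h3, h1⟩
    · exact ⟨a, b, h3, h1.symm⟩
  obtain ⟨i, hij, hp⟩ := Nat.find_spec hex
  set j := Nat.find hex with hj
  have hmin : ∀ a b, a < b → b < j → pos y a ≠ pos y b := by
    intro a b hab hbj he
    exact Nat.find_min hex hbj ⟨a, hab, he⟩
  have hw : ∀ a b, i ≤ a → a < b → b < j → wedge y a ≠ wedge y b := by
    intro a b _ hab hbj he
    rcases wedge_eq h hab he with h1 | ⟨h1, h2⟩
    · exact hmin a b hab hbj h1
    · exact hmin (a + 1) b h1 hbj h2
  have hpar := par_image j hij.le hw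
  rw [hp, vx_self] at hpar
  have hC : (Finset.Ico i j).image (wedge y) = ∅ := by
    apply h.2.2 _ ((isCyc_iff _).2 hpar)
    intro e he
    rw [Finset.mem_image] at he
    obtain ⟨n, _, rfl⟩ := he
    exact wedge_mem h n
  rw [Finset.image_eq_empty, Finset.Ico_eq_empty_iff] at hC
  exact hC hij

theorem wedge_injective {y : YY} (h : GY y) : Function.Injective (wedge y) := by
  have key : ∀ a b, a < b → wedge y a ≠ wedge y b := by
    intro a b hab he
    rcases wedge_eq h hab he with h1 | ⟨h1, h2⟩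
    · exact hab.ne (pos_injective h h1)
    · exact h1.ne (pos_injective h h2)
  intro a b he
  rcases Nat.lt_trichotomy a b with h1 | h1 | h1
  · exact absurd he (key a b h1)
  · exact h1
  · exact absurd he.symm (key b a h1)

theorem par_seg {y : YY} (h : GY y) (n : ℕ) : par (ind (seg y n)) = vx (dl 0) (dl (pos y n)) := by
  have := par_image (y := y) (i := 0) n (Nat.zero_le n)
    (fun a b _ hab _ he => hab.ne (wedge_injective h he))
  rw [← Finset.range_eq_Ico] at this
  exact this

theorem Vn_eq {y : YY} (h : GY y) (n : ℕ) : Vn n y = en (wt y.1.1) y.1.2.1 (seg y n) := by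
  unfold Vn en seg
  rw [Finset.sum_image (fun a _ b _ e => wedge_injective h e)]
  refine Finset.sum_congr rfl fun i _ => ?_
  unfold xv
  rw [th_iterate_fst]
  show |sh (pos y i) y.1.1 (edg 0 (Th^[i] y).2)| * sg (sh (pos y i) y.1.2.1 (edg 0 (Th^[i] y).2)) = _
  rw [sh_edg, sh_edg, zero_add]
  rfl

theorem pos_mem_box (y : YY) (n : ℕ) : pos y n ∈ box n := by
  induction n with
  | zero =>
    simp only [pos, box, Nat.cast_zero, neg_zero, Finset.Icc_self]
    exact Finset.mem_product.2 ⟨Finset.mem_singleton.2 rfl, Finset.mem_singleton.2 rfl⟩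
  | succ n ih =>
    simp only [box, Finset.mem_product, Finset.mem_Icc, pos, Prod.fst_add, Prod.snd_add,
      Nat.cast_add, Nat.cast_one] at ih ⊢
    have h1 : ∀ d : Dir, -1 ≤ (stp d).1 ∧ (stp d).1 ≤ 1 ∧ -1 ≤ (stp d).2 ∧ (stp d).2 ≤ 1 := by
      intro d; fin_cases d <;> simp [stp]
    have h2 := h1 (Th^[n] y).2
    omega

end Pool.Agent.Helper60.TJ
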