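import Pool.Agent.Helper60.TJ.D
import Pool.Agent.Helper60.TJ.F

set_option autoImplicit false

/-! TJ-F2: walking along walls: measurability and invariance. -/

namespace Pool.Agent.Helper60.TJ

open MeasureTheory

private theorem f2_nxt (v : Vx) (d : Dir) : Measurable (fun W : Ed → Bool => nxt W v d) := by
  unfold nxt
  have h : ∀ e : Ed, MeasurableSet {W : Ed → Bool | W e = true} := fun e =>
    measurableSet_eq_fun (measurable_pi_apply e) measurable_const
  exact Measurable.ite (h _) measurable_const (Measurable.ite (h _) measurable_const measurable_const)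

theorem measurable_Th : Measurable Th := by
  refine measurable_from_prod_countable_left fun d => ?_
  have h1 : Measurable (fun p : XX => shX (stp d) p) := measurable_shX _
  exact h1.prodMk ((f2_nxt 0 d).comp (measurable_wl.comp h1))

theorem measurable_rv : Measurable rv := by
  refine measurable_from_prod_countable_left fun d => ?_
  exact measurable_id.prodMk ((f2_nxt 0 (d + 2)).comp measurable_wl)

theorem measurable_xv : Measurable xv := by
  refine measurable_from_prod_countable_left fun d => ?_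
  have h1 : Measurable (fun p : XX => p.1 (edg 0 d)) := (measurable_pi_apply _).comp measurable_fst
  have h2 : Measurable (fun p : XX => p.2.1 (edg 0 d)) :=
    (measurable_pi_apply _).comp (measurable_fst.comp measurable_snd)
  exact h1.abs.mul ((measurable_of_countable sg).comp h2)

theorem measurable_Vn (n : ℕ) : Measurable (Vn n) := by
  unfold Vn
  exact Finset.measurable_sum _ fun i _ => measurable_xv.comp (measurable_Th.iterate i)

theorem measurable_pos (n : ℕ) : Measurable (fun y : YY => pos y n) := by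
  induction n with
  | zero => exact measurable_const
  | succ n ih =>
    have h1 : Measurable (fun y : YY => stp ((Th^[n] y).2)) :=
      (measurable_of_countable stp).comp (measurable_snd.comp (measurable_Th.iterate n))
    exact (measurable_of_countable (fun q : Vx × Vx => q.1 + q.2)).comp (ih.prodMk h1)

private theorem f2_mw (d : Dir) : MeasurableSet {p : XX | wl p (edg 0 d) = true} :=
  measurableSet_eq_fun ((measurable_pi_apply (edg 0 d)).comp measurable_wl) measurable_const

private theorem f2_nu (Q : Measure XX) {A : Set YY} (hA : MeasurableSet A) :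
    nuM Q A = ∑ d : Dir, Q {p | wl p (edg 0 d) = true ∧ (p, d) ∈ A} := by
  unfold nuM
  rw [Measure.finsetSum_apply]
  refine Finset.sum_congr rfl fun d _ => ?_
  have hm : Measurable (fun p : XX => (p, d)) := measurable_id.prodMk measurable_const
  rw [Measure.map_apply hm hA, Measure.restrict_apply (hm hA)]
  congr 1
  ext p
  simp only [Set.mem_inter_iff, Set.mem_preimage, Set.mem_ofPred_eq]
  tauto

theorem nu_univ_lt {μ : Measure ℝ} [IsProbabilityMeasure μ] {k : ℕ} {Q : Measure XX}
    (hQ : IsQ μ k Q) : nuM Q Set.univ < ⊤ := by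
  rw [f2_nu Q MeasurableSet.univ]
  refine ENNReal.sum_lt_top.2 fun d _ => lt_of_le_of_lt (measure_mono (Set.subset_univ _)) ?_
  rw [hQ.univ_eq]
  exact ENNReal.natCast_lt_top _

theorem nu_univ_pos {μ : Measure ℝ} [IsProbabilityMeasure μ] {k : ℕ} (hk : 2 ≤ k) {Q : Measure XX}
    (hQ : IsQ μ k Q) : 0 < nuM Q Set.univ := by
  rw [pos_iff_ne_zero]
  intro h0
  rw [f2_nu Q MeasurableSet.univ, Finset.sum_eq_zero_iff] at h0
  have h1 : ∀ (v : Vx) (d : Dir), Q {p | wl p (edg v d) = true} = 0 := by
    intro v d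
    have h2 := h0 d (Finset.mem_univ _)
    simp only [Set.mem_univ, and_true] at h2
    rw [← (hQ.inv v).measure_preimage (f2_mw d).nullMeasurableSet] at h2
    rw [← h2]
    congr 1
    ext p
    rw [Set.mem_preimage, Set.mem_ofPred_eq, Set.mem_ofPred_eq, wl_shX, sh_edg, zero_add]
  have h3 : ∀ᵐ p ∂Q, ∀ v : Vx, ∀ d : Dir, ¬ wl p (edg v d) = true := by
    rw [ae_all_iff]
    intro v
    rw [ae_all_iff]
    intro d
    rw [ae_iff]
    simpa using h1 v d
  have h4 : ∀ᵐ p ∂Q, False := by
    filter_upwards [h3, hQ.nice] with p hp hn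
    refine hn.2.2.2 ((bx_eq_false_iff _ _).1 fun e => ?_)
    obtain ⟨v, d, rfl⟩ := exists_edg e
    exact Bool.eq_false_of_not_eq_true (hp v d)
  rw [ae_iff] at h4
  simp only [not_false_eq_true] at h4
  have h5 : Q Set.univ = 0 := by
    rw [← h4]; rfl
  rw [hQ.univ_eq, Nat.cast_eq_zero, Nat.mul_eq_zero] at h5
  omega

/-- `Q`-almost sure properties hold `ν`-almost surely -/
theorem nu_ae_of {Q : Measure XX} {P : XX → Prop} (h : ∀ᵐ p ∂Q, P p) : ∀ᵐ y ∂(nuM Q), P y.1 := by
  obtain ⟨S, hS, hSm, hS0⟩ := exists_measurable_superset_of_null (ae_iff.1 h)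
  rw [ae_iff]
  refine measure_mono_null (t := Prod.fst ⁻¹' S) (fun y hy => hS hy) ?_
  rw [f2_nu Q (measurable_fst hSm), Finset.sum_eq_zero_iff]
  exact fun d _ => measure_mono_null (fun p hp => hp.2) hS0

theorem nu_ae_GY {μ : Measure ℝ} [IsProbabilityMeasure μ] {k : ℕ} {Q : Measure XX}
    (hQ : IsQ μ k Q) : ∀ᵐ y ∂(nuM Q), GY y := by
  have h1 : ∀ᵐ y ∂(nuM Q), wl y.1 (edg 0 y.2) = true := by
    have hm : MeasurableSet {y : YY | wl y.1 (edg 0 y.2) = true} := by
      refine measurableSet_eq_fun ?_ measurable_const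
      refine measurable_from_prod_countable_left fun d => ?_
      exact (measurable_pi_apply (edg 0 d)).comp measurable_wl
    rw [ae_iff]
    have h2 := f2_nu Q hm.compl
    rw [show {y : YY | ¬ wl y.1 (edg 0 y.2) = true} = {y : YY | wl y.1 (edg 0 y.2) = true}ᶜ from rfl,
      h2, Finset.sum_eq_zero_iff]
    intro d _
    have h3 : {p : XX | wl p (edg 0 d) = true ∧ (p, d) ∈ {y : YY | wl y.1 (edg 0 y.2) = true}ᶜ}
        = ∅ := by
      ext p
      simp only [Set.mem_ofPred_eq, Set.mem_compl_iff, Set.mem_empty_iff_false, iff_false, not_and,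
        not_not, imp_self]
    rw [h3, measure_empty]
  filter_upwards [h1, nu_ae_of (deg_two hQ), nu_ae_of hQ.nice] with y hy hd hn
  exact ⟨hd, hy, fun C hC h => acyc hn.2.1 hn.2.2.1 hn.1.nt hC h⟩

private theorem f2_swap (W : Ed → Bool) (h : par W 0 = false) (h' : ∃ d, W (edg 0 d) = false)
    (f : Dir → ENNReal) :
    ∑ d : Dir, (if W (edg 0 d) = true then f (oth W 0 d) else 0)
      = ∑ d : Dir, (if W (edg 0 d) = true then f d else 0) := by
  unfold par at h
  unfold oth nxt
  simp only [Fin.sum_univ_four]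
  have a1 : (0 : Dir) + 2 = 2 := rfl
  have a2 : (1 : Dir) + 2 = 3 := rfl
  have a3 : (2 : Dir) + 2 = 0 := rfl
  have a4 : (3 : Dir) + 2 = 1 := rfl
  have b1 : (0 : Dir) + 1 = 1 := rfl
  have b2 : (1 : Dir) + 1 = 2 := rfl
  have b3 : (2 : Dir) + 1 = 3 := rfl
  have b4 : (3 : Dir) + 1 = 0 := rfl
  have c1 : (0 : Dir) + 3 = 3 := rfl
  have c2 : (1 : Dir) + 3 = 0 := rfl
  have c3 : (2 : Dir) + 3 = 1 := rfl
  have c4 : (3 : Dir) + 3 = 2 := rfl
  rw [a1, a2, a3, a4, b1, b2, b3, b4, c1, c2, c3, c4]
  have h'' : W (edg 0 0) = false ∨ W (edg 0 1) = false ∨ W (edg 0 2) = false ∨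
      W (edg 0 3) = false := by
    obtain ⟨d, hd⟩ := h'
    fin_cases d
    · exact Or.inl hd
    · exact Or.inr (Or.inl hd)
    · exact Or.inr (Or.inr (Or.inl hd))
    · exact Or.inr (Or.inr (Or.inr hd))
  cases h0 : W (edg 0 0) <;> cases h1 : W (edg 0 1) <;> cases h2 : W (edg 0 2) <;>
    cases h3 : W (edg 0 3) <;> simp_all <;> ring

theorem mp_rv {μ : Measure ℝ} [IsProbabilityMeasure μ] {k : ℕ} {Q : Measure XX}
    (hQ : IsQ μ k Q) : MeasurePreserving rv (nuM Q) (nuM Q) := by
  refine ⟨measurable_rv, ?_⟩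
  ext A hA
  rw [Measure.map_apply measurable_rv hA, f2_nu Q (measurable_rv hA), f2_nu Q hA]
  have key : ∀ B : Dir → Set XX, (∀ d, MeasurableSet (B d)) →
      ∑ d : Dir, Q (B d) = ∫⁻ p, ∑ d : Dir, (B d).indicator 1 p ∂Q := by
    intro B hB
    rw [lintegral_finsetSum _ fun d _ => measurable_one.indicator (hB d)]
    exact Finset.sum_congr rfl fun d _ => (lintegral_indicator_one (hB d)).symm
  have m1 : ∀ d : Dir, MeasurableSet {p : XX | wl p (edg 0 d) = true ∧ (p, d) ∈ A} := fun d =>
    (f2_mw d).inter ((measurable_id.prodMk measurable_const : Measurable fun p : XX => (p, d)) hA)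
  have m2 : ∀ d : Dir, MeasurableSet {p : XX | wl p (edg 0 d) = true ∧ (p, d) ∈ rv ⁻¹' A} := fun d =>
    (f2_mw d).inter ((measurable_id.prodMk measurable_const : Measurable fun p : XX => (p, d))
      (measurable_rv hA))
  rw [key _ m1, key _ m2]
  refine lintegral_congr_ae ?_
  filter_upwards [deg_two hQ] with p hp
  have h1 := f2_swap (wl p) (hp.1 0) (hp.2 0) (fun d => A.indicator 1 (p, d))
  have h2 : ∀ d : Dir, ({p : XX | wl p (edg 0 d) = true ∧ (p, d) ∈ rv ⁻¹' A}.indicator 1 p : ENNReal)
      = if wl p (edg 0 d) = true then A.indicator 1 (p, oth (wl p) 0 d) else 0 := by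
    intro d
    by_cases hw : wl p (edg 0 d) = true
    · by_cases hA' : (p, oth (wl p) 0 d) ∈ A
      · rw [Set.indicator_of_mem (show p ∈ {p : XX | wl p (edg 0 d) = true ∧ (p, d) ∈ rv ⁻¹' A} from
          ⟨hw, hA'⟩), if_pos hw, Set.indicator_of_mem hA']
        rfl
      · rw [Set.indicator_of_notMem (fun h => hA' h.2), if_pos hw, Set.indicator_of_notMem hA']
    · rw [Set.indicator_of_notMem (fun h => hw h.1), if_neg hw]
  have h3 : ∀ d : Dir, ({p : XX | wl p (edg 0 d) = true ∧ (p, d) ∈ A}.indicator 1 p : ENNReal)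
      = if wl p (edg 0 d) = true then A.indicator 1 (p, d) else 0 := by
    intro d
    by_cases hw : wl p (edg 0 d) = true
    · by_cases hA' : (p, d) ∈ A
      · rw [Set.indicator_of_mem (show p ∈ {p : XX | wl p (edg 0 d) = true ∧ (p, d) ∈ A} from
          ⟨hw, hA'⟩), if_pos hw, Set.indicator_of_mem hA']
        rfl
      · rw [Set.indicator_of_notMem (fun h => hA' h.2), if_pos hw, Set.indicator_of_notMem hA']
    · rw [Set.indicator_of_notMem (fun h => hw h.1), if_neg hw]
  simp only [h2, h3]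
  exact h1

/-- the wall edge seen from its other end point -/
private def f2_flip (y : YY) : YY := (shX (stp y.2) y.1, opp y.2)

private theorem f2_mflip : Measurable f2_flip := by
  refine measurable_from_prod_countable_left fun d => ?_
  exact (measurable_shX (stp d)).prodMk measurable_const

private theorem f2_Th (y : YY) : Th y = rv (f2_flip y) := by
  unfold Th rv f2_flip oth opp
  have h : y.2 + 2 + 2 = y.2 := by
    rw [add_assoc]
    exact add_zero y.2
  simp only
  rw [h]

private theorem f2_mpflip {μ : Measure ℝ} [IsProbabilityMeasure μ] {k : ℕ} {Q : Measure XX}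
    (hQ : IsQ μ k Q) : MeasurePreserving f2_flip (nuM Q) (nuM Q) := by
  refine ⟨f2_mflip, ?_⟩
  ext A hA
  rw [Measure.map_apply f2_mflip hA, f2_nu Q (f2_mflip hA), f2_nu Q hA]
  have m1 : ∀ d : Dir, MeasurableSet {p : XX | wl p (edg 0 d) = true ∧ (p, d) ∈ A} := fun d =>
    (f2_mw d).inter ((measurable_id.prodMk measurable_const : Measurable fun p : XX => (p, d)) hA)
  have h1 : ∀ d : Dir, Q {p : XX | wl p (edg 0 d) = true ∧ (p, d) ∈ f2_flip ⁻¹' A}
      = Q {p : XX | wl p (edg 0 (opp d)) = true ∧ (p, opp d) ∈ A} := by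
    intro d
    rw [← (hQ.inv (stp d)).measure_preimage (m1 (opp d)).nullMeasurableSet]
    congr 1
    ext p
    rw [Set.mem_preimage, Set.mem_ofPred_eq, Set.mem_ofPred_eq, wl_shX, sh_edg, edg_opp]
    rfl
  simp only [h1]
  exact Fintype.sum_equiv ⟨opp, opp, opp_opp, opp_opp⟩ _ _ fun d => rfl

theorem mp_Th {μ : Measure ℝ} [IsProbabilityMeasure μ] {k : ℕ} {Q : Measure XX}
    (hQ : IsQ μ k Q) : MeasurePreserving Th (nuM Q) (nuM Q) := by
  have h : Th = rv ∘ f2_flip := funext f2_Th
  rw [h]
  exact (mp_rv hQ).comp (f2_mpflip hQ)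

end Pool.Agent.Helper60.TJ
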