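import Pool.Agent.Helper60.TJ.Basic
import Pool.Agent.Helper42.EA.Infinite

set_option autoImplicit false

/-! TJ-A1: duality between spin configurations and T-joins (deterministic). -/

namespace Pool.Agent.Helper60.TJ

open Pool.Agent.Helper23.EA Pool.Agent.Helper42.EA

/-- edges whose end points carry different spins -/
def cut (s : Vx → Bool) : Ed → Bool := fun e => xor (s (pa e)) (s (pb e))

/-- indicator of a finite set of vertices -/
def indV (A : Finset Vx) : Vx → Bool := fun v => decide (v ∈ A)

namespace A1x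

theorem cut_false (s : Vx → Bool) (x y : ℤ) :
    cut s ((x, y), false) = xor (s (x, y)) (s (x + 1, y)) := rfl

theorem cut_true (s : Vx → Bool) (x y : ℤ) :
    cut s ((x, y), true) = xor (s (x, y)) (s (x, y + 1)) := rfl

/-- primitives -/
def prP (f : ℤ → Bool) : ℕ → Bool
  | 0 => false
  | k + 1 => xor (prP f k) (f (k : ℤ))

def prQ (f : ℤ → Bool) : ℕ → Bool
  | 0 => false
  | k + 1 => xor (prQ f k) (f (-((k : ℤ) + 1)))

def prim (f : ℤ → Bool) : ℤ → Bool
  | Int.ofNat k => prP f k
  | Int.negSucc k => prQ f (k + 1)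

theorem prim_zero (f : ℤ → Bool) : prim f 0 = false := rfl

theorem prim_succ (f : ℤ → Bool) (n : ℤ) : prim f (n + 1) = xor (prim f n) (f n) := by
  rcases n with k | k
  · rfl
  · rcases k with _ | m
    · have h1 : (Int.negSucc 0 + 1 : ℤ) = 0 := rfl
      have h2 : (Int.negSucc 0 : ℤ) = -(((0 : ℕ) : ℤ) + 1) := rfl
      rw [h1, prim_zero]
      show false = xor (prQ f 1) (f (Int.negSucc 0))
      rw [h2]
      simp [prQ]
    · have h1 : (Int.negSucc (m + 1) + 1 : ℤ) = Int.negSucc m := rfl
      have h2 : (Int.negSucc (m + 1) : ℤ) = -(((m + 1 : ℕ) : ℤ) + 1) := rfl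
      rw [h1]
      show prQ f (m + 1) = xor (prQ f (m + 2)) (f (Int.negSucc (m + 1)))
      rw [h2]
      show prQ f (m + 1) = xor (xor (prQ f (m + 1)) (f (-(((m + 1 : ℕ) : ℤ) + 1))))
        (f (-(((m + 1 : ℕ) : ℤ) + 1)))
      simp

theorem const_of_succ {g : ℤ → Bool} (h : ∀ n, g (n + 1) = g n) (n : ℤ) : g n = g 0 := by
  induction n using Int.induction_on with
  | zero => rfl
  | succ i hi => rw [h, hi]
  | pred i hi => rw [← h, sub_add_cancel, hi]

theorem const_of_Icc {g : ℤ → Bool} {M : ℤ} (h : ∀ n, -M ≤ n → n ≤ M → g (n + 1) = g n)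
    (n : ℤ) (h1 : -M ≤ n) (h2 : n ≤ M) : g n = g (-M) := by
  obtain ⟨k, rfl⟩ : ∃ k : ℕ, n = -M + k := ⟨(n + M).toNat, by omega⟩
  clear h1
  induction k with
  | zero => simp
  | succ k ih =>
    have h3 := h (-M + k) (by omega) (by push_cast at h2; omega)
    have h4 := ih (by push_cast at h2; omega)
    rw [← h4, ← h3]
    congr 1
    push_cast
    ring

theorem mem_bd_iff (A : Finset Vx) (hl : ∀ v : Vx, {e : Ed | pa e = v ∨ pb e = v}.Finite) :
    ind (bd pa pb hl A) = cut (indV A) := by
  funext e
  unfold ind cut indV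
  by_cases h1 : pa e ∈ A <;> by_cases h2 : pb e ∈ A <;> simp [mem_bd, h1, h2]

theorem ind_injective : Function.Injective ind := by
  intro X Y h
  ext e
  have := congrFun h e
  unfold ind at this
  rwa [decide_eq_decide] at this

theorem cut_flip (s : Vx → Bool) (D : Finset Vx) :
    cut (Pool.Agent.Helper23.EA.flip s D) = bx (cut s) (cut (indV D)) := by
  classical
  funext e
  unfold cut bx indV Pool.Agent.Helper23.EA.flip
  by_cases h1 : pa e ∈ D <;> by_cases h2 : pb e ∈ D <;>
    simp only [h1, h2, if_true, if_false, decide_true, decide_false] <;>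
    cases s (pa e) <;> cases s (pb e) <;> rfl

theorem abs_mul_sg (x : ℝ) : |x| * sg (decide (x < 0)) = x := by
  unfold sg
  by_cases h : x < 0
  · simp [h, abs_of_neg h]
  · simp [h, abs_of_nonneg (not_lt.mp h)]

theorem sg_cut (s : Vx → Bool) (e : Ed) : sg (cut s e) = sp (s (pa e)) * sp (s (pb e)) := by
  unfold cut sg sp
  cases s (pa e) <;> cases s (pb e) <;> simp

theorem en_eq (J : Ed → ℝ) (s : Vx → Bool) (A : Finset Vx)
    (hl : ∀ v : Vx, {e : Ed | pa e = v ∨ pb e = v}.Finite) :
    en (wt J) (bx (ng J) (cut s)) (bd pa pb hl A) = En pa pb hl J s A := by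
  unfold en En
  refine Finset.sum_congr rfl fun e _ => ?_
  rw [← sg_cut]
  unfold bx ng wt
  rw [sg_xor, ← mul_assoc, abs_mul_sg]

end A1x

open A1x

theorem hlf2 : ∀ v : Vx, {e : Ed | pa e = v ∨ pb e = v}.Finite := by
  rintro ⟨x, y⟩
  refine Set.Finite.subset (Set.toFinite
    ({((x, y), false), ((x, y), true), ((x - 1, y), false), ((x, y - 1), true)} : Set Ed)) ?_
  rintro ⟨⟨a, b⟩, c⟩ h
  simp only [Set.mem_ofPred_eq, pa, pb] at h
  cases c
  · simp only [Bool.false_eq_true, if_false, Prod.mk.injEq] at h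
    simp only [Set.mem_insert_iff, Prod.mk.injEq, Set.mem_singleton_iff]
    simp only [Bool.false_eq_true, and_false, or_false, and_true, false_or]
    omega
  · simp only [if_true, Prod.mk.injEq] at h
    simp only [Set.mem_insert_iff, Prod.mk.injEq, Set.mem_singleton_iff]
    simp only [Bool.true_eq_false, and_false, and_true, false_or]
    omega

theorem par_cut (s : Vx → Bool) (v : Vx) : par (cut s) v = false := by
  obtain ⟨x, y⟩ := v
  have h0 : edg (x, y) 0 = ((x + 1, y), true) := rfl
  have h1 : edg (x, y) 1 = ((x, y + 1), false) := rfl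
  have h2 : edg (x, y) 2 = ((x, y), true) := rfl
  have h3 : edg (x, y) 3 = ((x, y), false) := rfl
  unfold par
  rw [h0, h1, h2, h3, cut_true, cut_false, cut_true, cut_false]
  cases s (x + 1, y) <;> cases s (x + 1, y + 1) <;> cases s (x, y + 1) <;> cases s (x, y) <;> rfl

/-- an even edge set is the cut of a spin configuration (the plane is simply connected) -/
theorem exists_cut {X : Ed → Bool} (h : ∀ v, par X v = false) : ∃ s, X = cut s := by
  set F : ℤ → Bool := prim (fun i => X ((i, 0), false)) with hF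
  set G : ℤ → ℤ → Bool := fun x => prim (fun j => X ((x, j), true)) with hG
  refine ⟨fun v => xor (F v.1) (G v.1 v.2), ?_⟩
  have hv : ∀ x y, G x (y + 1) = xor (G x y) (X ((x, y), true)) := fun x y => prim_succ _ y
  have hh : ∀ x, F (x + 1) = xor (F x) (X ((x, 0), false)) := fun x => prim_succ _ x
  have h0 : ∀ x, G x 0 = false := fun x => prim_zero _
  have key : ∀ x y, xor (xor (X ((x, 0), false)) (X ((x, y), false)))
      (xor (G x y) (G (x + 1) y)) = false := by
    intro x y
    have hc := const_of_succ (g := fun y => xor (xor (X ((x, 0), false)) (X ((x, y), false)))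
      (xor (G x y) (G (x + 1) y))) (by
        intro n
        have hp := h (x, n)
        have e0 : edg (x, n) 0 = ((x + 1, n), true) := rfl
        have e1 : edg (x, n) 1 = ((x, n + 1), false) := rfl
        have e2 : edg (x, n) 2 = ((x, n), true) := rfl
        have e3 : edg (x, n) 3 = ((x, n), false) := rfl
        unfold par at hp
        rw [e0, e1, e2, e3] at hp
        simp only [hv]
        revert hp
        generalize X ((x + 1, n), true) = b1
        generalize X ((x, n + 1), false) = b2
        generalize X ((x, n), true) = b3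
        generalize X ((x, n), false) = b4
        generalize X ((x, 0), false) = b5
        generalize G x n = b6
        generalize G (x + 1) n = b7
        revert b1 b2 b3 b4 b5 b6 b7
        decide) y
    rw [hc]
    simp only [h0]
    simp
  funext ⟨⟨x, y⟩, c⟩
  cases c
  · rw [cut_false]
    have hk := key x y
    simp only [hh]
    revert hk
    generalize X ((x, 0), false) = b1
    generalize X ((x, y), false) = b2
    generalize G x y = b3
    generalize G (x + 1) y = b4
    generalize F x = b5
    revert b1 b2 b3 b4 b5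
    decide
  · rw [cut_true]
    simp only [hv]
    generalize X ((x, y), true) = b1
    generalize G x y = b3
    generalize F x = b5
    revert b1 b3 b5
    decide

theorem cut_eq_iff {s t : Vx → Bool} : cut s = cut t ↔ s = t ∨ s = fun v => !(t v) := by
  constructor
  · intro h
    have hx : ∀ x y, xor (s (x + 1, y)) (t (x + 1, y)) = xor (s (x, y)) (t (x, y)) := by
      intro x y
      have h1 := congrFun h ((x, y), false)
      rw [cut_false, cut_false] at h1
      revert h1
      generalize s (x, y) = b1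
      generalize s (x + 1, y) = b2
      generalize t (x, y) = b3
      generalize t (x + 1, y) = b4
      revert b1 b2 b3 b4
      decide
    have hy : ∀ x y, xor (s (x, y + 1)) (t (x, y + 1)) = xor (s (x, y)) (t (x, y)) := by
      intro x y
      have h1 := congrFun h ((x, y), true)
      rw [cut_true, cut_true] at h1
      revert h1
      generalize s (x, y) = b1
      generalize s (x, y + 1) = b2
      generalize t (x, y) = b3
      generalize t (x, y + 1) = b4
      revert b1 b2 b3 b4
      decide
    have hc : ∀ x y, xor (s (x, y)) (t (x, y)) = xor (s (0, 0)) (t (0, 0)) := by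
      intro x y
      rw [const_of_succ (g := fun y => xor (s (x, y)) (t (x, y))) (fun n => hy x n) y]
      exact const_of_succ (g := fun x => xor (s (x, 0)) (t (x, 0))) (fun n => hx n 0) x
    cases hd : xor (s (0, 0)) (t (0, 0))
    · left
      funext ⟨x, y⟩
      have h2 := hc x y
      rw [hd] at h2
      revert h2
      cases s (x, y) <;> cases t (x, y) <;> simp
    · right
      funext ⟨x, y⟩
      have h2 := hc x y
      rw [hd] at h2
      revert h2
      cases s (x, y) <;> cases t (x, y) <;> simp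
  · rintro (rfl | rfl)
    · rfl
    · funext e
      show xor (!(t (pa e))) (!(t (pb e))) = xor (t (pa e)) (t (pb e))
      cases t (pa e) <;> cases t (pb e) <;> rfl

/-- a finite even edge set is the cut of a finite set of vertices -/
theorem exists_fin_cut {C : Finset Ed} (h : IsCyc C) : ∃ A : Finset Vx, ind C = cut (indV A) := by
  classical
  obtain ⟨s, hs⟩ := exists_cut h
  -- a bound for the coordinates of the edges of `C`
  obtain ⟨M, hM⟩ : ∃ M : ℤ, 0 ≤ M ∧ ∀ e ∈ C, |e.1.1| < M ∧ |e.1.2| < M := by
    refine ⟨∑ e ∈ C, (|e.1.1| + |e.1.2|) + 1, ?_, ?_⟩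
    · have : 0 ≤ ∑ e ∈ C, (|e.1.1| + |e.1.2|) := Finset.sum_nonneg fun e _ => by positivity
      omega
    · intro e he
      have h1 : |e.1.1| + |e.1.2| ≤ ∑ e ∈ C, (|e.1.1| + |e.1.2|) :=
        Finset.single_le_sum (f := fun e : Ed => |e.1.1| + |e.1.2|)
          (fun e _ => by positivity) he
      have h2 := abs_nonneg e.1.1
      have h3 := abs_nonneg e.1.2
      constructor <;> omega
  obtain ⟨hM0, hM⟩ := hM
  have hnot : ∀ e : Ed, M ≤ |e.1.1| ∨ M ≤ |e.1.2| → ind C e = false := by
    intro e he
    have : e ∉ C := fun h1 => by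
      have := hM e h1
      omega
    simp [ind, this]
  have hrow : ∀ x y : ℤ, M ≤ |y| → s (x + 1, y) = s (x, y) := by
    intro x y hy
    have h1 := hnot ((x, y), false) (Or.inr hy)
    rw [hs, cut_false] at h1
    revert h1
    cases s (x, y) <;> cases s (x + 1, y) <;> simp
  have hcol : ∀ x y : ℤ, M ≤ |x| → s (x, y + 1) = s (x, y) := by
    intro x y hx
    have h1 := hnot ((x, y), true) (Or.inl hx)
    rw [hs, cut_true] at h1
    revert h1
    cases s (x, y) <;> cases s (x, y + 1) <;> simp
  have hrow' : ∀ x x' y : ℤ, M ≤ |y| → s (x, y) = s (x', y) := by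
    intro x x' y hy
    rw [const_of_succ (g := fun x => s (x, y)) (fun n => hrow n y hy) x,
      const_of_succ (g := fun x => s (x, y)) (fun n => hrow n y hy) x']
  have hcol' : ∀ x y y' : ℤ, M ≤ |x| → s (x, y) = s (x, y') := by
    intro x y y' hx
    rw [const_of_succ (g := fun y => s (x, y)) (fun n => hcol x n hx) y,
      const_of_succ (g := fun y => s (x, y)) (fun n => hcol x n hx) y']
  have hMM : M ≤ |M| := le_abs_self M
  have hout : ∀ x y : ℤ, M ≤ |x| ∨ M ≤ |y| → s (x, y) = s (M, M) := by
    rintro x y (hx | hy)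
    · rw [hcol' x y M hx]
      exact hrow' x M M hMM
    · rw [hrow' x M y hy]
      exact hcol' M y M hMM
  refine ⟨(Finset.Icc (-M) M ×ˢ Finset.Icc (-M) M).filter
    (fun v => xor (s v) (s (M, M)) = true), ?_⟩
  have hind : indV ((Finset.Icc (-M) M ×ˢ Finset.Icc (-M) M).filter
      (fun v => xor (s v) (s (M, M)) = true)) = fun v => xor (s v) (s (M, M)) := by
    funext ⟨x, y⟩
    unfold indV
    rw [Bool.eq_iff_iff, decide_eq_true_iff, Finset.mem_filter]
    by_cases hb : (x, y) ∈ Finset.Icc (-M) M ×ˢ Finset.Icc (-M) M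
    · simp only [hb, true_and]
    · have h1 : M ≤ |x| ∨ M ≤ |y| := by
        by_contra hcon
        push Not at hcon
        apply hb
        rw [Finset.mem_product, Finset.mem_Icc, Finset.mem_Icc]
        have h2 := abs_lt.mp hcon.1
        have h3 := abs_lt.mp hcon.2
        exact ⟨⟨h2.1.le, h2.2.le⟩, ⟨h3.1.le, h3.2.le⟩⟩
      simp only [hb, false_and]
      rw [hout x y h1]
      simp
  rw [hs, hind]
  cases hc : s (M, M)
  · congr 1
    funext v
    simp
  · rw [cut_eq_iff]
    right
    funext v
    simp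

theorem exists_cyc_cut (A : Finset Vx) : ∃ C : Finset Ed, IsCyc C ∧ ind C = cut (indV A) := by
  refine ⟨bd pa pb hlf2 A, ?_, mem_bd_iff A hlf2⟩
  intro v
  rw [mem_bd_iff A hlf2]
  exact par_cut _ v

/-- T-joins that are locally minimal correspond to weak ground states -/
theorem mem_GJ_iff {J : Ed → ℝ} (hJ : ∀ e, J e ≠ 0) (U : Ed → Bool) :
    U ∈ GJ J ↔ ∃ s, U = bx (ng J) (cut s) ∧ WGS pa pb hlf2 J s := by
  constructor
  · rintro ⟨h1, h2⟩
    obtain ⟨s, hs⟩ := exists_cut (X := bx (ng J) U) (by
      intro v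
      rw [par_bx, h1 v]
      unfold fr
      simp)
    have hU : U = bx (ng J) (cut s) := by rw [← hs, bx_cancel']
    refine ⟨s, hU, ?_⟩
    intro A
    rw [← en_eq, ← hU]
    apply h2
    intro v
    rw [mem_bd_iff A hlf2]
    exact par_cut _ v
  · rintro ⟨s, rfl, hs⟩
    refine ⟨?_, ?_⟩
    · intro v
      rw [par_bx, par_cut]
      unfold fr
      simp
    · intro C hC
      obtain ⟨A, hA⟩ := exists_fin_cut hC
      have hCA : C = bd pa pb hlf2 A := by
        apply ind_injective
        rw [hA, mem_bd_iff]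
      rw [hCA, en_eq]
      exact hs A

/-- reachability of T-joins and of spin configurations -/
theorem reach_iff {J : Ed → ℝ} (hJ : ∀ e, J e ≠ 0) (s t : Vx → Bool) (K : ℝ) :
    Reach (wt J) (bx (ng J) (cut s)) (bx (ng J) (cut t)) K ↔ Bar pa pb hlf2 J s t K := by
  classical
  have key : ∀ (D : Finset Vx) (e : Ed),
      (bx (bx (ng J) (cut s)) (ind (bd pa pb hlf2 D)) e = bx (ng J) (cut t) e ↔
        cut (Pool.Agent.Helper23.EA.flip s D) e = cut t e) := by
    intro D e
    rw [mem_bd_iff, cut_flip, bx_assoc]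
    unfold bx
    cases ng J e <;> simp
  constructor
  · intro h B
    obtain ⟨M, hM0, hM⟩ : ∃ M : ℤ, 0 ≤ M ∧ ∀ v ∈ B, |v.1| ≤ M ∧ |v.2| ≤ M := by
      refine ⟨∑ v ∈ B, (|v.1| + |v.2|), ?_, ?_⟩
      · exact Finset.sum_nonneg fun e _ => by positivity
      · intro v hv
        have h1 : |v.1| + |v.2| ≤ ∑ v ∈ B, (|v.1| + |v.2|) :=
          Finset.single_le_sum (f := fun v : Vx => |v.1| + |v.2|)
            (fun v _ => by positivity) hv
        have h2 := abs_nonneg v.1
        have h3 := abs_nonneg v.2
        constructor <;> omega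
    obtain ⟨X, hX1, hX2, hX3⟩ := h ((Finset.Icc (-M) M ×ˢ Finset.Icc (-M) M) ×ˢ
      (Finset.univ : Finset Bool))
    obtain ⟨D, hD⟩ := exists_fin_cut hX1
    have hXD : X = bd pa pb hlf2 D := by
      apply ind_injective
      rw [hD, mem_bd_iff]
    subst hXD
    refine ⟨D, ?_, by rw [← en_eq]; exact hX3⟩
    set r := Pool.Agent.Helper23.EA.flip s D with hr
    have hx : ∀ x y, -M ≤ x → x ≤ M → -M ≤ y → y ≤ M →
        xor (r (x + 1, y)) (t (x + 1, y)) = xor (r (x, y)) (t (x, y)) := by
      intro x y h1 h2 h3 h4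
      have h5 := (key D ((x, y), false)).mp (hX2 _ (by
        simp only [Finset.mem_product, Finset.mem_Icc, Finset.mem_univ, and_true]
        exact ⟨⟨h1, h2⟩, ⟨h3, h4⟩⟩))
      rw [← hr, cut_false, cut_false] at h5
      revert h5
      generalize r (x, y) = b1
      generalize r (x + 1, y) = b2
      generalize t (x, y) = b3
      generalize t (x + 1, y) = b4
      revert b1 b2 b3 b4
      decide
    have hy : ∀ x y, -M ≤ x → x ≤ M → -M ≤ y → y ≤ M →
        xor (r (x, y + 1)) (t (x, y + 1)) = xor (r (x, y)) (t (x, y)) := by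
      intro x y h1 h2 h3 h4
      have h5 := (key D ((x, y), true)).mp (hX2 _ (by
        simp only [Finset.mem_product, Finset.mem_Icc, Finset.mem_univ, and_true]
        exact ⟨⟨h1, h2⟩, ⟨h3, h4⟩⟩))
      rw [← hr, cut_true, cut_true] at h5
      revert h5
      generalize r (x, y) = b1
      generalize r (x, y + 1) = b2
      generalize t (x, y) = b3
      generalize t (x, y + 1) = b4
      revert b1 b2 b3 b4
      decide
    have hc : ∀ x y, -M ≤ x → x ≤ M → -M ≤ y → y ≤ M →
        xor (r (x, y)) (t (x, y)) = xor (r (-M, -M)) (t (-M, -M)) := by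
      intro x y h1 h2 h3 h4
      rw [const_of_Icc (g := fun y => xor (r (x, y)) (t (x, y)))
        (fun n h5 h6 => hy x n h1 h2 h5 h6) y h3 h4]
      exact const_of_Icc (g := fun x => xor (r (x, -M)) (t (x, -M)))
        (fun n h5 h6 => hx n (-M) h5 h6 le_rfl (by omega)) x h1 h2
    cases hd : xor (r (-M, -M)) (t (-M, -M))
    · left
      rintro ⟨x, y⟩ hv
      have h1 := hM _ hv
      have h2 := abs_le.mp h1.1
      have h3 := abs_le.mp h1.2
      have h4 := hc x y h2.1 h2.2 h3.1 h3.2
      rw [hd] at h4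
      revert h4
      cases r (x, y) <;> cases t (x, y) <;> simp
    · right
      rintro ⟨x, y⟩ hv
      have h1 := hM _ hv
      have h2 := abs_le.mp h1.1
      have h3 := abs_le.mp h1.2
      have h4 := hc x y h2.1 h2.2 h3.1 h3.2
      rw [hd] at h4
      revert h4
      cases r (x, y) <;> cases t (x, y) <;> simp
  · intro h F
    obtain ⟨D, h1, h2⟩ := h (F.image pa ∪ F.image pb)
    refine ⟨bd pa pb hlf2 D, ?_, ?_, by rw [en_eq]; exact h2⟩
    · intro v
      rw [mem_bd_iff]
      exact par_cut _ v
    · intro e he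
      rw [key]
      have ha : pa e ∈ F.image pa ∪ F.image pb :=
        Finset.mem_union_left _ (Finset.mem_image_of_mem _ he)
      have hb : pb e ∈ F.image pa ∪ F.image pb :=
        Finset.mem_union_right _ (Finset.mem_image_of_mem _ he)
      unfold cut
      rcases h1 with h1 | h1
      · rw [h1 _ ha, h1 _ hb]
      · rw [h1 _ ha, h1 _ hb]
        cases t (pa e) <;> cases t (pb e) <;> rfl

/-- alias of `mem_GJ_iff` -/
theorem mem_GJ_cut {J : Ed → ℝ} (hJ : ∀ e, J e ≠ 0) (U : Ed → Bool) :
    U ∈ GJ J ↔ ∃ s, U = bx (ng J) (cut s) ∧ WGS pa pb hlf2 J s := mem_GJ_iff hJ U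

end Pool.Agent.Helper60.TJ
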