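import Pool.Agent.Helper60.TJ.Defs

set_option autoImplicit false

/-! Spin configurations and ground states of the Edwards-Anderson model on `ℤ²`. -/

namespace Pool.Agent.Helper60.TJ

/-- `σ` is an infinite-volume ground state of the Edwards-Anderson model on `ℤ²` with couplings `J`
(`pa e`, `pb e` are the end points of the edge `e`): a `±1` configuration such that every `±1`
configuration which differs from `σ` at finitely many (and at least one) vertices has larger
energy. -/
def IsGroundState (J : Ed → ℝ) (σ : Vx → ℝ) : Prop :=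
  (∀ x, σ x = 1 ∨ σ x = -1) ∧
    ∀ ρ : Vx → ℝ, (∀ x, ρ x = 1 ∨ ρ x = -1) → {x | ρ x ≠ σ x}.Finite → ρ ≠ σ →
      0 < ∑ᶠ e : Ed, J e * (σ (pa e) * σ (pb e) - ρ (pa e) * ρ (pb e))

end Pool.Agent.Helper60.TJ
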