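import Pool.Agent.Helper60.TJ.A1
import Pool.Agent.Helper60.TJ.Spin

set_option autoImplicit false

/-! TJ-A2: the number of ground states is twice the number of locally minimal T-joins. -/

namespace Pool.Agent.Helper60.TJ

open Pool.Agent.Helper23.EA Pool.Agent.Helper42.EA

/-- every `±1` configuration is Boolean -/
private theorem exists_bool2 (σ : Vx → ℝ) (h : ∀ x, σ x = 1 ∨ σ x = -1) :
    ∃ s : Vx → Bool, σ = sp ∘ s := by
  classical
  refine ⟨fun x => decide (σ x = 1), ?_⟩
  funext x
  rcases h x with h | h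
  · simp [h, sp]
  · have : ¬ ((-1 : ℝ) = 1) := by norm_num
    simp [h, sp, this]

/-- the flip energy as a `finsum` -/
private theorem finsum_flip2 (J : Ed → ℝ) (s : Vx → Bool) (A : Finset Vx) :
    (∑ᶠ e : Ed, J e * ((sp ∘ s) (pa e) * (sp ∘ s) (pb e)
      - (sp ∘ (Pool.Agent.Helper23.EA.flip s A)) (pa e)
        * (sp ∘ (Pool.Agent.Helper23.EA.flip s A)) (pb e)))
      = 2 * En pa pb hlf2 J s A := by
  classical
  rw [finsum_eq_sum_of_support_subset (s := bd pa pb hlf2 A)]
  · unfold En
    rw [Finset.mul_sum]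
    refine Finset.sum_congr rfl fun e he => ?_
    simp only [Function.comp]
    rw [sp_flip_bd pa pb hlf2 _ _ _ he]
    ring
  · intro e he
    by_contra hne
    apply he
    show J e * ((sp ∘ s) (pa e) * (sp ∘ s) (pb e)
      - (sp ∘ (Pool.Agent.Helper23.EA.flip s A)) (pa e)
        * (sp ∘ (Pool.Agent.Helper23.EA.flip s A)) (pb e)) = 0
    simp only [Function.comp]
    rw [sp_flip_not_bd pa pb hlf2 _ _ _ hne]
    ring

private theorem flip_ne2 (s : Vx → Bool) (A : Finset Vx) (hA : A.Nonempty) :
    sp ∘ (Pool.Agent.Helper23.EA.flip s A) ≠ sp ∘ s := by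
  classical
  obtain ⟨v, hv⟩ := hA
  intro h
  have h1 := sp_injective (congrFun h v)
  simp [Pool.Agent.Helper23.EA.flip, hv] at h1

private theorem flip_fin2 (s : Vx → Bool) (A : Finset Vx) :
    {x | (sp ∘ (Pool.Agent.Helper23.EA.flip s A)) x ≠ (sp ∘ s) x}.Finite := by
  classical
  refine A.finite_toSet.subset fun x hx => ?_
  by_contra h
  apply hx
  have h' : x ∉ A := h
  simp [Pool.Agent.Helper23.EA.flip, h']

/-- ground states in terms of flip energies -/
private theorem gs_iff2 (J : Ed → ℝ) (s : Vx → Bool) :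
    IsGroundState J (sp ∘ s) ↔ ∀ A : Finset Vx, A.Nonempty → 0 < En pa pb hlf2 J s A := by
  classical
  constructor
  · rintro ⟨_, h⟩ A hA
    have := h (sp ∘ (Pool.Agent.Helper23.EA.flip s A)) (fun x => sp_eq_or _) (flip_fin2 s A)
      (flip_ne2 s A hA)
    rw [finsum_flip2] at this
    linarith
  · intro h
    refine ⟨fun x => sp_eq_or _, fun σ' hσ' hfin hne => ?_⟩
    obtain ⟨t, rfl⟩ := exists_bool2 σ' hσ'
    set A : Finset Vx := hfin.toFinset with hA
    have ht : t = Pool.Agent.Helper23.EA.flip s A := by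
      funext x
      unfold Pool.Agent.Helper23.EA.flip
      by_cases hx : x ∈ A
      · have hx' : (sp ∘ t) x ≠ (sp ∘ s) x := by simpa [hA] using hx
        have : t x ≠ s x := fun h => hx' (by simp [h])
        simp only [hx, if_true]
        cases h1 : t x <;> cases h2 : s x <;> simp_all
      · have hx' : (sp ∘ t) x = (sp ∘ s) x := by
          by_contra hc; exact hx (by simpa [hA] using hc)
        simp only [hx, if_false]
        exact sp_injective hx'
    rw [ht, finsum_flip2]
    have hAne : A.Nonempty := by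
      rw [Finset.nonempty_iff_ne_empty]
      intro h0
      apply hne
      rw [ht, h0]
      funext x; simp [Pool.Agent.Helper23.EA.flip]
    have := h A hAne
    linarith

/-- the flip energy is the cost of the boundary -/
private theorem En_eq_en (J : Ed → ℝ) (s : Vx → Bool) (A : Finset Vx) :
    En pa pb hlf2 J s A = en (wt J) (bx (ng J) (cut s)) (bd pa pb hlf2 A) := by
  unfold En en
  refine Finset.sum_congr rfl fun e _ => ?_
  have h1 : sg (bx (ng J) (cut s) e) = sg (ng J e) * sg (cut s e) := by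
    unfold bx; rw [sg_xor]
  have h2 : |J e| * sg (ng J e) = J e := by
    unfold ng sg
    by_cases h : J e < 0
    · rw [abs_of_neg h]; simp [h]
    · rw [abs_of_nonneg (not_lt.1 h)]; simp [h]
  have h3 : sg (cut s e) = sp (s (pa e)) * sp (s (pb e)) := by
    unfold cut sg sp
    cases s (pa e) <;> cases s (pb e) <;> simp
  rw [h1, h3]
  unfold wt
  rw [← mul_assoc |J e|, h2]

private theorem bd_ne2 (A : Finset Vx) (hA : A.Nonempty) : (bd pa pb hlf2 A).Nonempty := by
  obtain ⟨v, hv, hmax⟩ := A.exists_max_image (fun v => v.1) hA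
  refine ⟨(v, false), ?_⟩
  rw [mem_bd]
  left
  refine ⟨hv, fun h => ?_⟩
  have := hmax _ h
  simp [pb] at this

private theorem WGS_not {J : Ed → ℝ} {s : Vx → Bool} (h : WGS pa pb hlf2 J s) :
    WGS pa pb hlf2 J (fun v => !(s v)) := by
  intro A
  have : En pa pb hlf2 J (fun v => !(s v)) A = En pa pb hlf2 J s A := by
    unfold En
    refine Finset.sum_congr rfl fun e _ => ?_
    rw [sp_not, sp_not]
    ring
  rw [this]
  exact h A

theorem encard_spin {J : Ed → ℝ} (hJ : ∀ e, J e ≠ 0) (hnt : NT (wt J)) :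
    {σ : Vx → ℝ | IsGroundState J σ}.encard = 2 * (GJ J).encard := by
  classical
  set S : Set (Vx → Bool) := {s | WGS pa pb hlf2 J s} with hS
  have h1 : {σ : Vx → ℝ | IsGroundState J σ} = (fun s : Vx → Bool => sp ∘ s) '' S := by
    ext σ
    constructor
    · intro h
      obtain ⟨s, rfl⟩ := exists_bool2 σ h.1
      refine ⟨s, fun A => ?_, rfl⟩
      by_cases hA : A.Nonempty
      · exact ((gs_iff2 J s).1 h A hA).le
      · rw [Finset.not_nonempty_iff_eq_empty] at hA
        subst hA
        rw [En_empty]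
    · rintro ⟨s, hs, rfl⟩
      refine (gs_iff2 J s).2 fun A hA => ?_
      refine lt_of_le_of_ne (hs A) (Ne.symm ?_)
      rw [En_eq_en]
      exact hnt _ (bd_ne2 A hA) _
  have hinj : Function.Injective (fun s : Vx → Bool => sp ∘ s) := by
    intro s t h
    funext v
    exact sp_injective (congrFun h v)
  rw [h1, hinj.encard_image]
  set S0 : Set (Vx → Bool) := {s | s ∈ S ∧ s 0 = false} with hS0
  set S1 : Set (Vx → Bool) := {s | s ∈ S ∧ s 0 = true} with hS1
  have hU : S = S0 ∪ S1 := by
    ext s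
    constructor
    · intro hs
      cases h : s 0
      · exact Or.inl ⟨hs, h⟩
      · exact Or.inr ⟨hs, h⟩
    · rintro (h | h)
      · exact h.1
      · exact h.1
  have hD : Disjoint S0 S1 := by
    rw [Set.disjoint_left]
    rintro s ⟨_, h1⟩ ⟨_, h2⟩
    rw [h1] at h2
    exact Bool.noConfusion h2
  have hneg : Function.Injective (fun (s : Vx → Bool) (v : Vx) => !(s v)) := by
    intro s t h
    funext v
    have := congrFun h v
    simpa using this
  have hS1eq : S1 = (fun (s : Vx → Bool) (v : Vx) => !(s v)) '' S0 := by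
    ext s
    constructor
    · rintro ⟨hs, h0⟩
      refine ⟨fun v => !(s v), ⟨WGS_not hs, by simp [h0]⟩, ?_⟩
      funext v; simp
    · rintro ⟨t, ⟨ht, h0⟩, rfl⟩
      exact ⟨WGS_not ht, by simp [h0]⟩
  have hG : GJ J = (fun s : Vx → Bool => bx (ng J) (cut s)) '' S0 := by
    ext U
    rw [mem_GJ_cut hJ]
    constructor
    · rintro ⟨s, rfl, hs⟩
      cases h : s 0
      · exact ⟨s, ⟨hs, h⟩, rfl⟩
      · refine ⟨fun v => !(s v), ⟨WGS_not hs, by simp [h]⟩, ?_⟩
        have : cut (fun v => !(s v)) = cut s := by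
          rw [cut_eq_iff]
          exact Or.inr rfl
        simp only [this]
    · rintro ⟨s, ⟨hs, _⟩, rfl⟩
      exact ⟨s, rfl, hs⟩
  have hinj2 : Set.InjOn (fun s : Vx → Bool => bx (ng J) (cut s)) S0 := by
    rintro s ⟨_, hs0⟩ t ⟨_, ht0⟩ h
    have h2 : cut s = cut t := by
      have h3 : bx (ng J) (cut s) = bx (ng J) (cut t) := h
      calc cut s = bx (ng J) (bx (ng J) (cut s)) := (bx_cancel' _ _).symm
        _ = bx (ng J) (bx (ng J) (cut t)) := by rw [h3]
        _ = cut t := bx_cancel' _ _
    rcases cut_eq_iff.1 h2 with h3 | h3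
    · exact h3
    · exfalso
      have h4 := congrFun h3 0
      rw [hs0] at h4
      simp [ht0] at h4
  rw [hG, hinj2.encard_image, hU, Set.encard_union_eq hD, hS1eq, hneg.encard_image, two_mul]

end Pool.Agent.Helper60.TJ
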