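import Pool.Agent.Helper60.TJ.Basic

set_option autoImplicit false

/-! TJ-B: toggling a finite set of plaquettes; class energies (deterministic). -/

namespace Pool.Agent.Helper60.TJ

open scoped symmDiff

/-- the class energy: infimum of the costs of the finite edge sets with the boundary of `D` -/
noncomputable def Ei (w : Ed → ℝ) (U : Ed → Bool) (D : Finset Ed) : ℝ :=
  sInf {r | ∃ X : Finset Ed, par (ind X) = par (ind D) ∧ r = en w U X}

namespace B

theorem bddBelow {w : Ed → ℝ} (hw : ∀ e, 0 ≤ w e) {T : Vx → Bool} {U : Ed → Bool} (hU : U ∈ GS w T)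
    (D : Finset Ed) :
    BddBelow {r | ∃ X : Finset Ed, par (ind X) = par (ind D) ∧ r = en w U X} := by
  refine ⟨- tw w D, ?_⟩
  rintro r ⟨X, hX, rfl⟩
  have h1 := hU.2 (X ∆ D) (isCyc_symmDiff_of_eq hX)
  have h2 := en_symmDiff_le hw U X D
  linarith

theorem nonempty {w : Ed → ℝ} {U : Ed → Bool} (D : Finset Ed) :
    {r | ∃ X : Finset Ed, par (ind X) = par (ind D) ∧ r = en w U X}.Nonempty :=
  ⟨en w U D, D, rfl, rfl⟩

theorem exists_near {w : Ed → ℝ} {U : Ed → Bool} (D : Finset Ed) {δ : ℝ} (hδ : 0 < δ) :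
    ∃ X : Finset Ed, par (ind X) = par (ind D) ∧ en w U X < Ei w U D + δ := by
  have h := exists_lt_of_csInf_lt (nonempty (w := w) (U := U) D)
    (show Ei w U D < Ei w U D + δ by linarith)
  obtain ⟨r, ⟨X, hX, rfl⟩, hr⟩ := h
  exact ⟨X, hX, hr⟩

theorem exists_min (w : Ed → ℝ) (U : Ed → Bool) (D : Finset Ed) :
    ∃ V : Ed → Bool, ∀ (F : Finset Ed) (δ : ℝ), 0 < δ → ∃ X : Finset Ed,
      par (ind X) = par (ind D) ∧ en w U X ≤ Ei w U D + δ ∧ ∀ e ∈ F, bx U (ind X) e = V e := by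
  classical
  have h0 : ∀ n : ℕ, ∃ X : Finset Ed, par (ind X) = par (ind D) ∧
      en w U X < Ei w U D + 1 / ((n : ℝ) + 1) := fun n => exists_near D (by positivity)
  choose X hX hXe using h0
  let 𝒰 : Ultrafilter ℕ := Filter.hyperfilter ℕ
  refine ⟨fun e => decide (∀ᶠ n in (𝒰 : Filter ℕ), bx U (ind (X n)) e = true), ?_⟩
  intro F δ hδ
  have h1 : ∀ e, ∀ᶠ n in (𝒰 : Filter ℕ), bx U (ind (X n)) e =
      decide (∀ᶠ n in (𝒰 : Filter ℕ), bx U (ind (X n)) e = true) := by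
    intro e
    by_cases h : ∀ᶠ n in (𝒰 : Filter ℕ), bx U (ind (X n)) e = true
    · simp only [h, decide_true]
    · have h' := (Ultrafilter.eventually_not (f := 𝒰)).2 h
      simp only [h, decide_false]
      filter_upwards [h'] with n hn
      simpa using hn
  have h2 : ∀ᶠ n in (𝒰 : Filter ℕ), ∀ e ∈ F, bx U (ind (X n)) e =
      decide (∀ᶠ n in (𝒰 : Filter ℕ), bx U (ind (X n)) e = true) := by
    rw [Filter.eventually_all_finset]
    intro e _
    exact h1 e
  have h3 : ∀ᶠ n : ℕ in (𝒰 : Filter ℕ), 1 / ((n : ℝ) + 1) ≤ δ := by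
    have h4 : ∀ᶠ n : ℕ in Filter.atTop, 1 / ((n : ℝ) + 1) ≤ δ := by
      have := tendsto_one_div_add_atTop_nhds_zero_nat (𝕜 := ℝ)
      exact (this.eventually (Iio_mem_nhds hδ)).mono fun n hn => le_of_lt hn
    exact (Nat.hyperfilter_le_atTop) h4
  obtain ⟨n, hn, hn'⟩ := (h2.and h3).exists
  exact ⟨X n, hX n, (hXe n).le.trans (by linarith), hn⟩

theorem en_eq (w : Ed → ℝ) (U V : Ed → Bool) (X Y : Finset Ed) (h : ∀ e ∈ Y, bx U (ind X) e = V e) :
    en w V Y = en w U (X ∆ Y) - en w U X := by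
  rw [en_symmDiff, en_congr h]; ring

end B

theorem Ei_le {w : Ed → ℝ} (hw : ∀ e, 0 ≤ w e) {T : Vx → Bool} {U : Ed → Bool} (hU : U ∈ GS w T)
    {D X : Finset Ed} (hX : par (ind X) = par (ind D)) : Ei w U D ≤ en w U X :=
  csInf_le (B.bddBelow hw hU D) ⟨X, hX, rfl⟩

/-- the T-joins after toggling the boundary of `D` -/
theorem exists_dual {w : Ed → ℝ} (hw : ∀ e, 0 ≤ w e) {T : Vx → Bool} (hIB : IB w T)
    (D : Finset Ed) :
    ∃ f : (Ed → Bool) → (Ed → Bool), Set.InjOn f (GS w T) ∧ ∀ U ∈ GS w T,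
      f U ∈ GS w (vx T (par (ind D))) ∧ - Ei w U D ≤ Ei w (f U) D := by
  classical
  choose f hf using fun U => B.exists_min w U D
  have key : ∀ {T : Vx → Bool} {U : Ed → Bool}, U ∈ GS w T →
      f U ∈ GS w (vx T (par (ind D))) ∧ - Ei w U D ≤ Ei w (f U) D := by
    intro T U hU
    refine ⟨⟨?_, ?_⟩, ?_⟩
    · intro v
      obtain ⟨X, hX, -, hXf⟩ := hf U (Finset.univ.image (edg v)) 1 one_pos
      have h1 : par (f U) v = par (bx U (ind X)) v := by
        unfold par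
        rw [hXf (edg v 0) (by simp), hXf (edg v 1) (by simp), hXf (edg v 2) (by simp),
          hXf (edg v 3) (by simp)]
      rw [h1, par_bx, hU.1 v, hX]
      rfl
    · intro C hC
      refine le_of_forall_pos_le_add fun δ hδ => ?_
      obtain ⟨X, hX, hXe, hXf⟩ := hf U C δ hδ
      rw [B.en_eq w U (f U) X C hXf]
      have hp : par (ind (X ∆ C)) = par (ind D) := by
        rw [par_ind_symmDiff, hX, (isCyc_iff C).1 hC]
        funext v; simp [vx]
      have := Ei_le hw hU hp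
      linarith
    · refine le_csInf (B.nonempty D) ?_
      rintro r ⟨Y, hY, rfl⟩
      refine le_of_forall_pos_le_add fun δ hδ => ?_
      obtain ⟨X, hX, hXe, hXf⟩ := hf U Y δ hδ
      rw [B.en_eq w U (f U) X Y hXf]
      have := hU.2 (X ∆ Y) (isCyc_symmDiff_of_eq (by rw [hX, hY]))
      linarith
  have back : ∀ {U : Ed → Bool}, U ∈ GS w T → f (f U) ∈ GS w T ∧
      ∃ K, Reach w U (f (f U)) K := by
    intro U hU
    have h1 := (key hU).1
    have h2 := (key h1).1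
    have h3 : vx (vx T (par (ind D))) (par (ind D)) = T := by
      rw [vx_assoc, vx_self, vx_false]
    rw [h3] at h2
    refine ⟨h2, (Ei w U D + 1) + (Ei w (f U) D + 1), ?_⟩
    intro F
    obtain ⟨Y, hY, hYe, hYf⟩ := hf (f U) F 1 one_pos
    obtain ⟨X, hX, hXe, hXf⟩ := hf U (F ∪ Y) 1 one_pos
    refine ⟨X ∆ Y, isCyc_symmDiff_of_eq (by rw [hX, hY]), ?_, ?_⟩
    · intro e he
      rw [← hYf e he]
      have h4 := hXf e (Finset.mem_union_left _ he)
      rw [ind_symmDiff, ← bx_assoc]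
      unfold bx at h4 ⊢
      rw [h4]
    · have h5 := B.en_eq w U (f U) X Y fun e he => hXf e (Finset.mem_union_right _ he)
      linarith
  refine ⟨f, ?_, fun U hU => key hU⟩
  intro U hU U' hU' hff
  obtain ⟨h1, K, hK⟩ := back hU
  obtain ⟨h1', K', hK'⟩ := back hU'
  have h2 : U = f (f U) := by
    by_contra h
    exact hIB U hU _ h1 h K hK
  have h2' : U' = f (f U') := by
    by_contra h
    exact hIB U' hU' _ h1' h K' hK'
  rw [h2, h2', hff]

namespace B

/-- upper bound for the sum of the two class energies -/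
theorem upper {w : Ed → ℝ} (hw : ∀ e, 0 ≤ w e) {T : Vx → Bool} {x x' : Vx}
    {D : Finset Ed} (hD : par (ind D) = vx (dl x) (dl x')) {M : ℝ}
    {U U' : Ed → Bool} (hU : U ∈ GS w T) (hU' : U' ∈ GS w T) (hne : U ≠ U')
    (hx : Near w (bx U U') x M) (hx' : Near w (bx U U') x' M) :
    Ei w U D + Ei w U' D ≤ 4 * M := by
  classical
  have h0 : ∃ e, bx U U' e = true := by
    by_contra h
    push Not at h
    exact hne ((bx_eq_false_iff U U').1 fun e => by simpa using h e)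
  obtain ⟨e, he⟩ := h0
  obtain ⟨v, d, rfl⟩ := exists_edg e
  have hv : OnW (bx U U') v := ⟨d, he⟩
  obtain ⟨v1, hv1, R, hR, hRM⟩ := hx v hv
  obtain ⟨v2, hv2, R', hR', hRM'⟩ := hx' v hv
  obtain ⟨X, hXW, hX⟩ := hv1.symm.trans hv2
  have hpar : par (ind ((X ∆ R) ∆ R')) = par (ind D) := by
    rw [par_ind_symmDiff, par_ind_symmDiff, hR, hR', hX, hD]
    funext z
    unfold vx
    cases dl v1 z <;> cases dl v2 z <;> cases dl x z <;> cases dl x' z <;> rfl
  have h1 := Ei_le hw hU hpar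
  have h2 := Ei_le hw hU' hpar
  have h3 := en_symmDiff_le hw U (X ∆ R) R'
  have h4 := en_symmDiff_le hw U X R
  have h5 := en_symmDiff_le hw U' (X ∆ R) R'
  have h6 := en_symmDiff_le hw U' X R
  have h7 := en_wall (w := w) hXW
  linarith

end B

/-- two classes only: the sum of the two class energies is bounded (for later use). -/
theorem hdet2 {w : Ed → ℝ} (hw : ∀ e, 0 ≤ w e) {T : Vx → Bool} (hIB : IB w T) {x x' : Vx}
    {D : Finset Ed} (hD : par (ind D) = vx (dl x) (dl x')) {M : ℝ}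
    (hn : ∀ U ∈ GS w T, ∀ U' ∈ GS w T, U ≠ U' → Near w (bx U U') x M ∧ Near w (bx U U') x' M)
    (hn' : ∀ U ∈ GS w (vx T (par (ind D))), ∀ U' ∈ GS w (vx T (par (ind D))), U ≠ U' →
      Near w (bx U U') x M ∧ Near w (bx U U') x' M) :
    ∀ U ∈ GS w T, ∀ U' ∈ GS w T, U ≠ U' → |Ei w U D + Ei w U' D| ≤ 4 * M := by
  obtain ⟨f, hf, hfd⟩ := exists_dual hw hIB D
  intro U hU U' hU' hne
  rw [abs_le]
  constructor
  · obtain ⟨h1, h2⟩ := hfd U hU
    obtain ⟨h1', h2'⟩ := hfd U' hU'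
    have hne' : f U ≠ f U' := fun h => hne (hf hU hU' h)
    obtain ⟨hx, hx'⟩ := hn' _ h1 _ h1' hne'
    have := B.upper hw hD h1 h1' hne' hx hx'
    linarith
  · obtain ⟨hx, hx'⟩ := hn U hU U' hU' hne
    exact B.upper hw hD hU hU' hne hx hx'

/-- three classes with walls near `x` and `x'` before and after toggling `x, x'`: all energies of
wall segments from `x` to `x'` are bounded. -/
theorem hdet {w : Ed → ℝ} (hw : ∀ e, 0 ≤ w e) {T : Vx → Bool} (hIB : IB w T) {x x' : Vx}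
    {D : Finset Ed} (hD : par (ind D) = vx (dl x) (dl x')) {M : ℝ}
    (h3 : ∀ U ∈ GS w T, ∀ U' ∈ GS w T, ∃ U'' ∈ GS w T, U'' ≠ U ∧ U'' ≠ U')
    (hn : ∀ U ∈ GS w T, ∀ U' ∈ GS w T, U ≠ U' → Near w (bx U U') x M ∧ Near w (bx U U') x' M)
    (hn' : ∀ U ∈ GS w (vx T (par (ind D))), ∀ U' ∈ GS w (vx T (par (ind D))), U ≠ U' →
      Near w (bx U U') x M ∧ Near w (bx U U') x' M) :
    ∀ U ∈ GS w T, ∀ U' ∈ GS w T, U ≠ U' → ∀ X : Finset Ed, (∀ e ∈ X, bx U U' e = true) →
      par (ind X) = vx (dl x) (dl x') → |en w U X| ≤ 6 * M := by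
  intro U hU U' hU' hne X hXW hX
  obtain ⟨U'', hU'', hne1, hne2⟩ := h3 U hU U' hU'
  have h1 := abs_le.1 (hdet2 hw hIB hD hn hn' U hU U' hU' hne)
  have h2 := abs_le.1 (hdet2 hw hIB hD hn hn' U hU U'' hU'' hne1.symm)
  have h3 := abs_le.1 (hdet2 hw hIB hD hn hn' U' hU' U'' hU'' hne2.symm)
  have hp : par (ind X) = par (ind D) := by rw [hX, hD]
  have h4 := Ei_le hw hU hp
  have h5 := Ei_le hw hU' hp
  have h6 := en_wall (w := w) hXW
  rw [abs_le]
  constructor <;> linarith [h1.1, h1.2, h2.1, h2.2, h3.1, h3.2]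

end Pool.Agent.Helper60.TJ
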