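import Pool.Agent.Helper60.TJ.C0

set_option autoImplicit false

/-! TJ-C1: measurable enumeration of the locally minimal T-joins. -/

namespace Pool.Agent.Helper60.TJ

open MeasureTheory

theorem exists_sel (μ : Measure ℝ) [IsProbabilityMeasure μ] (k : ℕ)
    (h : ∀ᵐ J ∂(PP μ), Nice k J) :
    ∃ f : Fin k → (Ed → ℝ) → (Ed → Bool), (∀ i, Measurable (f i)) ∧
      ∀ᵐ J ∂(PP μ), Function.Injective (fun i => f i J) ∧ GJ J = Set.range (fun i => f i J) := by
  obtain ⟨s, h1, h2⟩ := exists_selectors k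
  refine ⟨s, h1, ?_⟩
  filter_upwards [h] with J hJ
  obtain ⟨h3, h4, h5⟩ := h2 J hJ.fin hJ.card
  refine ⟨fun i j hij => ?_, ?_⟩
  · by_contra hne
    exact h4 i j hne hij
  · ext U
    constructor
    · intro hU
      obtain ⟨i, hi⟩ := h5 U hU
      exact ⟨i, hi⟩
    · rintro ⟨i, rfl⟩
      exact h3 i

end Pool.Agent.Helper60.TJ
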