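import Pool.Agent.Helper60.TJ.C1

set_option autoImplicit false

/-! TJ-C2: the counting measure `Q` on pairs. -/

namespace Pool.Agent.Helper60.TJ

open MeasureTheory

theorem exists_Q (μ : Measure ℝ) [IsProbabilityMeasure μ] (k : ℕ)
    (h : ∀ᵐ J ∂(PP μ), Nice k J) : ∃ Q : Measure XX, IsQ μ k Q :=
  exists_isQ h

end Pool.Agent.Helper60.TJ
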