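import Pool.Agent.Helper60.TJ.C0

set_option autoImplicit false

/-! TJ-D: walls contain no cycles and have no vertices of degree four. -/

namespace Pool.Agent.Helper60.TJ

open MeasureTheory

/-- a wall contains no finite cycle -/
theorem acyc {w : Ed → ℝ} {T : Vx → Bool} {U U' : Ed → Bool} (hU : U ∈ GS w T)
    (hU' : U' ∈ GS w T) (hnt : NT w) {C : Finset Ed} (hC : IsCyc C)
    (h : ∀ e ∈ C, bx U U' e = true) : C = ∅ := by
  by_contra hne
  have h1 := hU.2 C hC
  have h2 := hU'.2 C hC
  rw [en_wall h] at h2
  exact hnt C (Finset.nonempty_iff_ne_empty.2 hne) U (le_antisymm (by linarith) h1)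

namespace Dx

open Classical in
/-- vertices of degree four in the box -/
noncomputable def v4 (W : Ed → Bool) (L : ℕ) : Finset Vx :=
  (box L).filter fun v => ∀ d, W (edg v d) = true

open Classical in
/-- vertices of the wall in the box -/
noncomputable def v1 (W : Ed → Bool) (L : ℕ) : Finset Vx :=
  (box L).filter fun v => OnW W v

/-- wall edges with an end point in the box (as the image of the incidences) -/
noncomputable def inc (W : Ed → Bool) (L : ℕ) : Finset (Vx × Dir) :=
  (box L ×ˢ (Finset.univ : Finset Dir)).filter fun q => W (edg q.1 q.2) = true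

noncomputable def fed (W : Ed → Bool) (L : ℕ) : Finset Ed :=
  (inc W L).image fun q => edg q.1 q.2

theorem mem_box {L : ℕ} {v : Vx} : v ∈ box L ↔ (-(L : ℤ) ≤ v.1 ∧ v.1 ≤ L) ∧ (-(L : ℤ) ≤ v.2 ∧ v.2 ≤ L) := by
  unfold box
  simp [Finset.mem_product]

theorem card_box (L : ℕ) : (box L).card = (2 * L + 1) ^ 2 := by
  unfold box
  rw [Finset.card_product, Int.card_Icc]
  have : ((L : ℤ) + 1 - -(L : ℤ)).toNat = 2 * L + 1 := by omega
  rw [this]; ring

theorem box_subset (L : ℕ) : box L ⊆ box (L + 1) := by
  intro v hv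
  rw [mem_box] at hv ⊢
  push_cast
  omega

theorem card_outer (L : ℕ) : (box (L + 1) \ box L).card = 8 * L + 8 := by
  have h := Finset.card_sdiff_add_card_eq_card (box_subset L)
  rw [card_box, card_box] at h
  have h2 : (2 * (L + 1) + 1) ^ 2 = (2 * L + 1) ^ 2 + (8 * L + 8) := by ring
  omega

/-- half of the incidences -/
theorem card_inc_le (W : Ed → Bool) (L : ℕ) : (inc W L).card ≤ 2 * (fed W L).card := by
  classical
  have hs := Finset.card_filter_add_card_filter_not (s := inc W L) (fun q => q.2 = 0 ∨ q.2 = 1)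
  have h1 : ((inc W L).filter (fun q => q.2 = 0 ∨ q.2 = 1)).card ≤ (fed W L).card := by
    apply Finset.card_le_card_of_injOn (fun q => edg q.1 q.2)
    · intro q hq
      have hq' := (Finset.mem_filter.1 hq).1
      exact Finset.mem_image_of_mem _ hq'
    · rintro ⟨⟨a, b⟩, d⟩ hq ⟨⟨a', b'⟩, d'⟩ hq' h
      have h3 := (Finset.mem_filter.1 hq).2
      have h4 := (Finset.mem_filter.1 hq').2
      simp only at h3 h4
      rcases h3 with rfl | rfl <;> rcases h4 with rfl | rfl <;> simp [edg] at h ⊢ <;> exact h
  have h2 : ((inc W L).filter (fun q => ¬(q.2 = 0 ∨ q.2 = 1))).card ≤ (fed W L).card := by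
    apply Finset.card_le_card_of_injOn (fun q => edg q.1 q.2)
    · intro q hq
      have hq' := (Finset.mem_filter.1 hq).1
      exact Finset.mem_image_of_mem _ hq'
    · rintro ⟨⟨a, b⟩, d⟩ hq ⟨⟨a', b'⟩, d'⟩ hq' h
      have h3 := (Finset.mem_filter.1 hq).2
      have h4 := (Finset.mem_filter.1 hq').2
      simp only at h3 h4
      fin_cases d <;> fin_cases d' <;> simp [edg] at h h3 h4 ⊢ <;> exact h
  omega

theorem card_inc_ge {W : Ed → Bool} (hpar : ∀ v, par W v = false) (L : ℕ) :
    2 * (v1 W L).card + 2 * (v4 W L).card ≤ (inc W L).card := by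
  classical
  have h1 : (inc W L).card = ∑ v ∈ box L, ((Finset.univ : Finset Dir).filter
      fun d => W (edg v d) = true).card := by
    unfold inc
    rw [Finset.card_filter, Finset.sum_product]
    refine Finset.sum_congr rfl fun v _ => ?_
    rw [Finset.card_filter]
  rw [h1]
  unfold v1 v4
  rw [Finset.card_filter, Finset.card_filter, Finset.mul_sum, Finset.mul_sum,
    ← Finset.sum_add_distrib]
  refine Finset.sum_le_sum fun v _ => ?_
  have hp := hpar v
  unfold par at hp
  rw [Finset.card_filter, Fin.sum_univ_four]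
  have h2 : OnW W v ↔ (W (edg v 0) = true ∨ W (edg v 1) = true ∨ W (edg v 2) = true ∨
      W (edg v 3) = true) := by
    unfold OnW
    constructor
    · rintro ⟨d, hd⟩
      fin_cases d <;> simp_all
    · rintro (h | h | h | h)
      exacts [⟨0, h⟩, ⟨1, h⟩, ⟨2, h⟩, ⟨3, h⟩]
  have h3 : (∀ d, W (edg v d) = true) ↔ (W (edg v 0) = true ∧ W (edg v 1) = true ∧
      W (edg v 2) = true ∧ W (edg v 3) = true) := by
    constructor
    · intro h; exact ⟨h 0, h 1, h 2, h 3⟩
    · rintro ⟨a, b, c, d⟩ e
      fin_cases e <;> assumption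
  simp only [h2, h3]
  revert hp
  cases W (edg v 0) <;> cases W (edg v 1) <;> cases W (edg v 2) <;> cases W (edg v 3) <;> simp

theorem fed_sub {W : Ed → Bool} {L : ℕ} {e : Ed} (he : e ∈ fed W L) : W e = true := by
  unfold fed at he
  rw [Finset.mem_image] at he
  obtain ⟨q, hq, rfl⟩ := he
  exact (Finset.mem_filter.1 hq).2

theorem edg_eq_edg {v v' : Vx} {d d' : Dir} (h : edg v d = edg v' d') (hv : v ≠ v') :
    v = v' + stp d' := by
  obtain ⟨a, b⟩ := v
  obtain ⟨a', b'⟩ := v'
  fin_cases d <;> fin_cases d' <;> simp [edg, stp] at h hv ⊢ <;> omega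

/-- the boundary map is injective on subsets of the wall -/
theorem card_fed_le {w : Ed → ℝ} {T : Vx → Bool} {U U' : Ed → Bool} (hU : U ∈ GS w T)
    (hU' : U' ∈ GS w T) (hnt : NT w) (L : ℕ) :
    (fed (bx U U') L).card ≤ (v1 (bx U U') L).card + (8 * L + 8) := by
  classical
  set W := bx U U' with hW
  set TT : Finset Vx := v1 W L ∪ (box (L + 1) \ box L) with hTT
  have hcard : TT.card ≤ (v1 W L).card + (8 * L + 8) := by
    rw [← card_outer L]
    exact Finset.card_union_le _ _
  refine le_trans ?_ hcard
  -- vertices outside TT have no edge of fed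
  have hout : ∀ X : Finset Ed, X ⊆ fed W L → ∀ v, v ∉ TT → par (ind X) v = false := by
    intro X hX v hv
    have hno : ∀ d, edg v d ∉ X := by
      intro d hd
      have h1 := hX hd
      have hWe : W (edg v d) = true := fed_sub h1
      unfold fed at h1
      rw [Finset.mem_image] at h1
      obtain ⟨⟨v', d'⟩, hq, he⟩ := h1
      have hv' : v' ∈ box L := (Finset.mem_product.1 (Finset.mem_filter.1 hq).1).1
      by_cases hvv : v = v'
      · subst hvv
        apply hv
        rw [hTT, Finset.mem_union]
        left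
        unfold v1
        rw [Finset.mem_filter]
        exact ⟨hv', d, hWe⟩
      · have h2 := edg_eq_edg he.symm hvv
        simp only at h2
        apply hv
        rw [hTT, Finset.mem_union]
        by_cases hb : v ∈ box L
        · left
          unfold v1
          rw [Finset.mem_filter]
          exact ⟨hb, d, hWe⟩
        · right
          rw [Finset.mem_sdiff]
          refine ⟨?_, hb⟩
          rw [mem_box] at hv' ⊢
          rw [h2]
          push_cast
          fin_cases d' <;> simp [stp] <;> omega
    unfold par ind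
    simp [hno]
  have hinj : (fed W L).powerset.card ≤ TT.powerset.card := by
    apply Finset.card_le_card_of_injOn (fun X => TT.filter fun v => par (ind X) v = true)
    · intro X _
      exact Finset.mem_coe.2 (Finset.mem_powerset.2 (Finset.filter_subset _ _))
    · intro X hX Y hY hXY
      have hX' : X ⊆ fed W L := Finset.mem_powerset.1 hX
      have hY' : Y ⊆ fed W L := Finset.mem_powerset.1 hY
      have hpar : par (ind X) = par (ind Y) := by
        funext v
        by_cases hv : v ∈ TT
        · have h1 := congrArg (fun S => v ∈ S) hXY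
          simp only [Finset.mem_filter, hv, true_and] at h1
          cases h2 : par (ind X) v <;> cases h3 : par (ind Y) v <;> simp_all
        · rw [hout X hX' v hv, hout Y hY' v hv]
      have hcy := isCyc_symmDiff_of_eq hpar
      have h0 := acyc hU hU' hnt hcy (by
        intro e he
        rw [Finset.mem_symmDiff] at he
        rcases he with h | h
        · exact fed_sub (hX' h.1)
        · exact fed_sub (hY' h.1))
      exact symmDiff_eq_bot.1 h0
  rw [Finset.card_powerset, Finset.card_powerset] at hinj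
  exact (Nat.pow_le_pow_iff_right (by norm_num)).1 hinj

theorem card_v4_le {w : Ed → ℝ} {T : Vx → Bool} {U U' : Ed → Bool} (hU : U ∈ GS w T)
    (hU' : U' ∈ GS w T) (hnt : NT w) (L : ℕ) : (v4 (bx U U') L).card ≤ 8 * L + 8 := by
  have h1 := card_inc_ge (par_wall hU hU') L
  have h2 := card_inc_le (bx U U') L
  have h3 := card_fed_le hU hU' hnt L
  omega

/-- degree four at `v` -/
def D4 (v : Vx) : Set XX := {p | ∀ d, wl p (edg v d) = true}

theorem measurableSet_D4 (v : Vx) : MeasurableSet (D4 v) := by
  unfold D4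
  rw [Set.ofPred_forall]
  refine MeasurableSet.iInter fun d => ?_
  exact ((measurable_pi_apply (edg v d)).comp measurable_wl) (measurableSet_singleton true)

theorem D4_eq (v : Vx) : D4 v = shX v ⁻¹' D4 0 := by
  ext p
  simp only [D4, Set.mem_ofPred_eq, Set.mem_preimage, wl_shX, sh_edg, zero_add]

end Dx

open Dx in
/-- counting: in a finite forest with all interior degrees even, at most as many interior vertices
of degree four as outer boundary vertices -/
theorem deg_two {μ : Measure ℝ} [IsProbabilityMeasure μ] {k : ℕ} {Q : Measure XX}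
    (hQ : IsQ μ k Q) : ∀ᵐ p ∂Q, Deg2 (wl p) := by
  classical
  have hD : ∀ v, Q (D4 v) = Q (D4 0) := fun v => by
    rw [D4_eq v]
    exact (hQ.inv v).measure_preimage (measurableSet_D4 0).nullMeasurableSet
  have hbound : ∀ L : ℕ, ((2 * L + 1) ^ 2 : ℕ) * Q (D4 0) ≤ (8 * L + 8 : ℕ) * (k * (k - 1) : ℕ) := by
    intro L
    have h1 : ∑ v ∈ box L, Q (D4 v) = ((2 * L + 1) ^ 2 : ℕ) * Q (D4 0) := by
      rw [Finset.sum_congr rfl fun v _ => hD v, Finset.sum_const, card_box, nsmul_eq_mul]
    rw [← h1]
    have h2 : ∑ v ∈ box L, Q (D4 v) = ∫⁻ p, ∑ v ∈ box L, (D4 v).indicator 1 p ∂Q := by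
      rw [lintegral_finsetSum _ fun v _ => measurable_one.indicator (measurableSet_D4 v)]
      refine Finset.sum_congr rfl fun v _ => ?_
      rw [lintegral_indicator_one (measurableSet_D4 v)]
    rw [h2]
    calc ∫⁻ p, ∑ v ∈ box L, (D4 v).indicator 1 p ∂Q ≤ ∫⁻ _, ((8 * L + 8 : ℕ) : ENNReal) ∂Q := by
          refine lintegral_mono_ae ?_
          filter_upwards [hQ.nice] with p hp
          have h3 := card_v4_le hp.2.1 hp.2.2.1 hp.1.nt L
          have h4 : ∑ v ∈ box L, (D4 v).indicator (1 : XX → ENNReal) p = ((v4 (wl p) L).card : ENNReal) := by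
            unfold v4
            rw [Finset.card_filter, Nat.cast_sum]
            refine Finset.sum_congr rfl fun v _ => ?_
            by_cases hv : p ∈ D4 v
            · have hv' : ∀ d, wl p (edg v d) = true := hv
              rw [Set.indicator_of_mem hv, if_pos hv']; simp
            · have hv' : ¬ ∀ d, wl p (edg v d) = true := hv
              rw [Set.indicator_of_notMem hv, if_neg hv']; simp
          rw [h4]
          exact_mod_cast h3
      _ = (8 * L + 8 : ℕ) * (k * (k - 1) : ℕ) := by
          rw [lintegral_const, hQ.univ_eq]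
  have hzero : Q (D4 0) = 0 := by
    by_contra hne
    have hfin : Q (D4 0) ≠ ⊤ := by
      refine ne_top_of_le_ne_top ?_ (measure_mono (Set.subset_univ _))
      rw [hQ.univ_eq]; exact ENNReal.natCast_ne_top _
    set q := (Q (D4 0)).toReal with hq
    have hqpos : 0 < q := ENNReal.toReal_pos hne hfin
    have hreal : ∀ L : ℕ, ((2 * L + 1) ^ 2 : ℝ) * q ≤ (8 * L + 8) * (k * (k - 1) : ℕ) := by
      intro L
      have h := ENNReal.toReal_mono (ENNReal.mul_ne_top (ENNReal.natCast_ne_top _)
        (ENNReal.natCast_ne_top _)) (hbound L)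
      rw [ENNReal.toReal_mul, ENNReal.toReal_mul, ENNReal.toReal_natCast, ENNReal.toReal_natCast,
        ENNReal.toReal_natCast] at h
      push_cast at h ⊢
      exact h
    obtain ⟨L, hL⟩ := exists_nat_gt (8 * ((k * (k - 1) : ℕ) : ℝ) / q)
    have h1 := hreal L
    have h2 : 8 * ((k * (k - 1) : ℕ) : ℝ) < L * q := by
      rwa [div_lt_iff₀ hqpos] at hL
    have h3 : (0 : ℝ) ≤ L := Nat.cast_nonneg L
    nlinarith
  have hall : ∀ᵐ p ∂Q, ∀ v, p ∉ D4 v := by
    rw [ae_all_iff]
    intro v
    rw [ae_iff]
    simp only [not_not]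
    have : {a | a ∈ D4 v} = D4 v := rfl
    rw [this, hD v, hzero]
  filter_upwards [hQ.nice, hall] with p hp h4
  refine ⟨par_wall hp.2.1 hp.2.2.1, fun v => ?_⟩
  by_contra hcon
  apply h4 v
  intro d
  by_contra hd
  exact hcon ⟨d, by simpa using hd⟩

end Pool.Agent.Helper60.TJ
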