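import Pool.Agent.Helper60.TJ.Basic

set_option autoImplicit false

/-! TJ-E1: recombination lemma in a box (deterministic). -/

namespace Pool.Agent.Helper60.TJ

open scoped symmDiff

namespace E1

/-! ### the boundary circle -/

theorem mem_box {L : ℕ} {v : Vx} :
    v ∈ box L ↔ -(L : ℤ) ≤ v.1 ∧ v.1 ≤ L ∧ -(L : ℤ) ≤ v.2 ∧ v.2 ≤ L := by
  unfold box
  simp only [Finset.mem_product, Finset.mem_Icc]
  tauto

theorem mem_ebox {L : ℕ} {e : Ed} : e ∈ ebox L ↔ da e ∈ box L ∧ db e ∈ box L := by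
  unfold ebox da
  simp only [Finset.mem_filter, Finset.mem_product, Finset.mem_univ, and_true]

theorem mem_circ {L : ℕ} {e : Ed} :
    e ∈ circ L ↔ e ∈ ebox L ∧ onB L (da e) ∧ onB L (db e) := by
  unfold circ
  simp only [Finset.mem_filter]

/-- the end points of an edge -/
theorem ends (v : Vx) (d : Dir) :
    (da (edg v d) = v ∧ db (edg v d) = v + stp d) ∨ (da (edg v d) = v + stp d ∧ db (edg v d) = v) := by
  obtain ⟨x, y⟩ := v
  fin_cases d
  · right; simp [da, db, edg, stp]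
  · right; simp [da, db, edg, stp]
  · left; simp [da, db, edg, stp]; ring
  · left; simp [da, db, edg, stp]; ring

theorem edg_mem_ebox {L : ℕ} {v : Vx} {d : Dir} :
    edg v d ∈ ebox L ↔ v ∈ box L ∧ v + stp d ∈ box L := by
  rw [mem_ebox]
  rcases ends v d with ⟨h1, h2⟩ | ⟨h1, h2⟩
  · rw [h1, h2]
  · rw [h1, h2]; tauto

theorem edg_mem_circ {L : ℕ} {v : Vx} {d : Dir} :
    edg v d ∈ circ L ↔ (v ∈ box L ∧ v + stp d ∈ box L) ∧ onB L v ∧ onB L (v + stp d) := by
  rw [mem_circ, edg_mem_ebox]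
  rcases ends v d with ⟨h1, h2⟩ | ⟨h1, h2⟩
  · rw [h1, h2]
  · rw [h1, h2]; tauto

/-- vertices joined along the circle -/
def Jn (L : ℕ) (v v' : Vx) : Prop :=
  ∃ Y : Finset Ed, Y ⊆ circ L ∧ par (ind Y) = vx (dl v) (dl v')

theorem Jn.refl (L : ℕ) (v : Vx) : Jn L v v := ⟨∅, by simp, by rw [par_empty, vx_self]⟩

theorem Jn.symm {L : ℕ} {v v' : Vx} (h : Jn L v v') : Jn L v' v := by
  obtain ⟨Y, h1, h2⟩ := h
  exact ⟨Y, h1, by rw [h2, vx_comm]⟩

theorem symmDiff_sub {X Y Z : Finset Ed} (h1 : X ⊆ Z) (h2 : Y ⊆ Z) : X ∆ Y ⊆ Z := by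
  intro e he
  rw [Finset.mem_symmDiff] at he
  rcases he with h | h
  · exact h1 h.1
  · exact h2 h.1

theorem Jn.trans {L : ℕ} {u v v' : Vx} (h : Jn L u v) (h' : Jn L v v') : Jn L u v' := by
  obtain ⟨X, h1, h2⟩ := h
  obtain ⟨Y, h3, h4⟩ := h'
  exact ⟨X ∆ Y, symmDiff_sub h1 h3, by rw [par_ind_symmDiff, h2, h4, vx_trans]⟩

theorem Jn.step {L : ℕ} {v : Vx} {d : Dir}
    (h : (v ∈ box L ∧ v + stp d ∈ box L) ∧ onB L v ∧ onB L (v + stp d)) : Jn L v (v + stp d) :=
  ⟨{edg v d}, by simpa using edg_mem_circ.2 h, par_edg v d⟩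

/-- a straight line on the circle -/
theorem jn_line (L : ℕ) (v : Vx) (d : Dir) (n : ℕ)
    (h : ∀ i : ℕ, i ≤ n → v + (i : ℤ) • stp d ∈ box L ∧ onB L (v + (i : ℤ) • stp d)) :
    Jn L v (v + (n : ℤ) • stp d) := by
  induction n with
  | zero => simpa using Jn.refl L v
  | succ n ih =>
    have h1 := ih fun i hi => h i (by omega)
    have h2 := h n (by omega)
    have h3 := h (n + 1) le_rfl
    have h4 : v + ((n + 1 : ℕ) : ℤ) • stp d = (v + (n : ℤ) • stp d) + stp d := by
      push_cast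
      rw [add_smul, one_smul, add_assoc]
    rw [h4] at h3 ⊢
    exact h1.trans (Jn.step ⟨⟨h2.1, h3.1⟩, h2.2, h3.2⟩)

theorem jn_corner {L : ℕ} {v : Vx} (hv : v ∈ box L) (hB : onB L v) :
    Jn L (-(L : ℤ), -(L : ℤ)) v := by
  obtain ⟨a, b⟩ := v
  rw [mem_box] at hv
  simp only at hv
  obtain ⟨h1, h2, h3, h4⟩ := hv
  -- bottom side
  have bot : ∀ a : ℤ, -(L : ℤ) ≤ a → a ≤ L → Jn L (-(L : ℤ), -(L : ℤ)) (a, -(L : ℤ)) := by
    intro a ha ha'
    have := jn_line L (-(L : ℤ), -(L : ℤ)) 0 (a + L).toNat (by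
      intro i hi
      have hi' : (i : ℤ) ≤ a + L := by omega
      constructor
      · rw [mem_box]; simp [stp]; omega
      · unfold onB; simp [stp])
    have e1 : ((-(L : ℤ), -(L : ℤ)) : Vx) + (((a + L).toNat : ℕ) : ℤ) • stp 0 = (a, -(L : ℤ)) := by
      rw [Int.toNat_of_nonneg (by omega)]
      simp [stp]
    rwa [e1] at this
  have lef : ∀ b : ℤ, -(L : ℤ) ≤ b → b ≤ L → Jn L (-(L : ℤ), -(L : ℤ)) (-(L : ℤ), b) := by
    intro b hb hb'
    have := jn_line L (-(L : ℤ), -(L : ℤ)) 1 (b + L).toNat (by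
      intro i hi
      have hi' : (i : ℤ) ≤ b + L := by omega
      constructor
      · rw [mem_box]; simp [stp]; omega
      · unfold onB; simp [stp])
    have e1 : ((-(L : ℤ), -(L : ℤ)) : Vx) + (((b + L).toNat : ℕ) : ℤ) • stp 1 = (-(L : ℤ), b) := by
      rw [Int.toNat_of_nonneg (by omega)]
      simp [stp]
    rwa [e1] at this
  have rig : ∀ b : ℤ, -(L : ℤ) ≤ b → b ≤ L → Jn L ((L : ℤ), -(L : ℤ)) ((L : ℤ), b) := by
    intro b hb hb'
    have := jn_line L ((L : ℤ), -(L : ℤ)) 1 (b + L).toNat (by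
      intro i hi
      have hi' : (i : ℤ) ≤ b + L := by omega
      constructor
      · rw [mem_box]; simp [stp]; omega
      · unfold onB; simp [stp])
    have e1 : (((L : ℤ), -(L : ℤ)) : Vx) + (((b + L).toNat : ℕ) : ℤ) • stp 1 = ((L : ℤ), b) := by
      rw [Int.toNat_of_nonneg (by omega)]
      simp [stp]
    rwa [e1] at this
  have top : ∀ a : ℤ, -(L : ℤ) ≤ a → a ≤ L → Jn L (-(L : ℤ), (L : ℤ)) (a, (L : ℤ)) := by
    intro a ha ha'
    have := jn_line L (-(L : ℤ), (L : ℤ)) 0 (a + L).toNat (by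
      intro i hi
      have hi' : (i : ℤ) ≤ a + L := by omega
      constructor
      · rw [mem_box]; simp [stp]; omega
      · unfold onB; simp [stp])
    have e1 : ((-(L : ℤ), (L : ℤ)) : Vx) + (((a + L).toNat : ℕ) : ℤ) • stp 0 = (a, (L : ℤ)) := by
      rw [Int.toNat_of_nonneg (by omega)]
      simp [stp]
    rwa [e1] at this
  unfold onB at hB
  simp only at hB
  rcases hB with rfl | rfl | rfl | rfl
  · exact (bot L (by omega) le_rfl).trans (rig b h3 h4)
  · exact lef b h3 h4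
  · exact (lef L (by omega) le_rfl).trans (top a h1 h2)
  · exact bot a h1 h2

/-! ### handshake -/

/-- number of odd vertices in `B` modulo two -/
def ph (B : Finset Vx) (S : Vx → Bool) : ZMod 2 := ∑ v ∈ B, if S v then 1 else 0

theorem ph_vx (B : Finset Vx) (S T : Vx → Bool) : ph B (vx S T) = ph B S + ph B T := by
  unfold ph
  rw [← Finset.sum_add_distrib]
  refine Finset.sum_congr rfl fun v _ => ?_
  unfold vx
  cases S v <;> cases T v <;> simp
  decide

theorem ph_dl {B : Finset Vx} {v : Vx} (hv : v ∈ B) : ph B (dl v) = 1 := by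
  unfold ph dl
  simp [hv]

theorem ph_par (X : Finset Ed) (B : Finset Vx) (hB : ∀ e ∈ X, da e ∈ B ∧ db e ∈ B) :
    ph B (par (ind X)) = 0 := by
  classical
  induction X using Finset.induction_on with
  | empty => rw [par_empty]; simp [ph]
  | insert e X he ih =>
    have h1 : insert e X = {e} ∆ X := by
      ext f
      simp only [Finset.mem_insert, Finset.mem_symmDiff, Finset.mem_singleton]
      constructor
      · rintro (rfl | h)
        · exact Or.inl ⟨rfl, he⟩
        · exact Or.inr ⟨h, fun hh => he (hh ▸ h)⟩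
      · rintro (⟨h, -⟩ | ⟨h, -⟩)
        · exact Or.inl h
        · exact Or.inr h
    rw [h1, par_ind_symmDiff, ph_vx, ih fun f hf => hB f (Finset.mem_insert_of_mem hf), add_zero]
    obtain ⟨v, d, rfl⟩ := exists_edg e
    have h2 := hB _ (Finset.mem_insert_self _ _)
    have h3 : v ∈ B ∧ v + stp d ∈ B := by
      rcases ends v d with ⟨a1, a2⟩ | ⟨a1, a2⟩ <;> rw [a1, a2] at h2 <;> tauto
    rw [par_edg, ph_vx, ph_dl h3.1, ph_dl h3.2]
    decide

/-- a finite edge set cannot have exactly one odd vertex -/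
theorem no_single {X : Finset Ed} {c : Vx} (h : ∀ v, v ≠ c → par (ind X) v = false) :
    par (ind X) c = false := by
  classical
  by_contra hc
  have hc : par (ind X) c = true := by simpa using hc
  have h1 : par (ind X) = dl c := by
    funext v
    by_cases hv : v = c
    · subst hv; simp [hc, dl]
    · rw [h v hv]; simp [dl, hv]
  let B : Finset Vx := insert c (X.image da ∪ X.image db)
  have h2 := ph_par X B (by
    intro e he
    refine ⟨?_, ?_⟩
    · exact Finset.mem_insert_of_mem (Finset.mem_union_left _ (Finset.mem_image_of_mem _ he))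
    · exact Finset.mem_insert_of_mem (Finset.mem_union_right _ (Finset.mem_image_of_mem _ he)))
  rw [h1, ph_dl (Finset.mem_insert_self _ _)] at h2
  exact absurd h2 (by decide)

theorem close_aux {L : ℕ} (S : Finset Vx) (hS : ∀ v ∈ S, v ∈ box L ∧ onB L v) :
    ∃ Y : Finset Ed, Y ⊆ circ L ∧ ∀ v, v ≠ (-(L : ℤ), -(L : ℤ)) → par (ind Y) v = decide (v ∈ S) := by
  classical
  induction S using Finset.induction_on with
  | empty => exact ⟨∅, by simp, fun v _ => by rw [par_empty]; simp⟩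
  | insert a S ha ih =>
    obtain ⟨Y, hY, hYp⟩ := ih fun v hv => hS v (Finset.mem_insert_of_mem hv)
    obtain ⟨h1, h2⟩ := hS a (Finset.mem_insert_self _ _)
    obtain ⟨Z, hZ, hZp⟩ := jn_corner h1 h2
    refine ⟨Y ∆ Z, symmDiff_sub hY hZ, ?_⟩
    intro v hv
    rw [par_ind_symmDiff, hZp]
    unfold vx dl
    rw [hYp v hv]
    by_cases h3 : v = a
    · subst h3; simp [ha, hv]
    · simp [h3, hv]

end E1

/-- closing up along the boundary circle -/
theorem exists_close {L : ℕ} {X : Finset Ed} (hX : ∀ v, par (ind X) v = true → v ∈ box L ∧ onB L v) :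
    ∃ Y : Finset Ed, Y ⊆ circ L ∧ par (ind Y) = par (ind X) := by
  classical
  let S : Finset Vx := (box L).filter fun v => par (ind X) v = true
  obtain ⟨Y, hY, hYp⟩ := E1.close_aux (L := L) S (by
    intro v hv
    exact hX v (Finset.mem_filter.1 hv).2)
  refine ⟨Y, hY, ?_⟩
  have h1 : ∀ v, v ≠ (-(L : ℤ), -(L : ℤ)) → par (ind (X ∆ Y)) v = false := by
    intro v hv
    rw [par_ind_symmDiff]
    unfold vx
    rw [hYp v hv]
    by_cases h2 : par (ind X) v = true
    · have h3 : v ∈ S := Finset.mem_filter.2 ⟨(hX v h2).1, h2⟩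
      simp [h2, h3]
    · have h3 : v ∉ S := fun h => h2 (Finset.mem_filter.1 h).2
      simp [h2, h3]
  have h2 := E1.no_single h1
  have h3 : ∀ v, par (ind (X ∆ Y)) v = false := by
    intro v
    by_cases hv : v = (-(L : ℤ), -(L : ℤ))
    · rw [hv]; exact h2
    · exact h1 v hv
  funext v
  have h4 := h3 v
  rw [par_ind_symmDiff] at h4
  unfold vx at h4
  cases h5 : par (ind X) v <;> cases h6 : par (ind Y) v <;> simp_all

namespace E1

/-- interior-consistent subsets of `W` in the box -/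
def GG (L : ℕ) (W : Ed → Bool) (X : Finset Ed) : Prop :=
  (∀ e ∈ X, W e = true) ∧ ∀ v ∈ box L, ¬ onB L v → ∀ d d', W (edg v d) = true →
    W (edg v d') = true → (edg v d ∈ X ↔ edg v d' ∈ X)

theorem GG.symmDiff {L : ℕ} {W : Ed → Bool} {X Y : Finset Ed} (hX : GG L W X) (hY : GG L W Y) :
    GG L W (X ∆ Y) := by
  refine ⟨?_, ?_⟩
  · intro e he
    rw [Finset.mem_symmDiff] at he
    rcases he with h | h
    · exact hX.1 e h.1
    · exact hY.1 e h.1
  · intro v hv hB d d' hd hd'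
    rw [Finset.mem_symmDiff, Finset.mem_symmDiff, hX.2 v hv hB d d' hd hd',
      hY.2 v hv hB d d' hd hd']

theorem interior {L : ℕ} {v : Vx} (hv : v ∈ box L) (hB : ¬ onB L v) (d : Dir) :
    edg v d ∈ ebox L := by
  rw [edg_mem_ebox]
  refine ⟨hv, ?_⟩
  obtain ⟨x, y⟩ := v
  rw [mem_box] at hv ⊢
  unfold onB at hB
  push Not at hB
  simp only at hv hB
  fin_cases d <;> simp [stp] <;> omega

theorem gg_A {L : ℕ} {W A : Ed → Bool} (hA : Sat W A) :
    GG L W ((ebox L).filter fun e => A e = true) := by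
  refine ⟨?_, ?_⟩
  · intro e he
    exact hA.1 e (Finset.mem_filter.1 he).2
  · intro v hv hB d d' hd hd'
    simp only [Finset.mem_filter, interior hv hB, true_and]
    rw [hA.2 v d d' hd hd']

/-- odd vertices are on the boundary -/
theorem par_gg {L : ℕ} {W : Ed → Bool} (hW : ∀ v, par W v = false) {X : Finset Ed}
    (hXL : X ⊆ ebox L) (hX : GG L W X) (v : Vx) (hv : par (ind X) v = true) :
    v ∈ box L ∧ onB L v := by
  have h1 : ∃ d, edg v d ∈ X := by
    by_contra h
    push Not at h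
    unfold par at hv
    simp [ind, h] at hv
  obtain ⟨d, hd⟩ := h1
  have hvb : v ∈ box L := (edg_mem_ebox.1 (hXL hd)).1
  refine ⟨hvb, ?_⟩
  by_contra hB
  have h2 : ∀ d', ind X (edg v d') = W (edg v d') := by
    intro d'
    by_cases h3 : W (edg v d') = true
    · rw [h3, ind_eq_true, ← hX.2 v hvb hB d d' (hX.1 _ hd) h3]
      exact hd
    · have h4 : edg v d' ∉ X := fun h => h3 (hX.1 _ h)
      simp [ind, h4, h3]
  have h3 := hW v
  unfold par at h3 hv
  rw [h2, h2, h2, h2, h3] at hv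
  exact absurd hv (by simp)

theorem lower {w : Ed → ℝ} (hw : ∀ e, 0 ≤ w e) {T : Vx → Bool} {U : Ed → Bool}
    (hU : U ∈ GS w T) {L : ℕ} {X : Finset Ed}
    (hX : ∀ v, par (ind X) v = true → v ∈ box L ∧ onB L v) : - tw w (circ L) ≤ en w U X := by
  obtain ⟨Y, hY, hYp⟩ := exists_close hX
  have h1 := hU.2 (X ∆ Y) (isCyc_symmDiff_of_eq hYp.symm)
  have h2 := en_symmDiff_le hw U X Y
  have h3 := tw_mono hw hY
  linarith

theorem cyc_biUnion {C : Vx → Finset Ed} (Z : Finset Vx) (hC : ∀ z ∈ Z, IsCyc (C z))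
    (hdisj : ∀ z ∈ Z, ∀ z' ∈ Z, z ≠ z' → Disjoint (C z) (C z')) : IsCyc (Z.biUnion C) := by
  classical
  induction Z using Finset.induction_on with
  | empty => simpa using isCyc_empty
  | insert a Z ha ih =>
    rw [Finset.biUnion_insert]
    have h1 : Disjoint (C a) (Z.biUnion C) := by
      rw [Finset.disjoint_biUnion_right]
      intro z hz
      refine hdisj a (Finset.mem_insert_self _ _) z (Finset.mem_insert_of_mem hz) ?_
      rintro rfl; exact ha hz
    rw [← Finset.sup_eq_union, ← h1.symmDiff_eq_sup]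
    refine IsCyc.symmDiff (hC a (Finset.mem_insert_self _ _)) (ih ?_ ?_)
    · intro z hz; exact hC z (Finset.mem_insert_of_mem hz)
    · intro z hz z' hz' h
      exact hdisj z (Finset.mem_insert_of_mem hz) z' (Finset.mem_insert_of_mem hz') h

theorem inter_iff {X X0 C P : Finset Ed} (h : X ∩ C = P) (h0 : X0 ∩ C = P) {e : Ed} (he : e ∈ C) :
    e ∈ X ↔ e ∈ X0 := by
  have h3 : e ∈ X ∩ C ↔ e ∈ X0 ∩ C := by rw [h, h0]
  rw [Finset.mem_inter, Finset.mem_inter] at h3
  constructor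
  · intro h4; exact (h3.1 ⟨h4, he⟩).1
  · intro h4; exact (h3.2 ⟨h4, he⟩).1

theorem match_iff {X X0 E C : Finset Ed} {A : Ed → Bool} (hCE : C ⊆ E) {e : Ed} (he : e ∈ C)
    (h : e ∈ X ↔ e ∈ X0) : ind ((X ∆ X0) ∆ (E.filter fun e => A e = true)) e = A e := by
  have h4 : e ∈ (X ∆ X0) ∆ (E.filter fun e => A e = true) ↔ A e = true := by
    rw [Finset.mem_symmDiff, Finset.mem_symmDiff, Finset.mem_filter]
    have h5 := hCE he
    tauto
  unfold ind
  cases h5 : A e
  · rw [h5] at h4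
    simpa using h4
  · rw [h5] at h4
    simpa using h4

open Classical in
theorem count_one {L : ℕ} {W A : Ed → Bool} (hA : Sat W A) {C : Finset Ed} (hC : C ⊆ ebox L) :
    ((ebox L).powerset.filter fun X => GG L W X).card ≤
      (((ebox L).powerset.filter fun X => GG L W X).filter fun X => ∀ e ∈ C, ind X e = A e).card *
        C.powerset.card := by
  set G := (ebox L).powerset.filter fun X => GG L W X with hGdef
  have hG : ∀ {X : Finset Ed}, X ∈ G ↔ X ⊆ ebox L ∧ GG L W X := by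
    intro X; rw [hGdef, Finset.mem_filter, Finset.mem_powerset]
  refine Finset.card_le_mul_card_image_of_maps_to (f := fun X => X ∩ C) ?_ _ ?_
  · intro X _
    exact Finset.mem_powerset.2 Finset.inter_subset_right
  · intro P _
    rcases Finset.eq_empty_or_nonempty (G.filter fun X => X ∩ C = P) with hP | ⟨X0, hX0⟩
    · rw [hP]; simp
    · obtain ⟨hX0G, hX0P⟩ := Finset.mem_filter.1 hX0
      have hAf : (ebox L).filter (fun e => A e = true) ∈ G :=
        hG.2 ⟨Finset.filter_subset _ _, gg_A hA⟩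
      refine Finset.card_le_card_of_injOn
        (fun X => (X ∆ X0) ∆ ((ebox L).filter fun e => A e = true)) ?_ ?_
      · intro X hX
        obtain ⟨hXG, hXP⟩ := Finset.mem_filter.1 (Finset.mem_coe.1 hX)
        refine Finset.mem_coe.2 (Finset.mem_filter.2 ⟨?_, ?_⟩)
        · refine hG.2 ⟨?_, ?_⟩
          · exact symmDiff_sub (symmDiff_sub (hG.1 hXG).1 (hG.1 hX0G).1) (hG.1 hAf).1
          · exact ((hG.1 hXG).2.symmDiff (hG.1 hX0G).2).symmDiff (hG.1 hAf).2
        · intro e he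
          exact match_iff hC he (inter_iff hXP hX0P he)
      · intro X _ Y _ hXY
        have h2 : X ∆ X0 = Y ∆ X0 := symmDiff_left_injective _ hXY
        exact symmDiff_left_injective X0 h2

end E1

theorem recomb {w : Ed → ℝ} (hw : ∀ e, 0 ≤ w e) {T : Vx → Bool} {U U' : Ed → Bool}
    (hU : U ∈ GS w T) (hU' : U' ∈ GS w T) {L m : ℕ} {ε : ℝ} (hε : 0 ≤ ε) (Z : Finset Vx)
    (C : Vx → Finset Ed) (A : Vx → Ed → Bool)
    (hC : ∀ z ∈ Z, C z ⊆ ebox L ∧ (C z).card ≤ m ∧ IsCyc (C z))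
    (hdisj : ∀ z ∈ Z, ∀ z' ∈ Z, z ≠ z' → Disjoint (C z) (C z'))
    (hA : ∀ z ∈ Z, Sat (bx U U') (A z))
    (hneg : ∀ z ∈ Z, en w (bx U (A z)) (C z) ≤ -ε) :
    ε * Z.card ≤ 2 ^ (m + 1) * tw w (circ L) := by
  classical
  set W := bx U U' with hWdef
  have hW : ∀ v, par W v = false := fun v => par_wall hU hU' v
  let G : Finset (Finset Ed) := (ebox L).powerset.filter fun X => E1.GG L W X
  have hG : ∀ {X : Finset Ed}, X ∈ G ↔ X ⊆ ebox L ∧ E1.GG L W X := by
    intro X; simp only [G, Finset.mem_filter, Finset.mem_powerset]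
  let mt : Vx → Finset Ed → Prop := fun z X => ∀ e ∈ C z, ind X e = A z e
  have hGpos : 0 < G.card := Finset.card_pos.2 ⟨∅, hG.2 ⟨by simp, by simp [E1.GG]⟩⟩
  -- energy bound for one X
  have henergy : ∀ X ∈ G, ε * ((Z.filter fun z => mt z X).card : ℝ) ≤ 2 * tw w (circ L) := by
    intro X hX
    obtain ⟨hXL, hXG⟩ := hG.1 hX
    set Zm := Z.filter fun z => mt z X with hZm
    have hZmZ : Zm ⊆ Z := Finset.filter_subset _ _
    set M := Zm.biUnion C with hM
    have hMc : IsCyc M := E1.cyc_biUnion Zm (fun z hz => (hC z (hZmZ hz)).2.2)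
      fun z hz z' hz' h => hdisj z (hZmZ hz) z' (hZmZ hz') h
    have hpX := E1.par_gg hW hXL hXG
    have h1 := E1.lower hw hU' hpX
    have h2 : - tw w (circ L) ≤ en w U (X ∆ M) := by
      refine E1.lower hw hU ?_
      intro v hv
      refine hpX v ?_
      rw [par_ind_symmDiff, (isCyc_iff M).1 hMc] at hv
      simpa [vx] using hv
    have h3 := en_symmDiff w U X M
    have h4 := en_wall (w := w) (U := U) (U' := U') (X := X) hXG.1
    have h5 : en w (bx U (ind X)) M = ∑ z ∈ Zm, en w (bx U (A z)) (C z) := by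
      unfold en
      rw [hM, Finset.sum_biUnion]
      · refine Finset.sum_congr rfl fun z hz => Finset.sum_congr rfl fun e he => ?_
        have := (Finset.mem_filter.1 hz).2 e he
        unfold bx
        rw [this]
      · intro z hz z' hz' h
        exact hdisj z (hZmZ hz) z' (hZmZ hz') h
    have h6 : ∑ z ∈ Zm, en w (bx U (A z)) (C z) ≤ ∑ z ∈ Zm, (-ε) :=
      Finset.sum_le_sum fun z hz => hneg z (hZmZ hz)
    rw [Finset.sum_const, nsmul_eq_mul] at h6
    nlinarith
  -- counting for one z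
  have hcount : ∀ z ∈ Z, (G.card : ℝ) ≤ 2 ^ m * ((G.filter fun X => mt z X).card : ℝ) := by
    intro z hz
    have h1 : G.card ≤ (G.filter fun X => mt z X).card * (C z).powerset.card :=
      E1.count_one (hA z hz) (hC z hz).1
    have h2 : (C z).powerset.card ≤ 2 ^ m := by
      rw [Finset.card_powerset]
      exact Nat.pow_le_pow_right (by norm_num) (hC z hz).2.1
    have h3 : G.card ≤ (G.filter fun X => mt z X).card * 2 ^ m :=
      h1.trans (Nat.mul_le_mul_left _ h2)
    have h4 : (G.card : ℝ) ≤ ((G.filter fun X => mt z X).card : ℝ) * 2 ^ m := by exact_mod_cast h3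
    linarith
  -- double counting
  have hdc : ∑ X ∈ G, ((Z.filter fun z => mt z X).card : ℝ) =
      ∑ z ∈ Z, ((G.filter fun X => mt z X).card : ℝ) := by
    have : ∑ X ∈ G, (Z.filter fun z => mt z X).card = ∑ z ∈ Z, (G.filter fun X => mt z X).card := by
      simp only [Finset.card_filter]
      exact Finset.sum_comm
    exact_mod_cast this
  have h1 : ε * (∑ X ∈ G, ((Z.filter fun z => mt z X).card : ℝ)) ≤ G.card * (2 * tw w (circ L)) := by
    rw [Finset.mul_sum, ← nsmul_eq_mul]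
    exact Finset.sum_le_card_nsmul _ _ _ henergy
  have h2 : (Z.card : ℝ) * G.card ≤ 2 ^ m * ∑ z ∈ Z, ((G.filter fun X => mt z X).card : ℝ) := by
    rw [Finset.mul_sum, ← nsmul_eq_mul]
    exact Finset.card_nsmul_le_sum _ _ _ hcount
  rw [hdc] at h1
  have hGp : (0 : ℝ) < G.card := by exact_mod_cast hGpos
  have h3 : ε * ((Z.card : ℝ) * G.card) ≤ 2 ^ m * (G.card * (2 * tw w (circ L))) := by
    calc ε * ((Z.card : ℝ) * G.card) ≤ ε * (2 ^ m * ∑ z ∈ Z, ((G.filter fun X => mt z X).card : ℝ)) :=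
          mul_le_mul_of_nonneg_left h2 hε
      _ = 2 ^ m * (ε * ∑ z ∈ Z, ((G.filter fun X => mt z X).card : ℝ)) := by ring
      _ ≤ _ := mul_le_mul_of_nonneg_left h1 (by positivity)
  have h4 : (ε * Z.card) * G.card ≤ (2 ^ (m + 1) * tw w (circ L)) * G.card := by
    rw [pow_succ]; linarith
  exact le_of_mul_le_mul_right h4 hGp

end Pool.Agent.Helper60.TJ
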