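import Pool.Agent.Helper60.TJ.F

set_option autoImplicit false

/-! TJ-F3: connected vertices of a wall are joined by pieces of the walk. -/

namespace Pool.Agent.Helper60.TJ

open scoped symmDiff

private theorem f3_two : ∀ f : Dir → Bool, xor (xor (f 0) (f 1)) (xor (f 2) (f 3)) = false →
    (∃ d, f d = false) → ∀ d d' e : Dir, f d = true → f d' = true → d ≠ d' → f e = true →
    e = d ∨ e = d' := by decide

private theorem f3_par : ∀ g : Dir → Bool, ∀ d d' : Dir, d ≠ d' →
    (∀ e, e ≠ d → e ≠ d' → g e = false) →
    xor (xor (g 0) (g 1)) (xor (g 2) (g 3)) = xor (g d) (g d') := by decide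

/-- parity of a part of the wall at a vertex of the wall -/
private theorem f3_par_two {W : Ed → Bool} (h : Deg2 W) {X : Finset Ed}
    (hX : ∀ e ∈ X, W e = true) {p : Vx} {d d' : Dir} (hd : W (edg p d) = true)
    (hd' : W (edg p d') = true) (hne : d ≠ d') :
    par (ind X) p = xor (ind X (edg p d)) (ind X (edg p d')) := by
  refine f3_par (fun e => ind X (edg p e)) d d' hne (fun e he he' => ?_)
  by_contra hc
  have h1 : edg p e ∈ X := ind_eq_true.1 (by simpa using hc)
  have h2 := f3_two (fun e => W (edg p e)) (h.1 p) (h.2 p) d d' e hd hd' hne (hX _ h1)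
  rcases h2 with h2 | h2
  · exact he h2
  · exact he' h2

private theorem f3_rv_ne (y : YY) : y.2 ≠ (rv y).2 := by
  have h1 : ∀ d : Dir, d ≠ d + 2 := by decide
  have h2 : ∀ d : Dir, d ≠ d + 2 + 1 := by decide
  have h3 : ∀ d : Dir, d ≠ d + 2 + 3 := by decide
  show y.2 ≠ oth (wl y.1) 0 y.2
  unfold oth nxt
  split_ifs
  · exact h1 _
  · exact h2 _
  · exact h3 _

/-- finite parts of the wall with the same boundary are equal -/
private theorem f3_eq {W : Ed → Bool}
    (hac : ∀ C : Finset Ed, IsCyc C → (∀ e ∈ C, W e = true) → C = ∅) {X Y : Finset Ed}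
    (hX : ∀ e ∈ X, W e = true) (hY : ∀ e ∈ Y, W e = true) (h : par (ind X) = par (ind Y)) :
    X = Y := by
  have h1 := hac (X ∆ Y) (isCyc_symmDiff_of_eq h) (fun e he => by
    rw [Finset.mem_symmDiff] at he
    rcases he with he | he
    · exact hX e he.1
    · exact hY e he.1)
  exact symmDiff_eq_bot.1 h1

private theorem f3_seg_sub {y : YY} (h : GY y) (n : ℕ) : ∀ e ∈ seg y n, wl y.1 e = true := by
  intro e he
  unfold seg at he
  rw [Finset.mem_image] at he
  obtain ⟨i, -, rfl⟩ := he
  exact wedge_mem h i

private theorem f3_seg_mem {y : YY} {n i : ℕ} (hi : i < n) : wedge y i ∈ seg y n :=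
  Finset.mem_image_of_mem _ (Finset.mem_range.2 hi)

private theorem f3_seg_mem_iff {y : YY} (h : GY y) {n i : ℕ} : wedge y i ∈ seg y n ↔ i < n := by
  refine ⟨fun hi => ?_, f3_seg_mem⟩
  unfold seg at hi
  rw [Finset.mem_image] at hi
  obtain ⟨j, hj, he⟩ := hi
  rw [← wedge_injective h he]
  exact Finset.mem_range.1 hj

private theorem f3_seg_mono (y : YY) {n m : ℕ} (hnm : n ≤ m) : seg y n ⊆ seg y m :=
  Finset.image_subset_image (Finset.range_mono hnm)

/-- the two wall edges at an interior vertex of the walk -/
private theorem f3_at {y : YY} (h : GY y) {X : Finset Ed} (hX : ∀ e ∈ X, wl y.1 e = true)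
    (n : ℕ) : par (ind X) (pos y (n + 1)) =
      xor (ind X (wedge y n)) (ind X (wedge y (n + 1))) := by
  have e1 : wedge y n = edg (pos y (n + 1)) (opp ((Th^[n] y).2)) := by
    show edg (pos y n) ((Th^[n] y).2) = edg (pos y n + stp ((Th^[n] y).2)) _
    rw [edg_opp]
  have e2 : wedge y (n + 1) = edg (pos y (n + 1)) ((Th^[n + 1] y).2) := rfl
  rw [e1, e2]
  refine f3_par_two h.1 hX ?_ ?_ ?_
  · rw [← e1]
    exact wedge_mem h n
  · rw [← e2]
    exact wedge_mem h (n + 1)
  · intro hc
    have : wedge y n = wedge y (n + 1) := by rw [e1, e2, hc]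
    have := wedge_injective h this
    omega

/-- the two wall edges at the origin -/
private theorem f3_zero {y : YY} (h : GY y) {X : Finset Ed} (hX : ∀ e ∈ X, wl y.1 e = true) :
    par (ind X) 0 = xor (ind X (wedge y 0)) (ind X (wedge (rv y) 0)) := by
  have h2 : GY (rv y) := h.rv
  exact f3_par_two h.1 hX (wedge_mem h 0) (wedge_mem h2 0) (f3_rv_ne y)

private theorem f3_pos_ne {y : YY} (h : GY y) (n : ℕ) : pos y (n + 1) ≠ 0 := by
  intro hh
  have : n + 1 = 0 := pos_injective h hh
  omega

private theorem f3_core {y : YY} (h : GY y) {X : Finset Ed} {v : Vx}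
    (hX : ∀ e ∈ X, wl y.1 e = true) (hp : par (ind X) = vx (dl 0) (dl v))
    (h0 : wedge y 0 ∈ X) : ∃ n, X = seg y n ∧ v = pos y n := by
  by_contra hcon
  push Not at hcon
  have key : ∀ n, seg y (n + 1) ⊆ X := by
    intro n
    induction n with
    | zero =>
      intro e he
      unfold seg at he
      rw [Finset.mem_image] at he
      obtain ⟨i, hi, rfl⟩ := he
      have : i = 0 := by
        have := Finset.mem_range.1 hi
        omega
      rw [this]
      exact h0
    | succ n ih =>
      have hv : pos y (n + 1) ≠ v := by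
        intro hv
        refine hcon (n + 1) ?_ hv.symm
        refine f3_eq h.2.2 hX (f3_seg_sub h _) ?_
        rw [hp, par_seg h, hv]
      have hz := f3_pos_ne h n
      have hpar : par (ind X) (pos y (n + 1)) = false := by
        rw [hp]
        simp [vx, dl, hv, hz]
      rw [f3_at h hX, ind_eq_true.2 (ih (f3_seg_mem (Nat.lt_succ_self n)))] at hpar
      have h1 : ind X (wedge y (n + 1)) = true := by
        cases hc : ind X (wedge y (n + 1))
        · rw [hc] at hpar
          exact absurd hpar (by decide)
        · rfl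
      intro e he
      unfold seg at he
      rw [Finset.mem_image] at he
      obtain ⟨i, hi, rfl⟩ := he
      have hi' := Finset.mem_range.1 hi
      rcases Nat.lt_succ_iff_lt_or_eq.1 hi' with h2 | h2
      · exact ih (f3_seg_mem h2)
      · rw [h2]
        exact ind_eq_true.1 h1
  have h1 := Finset.card_le_card (key X.card)
  rw [seg, Finset.card_image_of_injective _ (wedge_injective h), Finset.card_range] at h1
  omega

/-- a finite subset of the wall with boundary `{0, v}` is an initial piece of one of the two walks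
from `0` -/
theorem path_unique {y : YY} (h : GY y) {X : Finset Ed} {v : Vx}
    (hX : ∀ e ∈ X, wl y.1 e = true) (hp : par (ind X) = vx (dl 0) (dl v)) :
    ∃ n, (X = seg y n ∧ v = pos y n) ∨ (X = seg (rv y) n ∧ v = pos (rv y) n) := by
  by_cases hv : v = 0
  · refine ⟨0, Or.inl ⟨?_, hv⟩⟩
    refine f3_eq h.2.2 hX (f3_seg_sub h _) ?_
    rw [hp, par_seg h, hv]
    rfl
  · have h0 : par (ind X) 0 = true := by
      rw [hp]
      have : ¬ (0 = v) := fun hh => hv hh.symm
      simp [vx, dl, this]
    rw [f3_zero h hX] at h0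
    by_cases h1 : wedge y 0 ∈ X
    · obtain ⟨n, hn⟩ := f3_core h hX hp h1
      exact ⟨n, Or.inl hn⟩
    · have h2 : ind X (wedge y 0) = false := by
        cases hc : ind X (wedge y 0)
        · rfl
        · exact absurd (ind_eq_true.1 hc) h1
      rw [h2, Bool.false_xor] at h0
      obtain ⟨n, hn⟩ := f3_core (y := rv y) h.rv hX hp (ind_eq_true.1 h0)
      exact ⟨n, Or.inr hn⟩

/-- the two walks have no common edge -/
private theorem f3_disj {y : YY} (h : GY y) (n m : ℕ) : Disjoint (seg y n) (seg (rv y) m) := by
  have h' : GY (rv y) := h.rv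
  have hY : ∀ e ∈ seg (rv y) m, wl y.1 e = true := f3_seg_sub h' m
  have key : ∀ i, wedge y i ∉ seg (rv y) m := by
    intro i
    induction i with
    | zero =>
      intro hc
      rcases m with _ | m
      · simp [seg] at hc
      · have h1 := f3_zero h hY
        rw [par_seg h', ind_eq_true.2 hc, ind_eq_true.2 (f3_seg_mem (Nat.succ_pos m))] at h1
        have hz := f3_pos_ne h' m
        simp [vx, dl, hz.symm] at h1
    | succ i ih =>
      intro hc
      have h1 := f3_at h hY i
      have h2 : ind (seg (rv y) m) (wedge y i) = false := by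
        cases hd : ind (seg (rv y) m) (wedge y i)
        · rfl
        · exact absurd (ind_eq_true.1 hd) ih
      rw [par_seg h', ind_eq_true.2 hc, h2] at h1
      have hz := f3_pos_ne h i
      have h3 : pos y (i + 1) = pos (rv y) m := by
        by_contra h3
        simp [vx, dl, hz, h3] at h1
      have h4 : seg y (i + 1) = seg (rv y) m := by
        refine f3_eq h.2.2 (f3_seg_sub h _) hY ?_
        rw [par_seg h, par_seg h', h3]
      rw [← h4, f3_seg_mem_iff h] at hc
      omega
  rw [Finset.disjoint_left]
  intro e he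
  unfold seg at he
  rw [Finset.mem_image] at he
  obtain ⟨i, -, rfl⟩ := he
  exact key i

private theorem f3_shF_sub {u : Vx} {X Y : Finset Ed} (h : shF u X ⊆ shF u Y) : X ⊆ Y := by
  intro e he
  have h1 : ((e.1 - u, e.2) : Ed) ∈ shF u X := by
    rw [mem_shF]
    simpa using he
  have h2 := h h1
  rw [mem_shF] at h2
  simpa using h2

private theorem f3_shF_disj {u : Vx} {X Y : Finset Ed} (h : Disjoint (shF u X) (shF u Y)) :
    Disjoint X Y := by
  rw [Finset.disjoint_left] at h ⊢
  intro e he he'
  refine h (a := ((e.1 - u, e.2) : Ed)) ?_ ?_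
  · rw [mem_shF]
    simpa using he
  · rw [mem_shF]
    simpa using he'

/-- two pieces of the wall with a common end point are nested or disjoint -/
private theorem f3_tri {p : XX} (hdeg : Deg2 (wl p))
    (hac : ∀ C : Finset Ed, IsCyc C → (∀ e ∈ C, wl p e = true) → C = ∅) {x x' x'' : Vx}
    {X Y : Finset Ed} (hX : ∀ e ∈ X, wl p e = true) (hXp : par (ind X) = vx (dl x) (dl x'))
    (hY : ∀ e ∈ Y, wl p e = true) (hYp : par (ind Y) = vx (dl x') (dl x'')) :
    X ⊆ Y ∨ Y ⊆ X ∨ Disjoint X Y := by
  by_cases hx : x = x'
  · left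
    have : X = ∅ := by
      refine hac X ?_ hX
      intro v
      rw [hXp, hx, vx_self]
    rw [this]
    exact Finset.empty_subset _
  · have h0 : par (ind X) x' = true := by
      rw [hXp]
      have : ¬ (x' = x) := fun hh => hx hh.symm
      simp [vx, dl, this]
    have h1 : ∃ d, wl p (edg x' d) = true := by
      by_contra hc
      push Not at hc
      have h2 : ∀ d, ind X (edg x' d) = false := by
        intro d
        cases hd : ind X (edg x' d)
        · rfl
        · exact absurd (hX _ (ind_eq_true.1 hd)) (hc d)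
      unfold par at h0
      rw [h2, h2, h2, h2] at h0
      exact absurd h0 (by decide)
    obtain ⟨d, hd⟩ := h1
    have hW : wl (shX x' p) = sh x' (wl p) := wl_shX x' p
    have hy : GY (shX x' p, d) := by
      refine ⟨?_, ?_, ?_⟩
      · show Deg2 (wl (shX x' p))
        rw [hW]
        refine ⟨fun v => ?_, fun v => ?_⟩
        · rw [par_sh]
          exact hdeg.1 _
        · obtain ⟨e, he⟩ := hdeg.2 (v + x')
          exact ⟨e, by rw [sh_edg]; exact he⟩
      · show wl (shX x' p) (edg 0 d) = true
        rw [hW, sh_edg, zero_add]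
        exact hd
      · intro C hC hCW
        have hCW' : ∀ e ∈ C, sh x' (wl p) e = true := hCW
        have h2 : shF (-x') C = ∅ := by
          refine hac _ (isCyc_shF.2 hC) ?_
          intro e he
          rw [mem_shF] at he
          have := hCW' _ he
          unfold sh at this
          simpa using this
        have h3 : shF x' (shF (-x') C) = C := by
          rw [shF_shF, add_neg_cancel, shF_zero]
        rw [← h3, h2]
        rfl
    have hsub : ∀ Z : Finset Ed, (∀ e ∈ Z, wl p e = true) →
        ∀ e ∈ shF x' Z, wl (shX x' p, d).1 e = true := by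
      intro Z hZ e he
      rw [mem_shF] at he
      exact hZ _ he
    have hdl : ∀ a : Vx, (fun v => dl a (v + x')) = dl (a - x') := by
      intro a
      funext v
      unfold dl
      rw [decide_eq_decide]
      exact eq_sub_iff_add_eq.symm
    have hparX : par (ind (shF x' X)) = vx (dl 0) (dl (x - x')) := by
      funext v
      rw [ind_shF, par_sh, hXp]
      have e1 := congrFun (hdl x) v
      have e2 := congrFun (hdl x') v
      rw [sub_self] at e2
      show xor (dl x (v + x')) (dl x' (v + x')) = xor (dl 0 v) (dl (x - x') v)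
      rw [← e1, ← e2, Bool.xor_comm]
    have hparY : par (ind (shF x' Y)) = vx (dl 0) (dl (x'' - x')) := by
      funext v
      rw [ind_shF, par_sh, hYp]
      have e1 := congrFun (hdl x'') v
      have e2 := congrFun (hdl x') v
      rw [sub_self] at e2
      show xor (dl x' (v + x')) (dl x'' (v + x')) = xor (dl 0 v) (dl (x'' - x') v)
      rw [← e1, ← e2]
    obtain ⟨n, hn⟩ := path_unique hy (hsub X hX) hparX
    obtain ⟨m, hm⟩ := path_unique hy (hsub Y hY) hparY
    rcases hn with ⟨hn, -⟩ | ⟨hn, -⟩ <;> rcases hm with ⟨hm, -⟩ | ⟨hm, -⟩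
    · rcases le_total n m with hnm | hnm
      · left
        apply f3_shF_sub (u := x')
        rw [hn, hm]
        exact f3_seg_mono _ hnm
      · right
        left
        apply f3_shF_sub (u := x')
        rw [hn, hm]
        exact f3_seg_mono _ hnm
    · right
      right
      apply f3_shF_disj (u := x')
      rw [hn, hm]
      exact f3_disj hy n m
    · right
      right
      apply f3_shF_disj (u := x')
      rw [hn, hm]
      exact (f3_disj hy m n).symm
    · rcases le_total n m with hnm | hnm
      · left
        apply f3_shF_sub (u := x')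
        rw [hn, hm]
        exact f3_seg_mono _ hnm
      · right
        left
        apply f3_shF_sub (u := x')
        rw [hn, hm]
        exact f3_seg_mono _ hnm

private theorem f3_en_sub {w : Ed → ℝ} {U : Ed → Bool} {X Y : Finset Ed} (h : Y ⊆ X) :
    en w U (X ∆ Y) = en w U X - en w U Y := by
  have h1 : X ∆ Y = X \ Y := by
    ext e
    rw [Finset.mem_symmDiff, Finset.mem_sdiff]
    constructor
    · rintro (h2 | h2)
      · exact h2
      · exact absurd (h h2.1) h2.2
    · intro h2
      exact Or.inl h2
  rw [h1]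
  unfold en
  rw [← Finset.sum_sdiff h]
  ring

/-- triangle inequality for the energies of pieces of a wall -/
theorem abs_en_triangle {p : XX} (hdeg : Deg2 (wl p))
    (hac : ∀ C : Finset Ed, IsCyc C → (∀ e ∈ C, wl p e = true) → C = ∅) {x x' x'' : Vx}
    {X Y : Finset Ed} (hX : ∀ e ∈ X, wl p e = true) (hXp : par (ind X) = vx (dl x) (dl x'))
    (hY : ∀ e ∈ Y, wl p e = true) (hYp : par (ind Y) = vx (dl x') (dl x'')) :
    |en (wt p.1) p.2.1 (X ∆ Y)| ≤ |en (wt p.1) p.2.1 X| + |en (wt p.1) p.2.1 Y| := by
  rcases f3_tri hdeg hac hX hXp hY hYp with h | h | h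
  · rw [symmDiff_comm, f3_en_sub h]
    have := abs_sub (en (wt p.1) p.2.1 Y) (en (wt p.1) p.2.1 X)
    linarith
  · rw [f3_en_sub h]
    exact abs_sub _ _
  · have h1 : X ∆ Y = X ∪ Y := by
      rw [Finset.disjoint_left] at h
      ext e
      rw [Finset.mem_symmDiff, Finset.mem_union]
      constructor
      · rintro (h2 | h2)
        · exact Or.inl h2.1
        · exact Or.inr h2.1
      · rintro (h2 | h2)
        · exact Or.inl ⟨h2, h h2⟩
        · exact Or.inr ⟨h2, fun h3 => h h3 h2⟩
    rw [h1, en_union h]
    exact abs_add_le _ _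

end Pool.Agent.Helper60.TJ
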