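import Pool.Agent.Helper59.TJ.RecM
import Pool.Agent.Helper60.TJ.E2

set_option autoImplicit false

/-! TJ-H1: walls pass near every given plaquette. -/

namespace Pool.Agent.Helper60.TJ

open MeasureTheory

namespace H1

theorem cn_true (v v' : Vx) : Cn (fun _ => true) v v' := by
  have h1 : ∀ (v : Vx) (a : ℤ), Cn (fun _ => true) v (v.1 + a, v.2) := by
    intro v a
    induction a using Int.induction_on with
    | zero => simpa using Cn.refl (fun _ => true) v
    | succ n ih =>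
      refine ih.trans ?_
      have := Cn.step (W := fun _ => true) (v := (v.1 + (n : ℤ), v.2)) (d := 0) rfl
      simpa [stp, add_assoc] using this
    | pred n ih =>
      refine ih.trans ?_
      have := Cn.step (W := fun _ => true) (v := (v.1 + (-(n : ℤ)), v.2)) (d := 2) rfl
      simpa [stp, add_assoc, sub_eq_add_neg] using this
  have h2 : ∀ (v : Vx) (a : ℤ), Cn (fun _ => true) v (v.1, v.2 + a) := by
    intro v a
    induction a using Int.induction_on with
    | zero => simpa using Cn.refl (fun _ => true) v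
    | succ n ih =>
      refine ih.trans ?_
      have := Cn.step (W := fun _ => true) (v := (v.1, v.2 + (n : ℤ))) (d := 1) rfl
      simpa [stp, add_assoc] using this
    | pred n ih =>
      refine ih.trans ?_
      have := Cn.step (W := fun _ => true) (v := (v.1, v.2 + (-(n : ℤ)))) (d := 3) rfl
      simpa [stp, add_assoc, sub_eq_add_neg] using this
  have h3 := (h1 v (v'.1 - v.1)).trans (h2 _ (v'.2 - v.2))
  simpa using h3

theorem near_of_sh {u : Vx} {w : Ed → ℝ} {W : Ed → Bool} {M : ℝ}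
    (h : Near (sh u w) (sh u W) 0 M) : Near w W u M := by
  intro v hv
  obtain ⟨d, hd⟩ := hv
  have hv' : OnW (sh u W) (v - u) := ⟨d, by rw [sh_edg, sub_add_cancel]; exact hd⟩
  obtain ⟨v', ⟨X, hX, hXp⟩, R, hR, hRM⟩ := h _ hv'
  refine ⟨v' + u, ⟨shF (-u) X, ?_, ?_⟩, shF (-u) R, ?_, ?_⟩
  · intro e he
    rw [mem_shF] at he
    have := hX _ he
    simpa [sh] using this
  · funext z
    rw [ind_shF, par_sh, hXp]
    have e1 : (z + -u = v - u) ↔ (z = v) := by
      rw [← sub_eq_add_neg]; exact sub_left_inj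
    have e2 : (z + -u = v') ↔ (z = v' + u) := by
      rw [← sub_eq_add_neg]; exact sub_eq_iff_eq_add
    simp only [vx, dl, e1, e2]
  · funext z
    rw [ind_shF, par_sh, hR]
    have e1 : (z + -u = 0) ↔ (z = u) := by
      rw [← sub_eq_add_neg]; exact sub_eq_zero
    have e2 : (z + -u = v') ↔ (z = v' + u) := by
      rw [← sub_eq_add_neg]; exact sub_eq_iff_eq_add
    simp only [vx, dl, e1, e2]
  · refine le_trans (le_of_eq ?_) hRM
    unfold tw shF
    rw [Finset.sum_map]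
    refine Finset.sum_congr rfl fun e _ => ?_
    simp [sh, shE]

theorem near_mono {w : Ed → ℝ} {W : Ed → Bool} {x : Vx} {M M' : ℝ} (hMM : M ≤ M')
    (h : Near w W x M) : Near w W x M' := by
  intro v hv
  obtain ⟨v', h1, R, h2, h3⟩ := h v hv
  exact ⟨v', h1, R, h2, h3.trans hMM⟩

/-- finitely many components, so all of them are near the origin -/
theorem exists_near {w : Ed → ℝ} {W : Ed → Bool} {k : ℕ}
    (hk : ∀ s : Finset Vx, (∀ v ∈ s, OnW W v) → (∀ v ∈ s, ∀ v' ∈ s, Cn W v v' → v = v') →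
      s.card ≤ k) (x : Vx) : ∃ M : ℕ, Near w W x M := by
  classical
  obtain ⟨n, ⟨s, hs1, hs2, hs3⟩, hn⟩ : ∃ n : ℕ, (∃ s : Finset Vx, (∀ v ∈ s, OnW W v) ∧
      (∀ v ∈ s, ∀ v' ∈ s, Cn W v v' → v = v') ∧ s.card = n) ∧
      ∀ m : ℕ, (∃ s : Finset Vx, (∀ v ∈ s, OnW W v) ∧
      (∀ v ∈ s, ∀ v' ∈ s, Cn W v v' → v = v') ∧ s.card = m) → m ≤ n := by
    have hb : ∀ m : ℕ, (∃ s : Finset Vx, (∀ v ∈ s, OnW W v) ∧
        (∀ v ∈ s, ∀ v' ∈ s, Cn W v v' → v = v') ∧ s.card = m) → m ≤ k := by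
      rintro m ⟨s, h1, h2, rfl⟩
      exact hk s h1 h2
    have h0 : ∃ s : Finset Vx, (∀ v ∈ s, OnW W v) ∧
        (∀ v ∈ s, ∀ v' ∈ s, Cn W v v' → v = v') ∧ s.card = 0 := ⟨∅, by simp, by simp, rfl⟩
    refine ⟨Nat.findGreatest (fun m => ∃ s : Finset Vx, (∀ v ∈ s, OnW W v) ∧
      (∀ v ∈ s, ∀ v' ∈ s, Cn W v v' → v = v') ∧ s.card = m) k, ?_, ?_⟩
    · exact Nat.findGreatest_spec (P := fun m => ∃ s : Finset Vx, (∀ v ∈ s, OnW W v) ∧
        (∀ v ∈ s, ∀ v' ∈ s, Cn W v v' → v = v') ∧ s.card = m) (Nat.zero_le k) h0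
    · intro m hm
      exact Nat.le_findGreatest (hb m hm) hm
  have hcov : ∀ v, OnW W v → ∃ v' ∈ s, Cn W v v' := by
    intro v hv
    by_contra hcon
    push Not at hcon
    have hvs : v ∉ s := fun h => hcon v h (Cn.refl W v)
    have := hn (n + 1) ⟨insert v s, ?_, ?_, ?_⟩
    · omega
    · intro a ha
      rcases Finset.mem_insert.1 ha with rfl | ha
      · exact hv
      · exact hs1 a ha
    · intro a ha b hb hab
      rcases Finset.mem_insert.1 ha with ha' | ha'
      · rcases Finset.mem_insert.1 hb with hb' | hb'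
        · rw [ha', hb']
        · rw [ha'] at hab
          exact absurd hab (hcon b hb')
      · rcases Finset.mem_insert.1 hb with hb' | hb'
        · rw [hb'] at hab
          exact absurd hab.symm (hcon a ha')
        · exact hs2 a ha' b hb' hab
    · rw [Finset.card_insert_of_notMem hvs, hs3]
  choose R hR1 hR2 using fun v' : Vx => cn_true x v'
  obtain ⟨M, hM⟩ := exists_nat_ge (∑ v' ∈ s, |tw w (R v')|)
  refine ⟨M, fun v hv => ?_⟩
  obtain ⟨v', hv', hc⟩ := hcov v hv
  refine ⟨v', hc, R v', hR2 v', ?_⟩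
  refine le_trans (le_abs_self _) (le_trans ?_ hM)
  exact Finset.single_le_sum (f := fun v' => |tw w (R v')|) (fun _ _ => abs_nonneg _) hv'

end H1

theorem near_small {μ : Measure ℝ} [IsProbabilityMeasure μ]
    {k : ℕ} {Q : Measure XX} (hQ : IsQ μ k Q)
    {η : ENNReal} (hη : 0 < η) :
    ∃ M : ℝ, 0 ≤ M ∧ ∀ x : Vx, PP μ {J | ∃ U ∈ GJ J, ∃ U' ∈ GJ J, U ≠ U' ∧
      ¬ Near (wt J) (bx U U') x M} ≤ η := by
  have hfin : IsFiniteMeasure Q := ⟨by rw [hQ.univ_eq]; exact ENNReal.natCast_lt_top _⟩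
  have hae : ∀ᵐ p ∂Q, ∃ M : ℕ, Near (wt p.1) (wl p) 0 M := by
    filter_upwards [Pool.Agent.Helper59.TJ.recomb_q hQ, hQ.nice] with p h1 h2
    refine H1.exists_near (k := k) (fun s hs hs' => ?_) 0
    exact few_comp h2.1 h2.2.1 h1 (fun v => par_wall h2.2.1 h2.2.2.1 v) s hs hs'
  set D : ℕ → Set XX := fun M => {p | ¬ Near (wt p.1) (wl p) 0 (M : ℝ)} with hD
  have hDm : ∀ M, MeasurableSet (D M) := fun M => (measurableSet_Near 0 (M : ℝ)).compl
  have hanti : Antitone D := by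
    intro M M' hMM p hp hcon
    exact hp (H1.near_mono (by exact_mod_cast hMM) hcon)
  have hinter : Q (⋂ M, D M) = 0 := by
    have : (⋂ M, D M) = {p | ∃ M : ℕ, Near (wt p.1) (wl p) 0 M}ᶜ := by
      ext p
      simp [hD]
    rw [this]
    exact hae
  have hlim := tendsto_measure_iInter_atTop (μ := Q) (s := D)
    (fun M => (hDm M).nullMeasurableSet) hanti ⟨0, measure_ne_top _ _⟩
  rw [hinter] at hlim
  obtain ⟨M, hM⟩ := ((tendsto_order.1 hlim).2 η hη).exists
  refine ⟨M, by positivity, fun x => ?_⟩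
  have hDx : MeasurableSet {p : XX | ¬ Near (wt p.1) (wl p) x (M : ℝ)} :=
    (measurableSet_Near x (M : ℝ)).compl
  refine le_trans (hQ.ex_le _ hDx) ?_
  have hsub : {p : XX | ¬ Near (wt p.1) (wl p) x (M : ℝ)} ⊆ shX x ⁻¹' (D M) := by
    intro p hp hcon
    exact hp (H1.near_of_sh hcon)
  refine le_trans (measure_mono hsub) ?_
  rw [(hQ.inv x).measure_preimage (hDm M).nullMeasurableSet]
  exact hM.le

end Pool.Agent.Helper60.TJ
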