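import Pool.Agent.Helper60.TJ.F3

set_option autoImplicit false

/-! TJ-H2: counting lemma (deterministic). -/

namespace Pool.Agent.Helper60.TJ

open Classical in
/-- starting points in the box with a large energy after `n` steps -/
noncomputable def P2 (p : XX) (L n : ℕ) (d : Dir) (C : ℝ) : Finset Vx :=
  (box L).filter fun x => wl p (edg x d) = true ∧ x + pos (shX x p, d) n ∈ box L ∧
    2 * C < |Vn n (shX x p, d)|

open Classical in
/-- pairs of connected points in the box with a large energy difference -/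
noncomputable def BP (p : XX) (L : ℕ) (C : ℝ) : Finset (Vx × Vx) :=
  (box L ×ˢ box L).filter fun q => ∃ X : Finset Ed, (∀ e ∈ X, wl p e = true) ∧
    par (ind X) = vx (dl q.1) (dl q.2) ∧ C < |en (wt p.1) p.2.1 X|

namespace H2

open scoped symmDiff

theorem deg2_sh {W : Ed → Bool} (h : Deg2 W) (x : Vx) : Deg2 (sh x W) := by
  refine ⟨fun v => by rw [par_sh]; exact h.1 _, fun v => ?_⟩
  obtain ⟨d, hd⟩ := h.2 (v + x)
  exact ⟨d, by rw [sh_edg]; exact hd⟩

theorem acyc_sh {W : Ed → Bool} (h : ∀ C : Finset Ed, IsCyc C → (∀ e ∈ C, W e = true) → C = ∅)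
    (x : Vx) : ∀ C : Finset Ed, IsCyc C → (∀ e ∈ C, sh x W e = true) → C = ∅ := by
  intro C hC hW
  have h1 : shF (-x) C = ∅ := by
    refine h _ (isCyc_shF.2 hC) fun e he => ?_
    have h2 := hW _ (mem_shF.1 he)
    unfold sh at h2
    simpa using h2
  have h2 : shF x (shF (-x) C) = ∅ := by rw [h1]; rfl
  rw [shF_shF, add_neg_cancel, shF_zero] at h2
  exact h2

theorem gy {p : XX} (hdeg : Deg2 (wl p))
    (hac : ∀ C : Finset Ed, IsCyc C → (∀ e ∈ C, wl p e = true) → C = ∅) {x : Vx} {d : Dir}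
    (hx : wl p (edg x d) = true) : GY (shX x p, d) := by
  refine ⟨?_, ?_, ?_⟩
  · show Deg2 (wl (shX x p))
    rw [wl_shX]; exact deg2_sh hdeg x
  · show wl (shX x p) (edg 0 d) = true
    rw [wl_shX, sh_edg, zero_add]; exact hx
  · show ∀ C : Finset Ed, IsCyc C → (∀ e ∈ C, wl (shX x p) e = true) → C = ∅
    rw [wl_shX]; exact acyc_sh hac x

theorem gy_iter {y : YY} (h : GY y) (n : ℕ) : GY (Th^[n] y) := by
  induction n with
  | zero => exact h
  | succ n ih => rw [Function.iterate_succ_apply']; exact ih.th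

theorem iter_inj {y y' : YY} (h : GY y) (h' : GY y') (n : ℕ) (e : Th^[n] y = Th^[n] y') :
    y = y' := by
  induction n with
  | zero => exact e
  | succ n ih =>
    rw [Function.iterate_succ_apply', Function.iterate_succ_apply'] at e
    apply ih
    rw [← th_inv' (gy_iter h n), ← th_inv' (gy_iter h' n), e]

/-- direction of the walk from `x` after `n` steps -/
def dr (p : XX) (d : Dir) (n : ℕ) (x : Vx) : Dir := (Th^[n] (shX x p, d)).2

/-- end point of the walk from `x` after `n` steps -/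
def ep (p : XX) (d : Dir) (n : ℕ) (x : Vx) : Vx := x + pos (shX x p, d) n

theorem iter_eq (p : XX) (d : Dir) (n : ℕ) (x : Vx) :
    Th^[n] (shX x p, d) = (shX (ep p d n x) p, dr p d n x) := by
  refine Prod.ext ?_ rfl
  rw [th_iterate_fst]
  show shX (pos (shX x p, d) n) (shX x p) = shX (ep p d n x) p
  rw [shX_shX, ep, add_comm]

theorem wl_dr {p : XX} (hdeg : Deg2 (wl p))
    (hac : ∀ C : Finset Ed, IsCyc C → (∀ e ∈ C, wl p e = true) → C = ∅) {x : Vx} {d : Dir}
    (hx : wl p (edg x d) = true) (n : ℕ) : wl p (edg (ep p d n x) (dr p d n x)) = true := by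
  have h := (gy_iter (gy hdeg hac hx) n).2.1
  rw [iter_eq] at h
  change wl (shX (ep p d n x) p) (edg 0 (dr p d n x)) = true at h
  rw [wl_shX, sh_edg, zero_add] at h
  exact h

theorem walk_inj {p : XX} (hdeg : Deg2 (wl p))
    (hac : ∀ C : Finset Ed, IsCyc C → (∀ e ∈ C, wl p e = true) → C = ∅) {x x' : Vx} {d : Dir}
    (hx : wl p (edg x d) = true) (hx' : wl p (edg x' d) = true) (n : ℕ)
    (h1 : ep p d n x = ep p d n x') (h2 : dr p d n x = dr p d n x') : x = x' := by
  have h3 : Th^[n] (shX x p, d) = Th^[n] (shX x' p, d) := by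
    rw [iter_eq, iter_eq, h1, h2]
  have h4 := iter_inj (gy hdeg hac hx) (gy hdeg hac hx') n h3
  unfold ep at h1
  rw [h4] at h1
  exact add_right_cancel h1

theorem exists_piece {p : XX} (hdeg : Deg2 (wl p))
    (hac : ∀ C : Finset Ed, IsCyc C → (∀ e ∈ C, wl p e = true) → C = ∅) {x : Vx} {d : Dir}
    (hx : wl p (edg x d) = true) (n : ℕ) : ∃ X : Finset Ed, (∀ e ∈ X, wl p e = true) ∧
      par (ind X) = vx (dl x) (dl (ep p d n x)) ∧
      en (wt p.1) p.2.1 X = Vn n (shX x p, d) := by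
  have hg := gy hdeg hac hx
  refine ⟨shF (-x) (seg (shX x p, d) n), ?_, ?_, ?_⟩
  · intro e he
    rw [mem_shF] at he
    unfold seg at he
    rw [Finset.mem_image] at he
    obtain ⟨i, -, hi⟩ := he
    have h := wedge_mem hg i
    rw [hi] at h
    change wl (shX x p) _ = true at h
    rw [wl_shX] at h
    unfold sh at h
    simpa using h
  · funext v
    rw [ind_shF, par_sh, par_seg hg]
    unfold vx dl ep
    congr 1
    · rw [decide_eq_decide]
      constructor
      · intro h
        have := congrArg (· + x) h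
        simpa using this
      · rintro rfl
        exact add_neg_cancel _
    · rw [decide_eq_decide]
      constructor
      · intro h
        rw [← h]; abel
      · rintro rfl
        abel
  · have h := en_sh (-x) (wt (sh x p.1)) (sh x p.2.1) (seg (shX x p, d) n)
    rw [wt_sh, sh_sh, sh_sh, neg_add_cancel, sh_zero, sh_zero] at h
    rw [h, Vn_eq hg]
    rfl

open Classical in
theorem pair_count {p : XX} (hdeg : Deg2 (wl p))
    (hac : ∀ C : Finset Ed, IsCyc C → (∀ e ∈ C, wl p e = true) → C = ∅)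
    (L n : ℕ) (d : Dir) (C : ℝ) :
    (((P2 p L n d C) ×ˢ (P2 p L n d C)).filter fun q => Cn (wl p) q.1 q.2).card ≤
      4 * (BP p L C).card := by
  choose c hc using hdeg.2
  set S := P2 p L n d C with hS
  have hSm : ∀ x ∈ S, x ∈ box L ∧ wl p (edg x d) = true ∧ ep p d n x ∈ box L ∧
      2 * C < |Vn n (shX x p, d)| := by
    intro x hx
    rw [hS] at hx
    unfold P2 at hx
    rw [Finset.mem_filter] at hx
    exact hx
  let f : Vx × Vx → (Vx × Vx) × Dir := fun q =>
    if q ∈ BP p L C then (q, c q.2) else ((q.1, ep p d n q.2), dr p d n q.2)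
  have hcard : (BP p L C ×ˢ (Finset.univ : Finset Dir)).card = 4 * (BP p L C).card := by
    rw [Finset.card_product]; simp [mul_comm]
  rw [← hcard]
  refine Finset.card_le_card_of_injOn f ?_ ?_
  · rintro ⟨x0, x⟩ hq
    rw [Finset.mem_coe, Finset.mem_filter, Finset.mem_product] at hq
    obtain ⟨⟨h0, h1⟩, h2⟩ := hq
    rw [Finset.mem_coe, Finset.mem_product]
    refine ⟨?_, Finset.mem_univ _⟩
    by_cases hb : (x0, x) ∈ BP p L C
    · simp only [f, if_pos hb]; exact hb
    · simp only [f, if_neg hb]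
      obtain ⟨hx0, -, -, -⟩ := hSm _ h0
      obtain ⟨hx, hxd, hxe, hxV⟩ := hSm _ h1
      obtain ⟨X0, hX0, hX0p⟩ := h2
      obtain ⟨X1, hX1, hX1p, hX1e⟩ := exists_piece hdeg hac hxd n
      have hXs : X0 ∆ (X0 ∆ X1) = X1 := by
        rw [← symmDiff_assoc, symmDiff_self, bot_symmDiff]
      have hY : ∀ e ∈ X0 ∆ X1, wl p e = true := by
        intro e he
        rw [Finset.mem_symmDiff] at he
        rcases he with he | he
        · exact hX0 e he.1
        · exact hX1 e he.1
      have hYp : par (ind (X0 ∆ X1)) = vx (dl x0) (dl (ep p d n x)) := by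
        rw [par_ind_symmDiff, hX0p, hX1p]
        exact vx_trans _ _ _
      have htri := abs_en_triangle hdeg hac (x := x) (x' := x0) (x'' := ep p d n x) hX0
        (by rw [hX0p]; exact vx_comm _ _) hY hYp
      rw [hXs, hX1e] at htri
      have h3 : |en (wt p.1) p.2.1 X0| ≤ C := by
        by_contra hcon
        apply hb
        unfold BP
        rw [Finset.mem_filter, Finset.mem_product]
        exact ⟨⟨hx0, hx⟩, X0, hX0, hX0p, not_le.1 hcon⟩
      unfold BP
      rw [Finset.mem_filter, Finset.mem_product]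
      exact ⟨⟨hx0, hxe⟩, X0 ∆ X1, hY, hYp, by linarith⟩
  · rintro ⟨x0, x⟩ hq ⟨x0', x'⟩ hq' hf
    rw [Finset.mem_coe, Finset.mem_filter, Finset.mem_product] at hq hq'
    obtain ⟨-, hxd, -, -⟩ := hSm _ hq.1.2
    obtain ⟨-, hxd', -, -⟩ := hSm _ hq'.1.2
    by_cases hb : (x0, x) ∈ BP p L C
    · by_cases hb' : (x0', x') ∈ BP p L C
      · simp only [f, if_pos hb, if_pos hb'] at hf
        exact (Prod.ext_iff.1 hf).1
      · simp only [f, if_pos hb, if_neg hb'] at hf
        exfalso
        rw [Prod.mk.injEq, Prod.mk.injEq] at hf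
        obtain ⟨⟨-, h2⟩, h3⟩ := hf
        have h4 := wl_dr hdeg hac hxd' n
        rw [← h2, ← h3, hc] at h4
        exact absurd h4 (by decide)
    · by_cases hb' : (x0', x') ∈ BP p L C
      · simp only [f, if_neg hb, if_pos hb'] at hf
        exfalso
        rw [Prod.mk.injEq, Prod.mk.injEq] at hf
        obtain ⟨⟨-, h2⟩, h3⟩ := hf
        have h4 := wl_dr hdeg hac hxd n
        rw [h2, h3, hc] at h4
        exact absurd h4 (by decide)
      · simp only [f, if_neg hb, if_neg hb'] at hf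
        rw [Prod.mk.injEq, Prod.mk.injEq] at hf
        obtain ⟨⟨h1, h2⟩, h3⟩ := hf
        have h4 : x = x' := walk_inj hdeg hac hxd hxd' n h2 h3
        rw [h1, h4]

/-- maximal sets of pairwise non connected points -/
theorem exists_reps (W : Ed → Bool) (S : Finset Vx) :
    ∃ R : Finset Vx, R ⊆ S ∧ (∀ v ∈ R, ∀ v' ∈ R, Cn W v v' → v = v') ∧
      ∀ x ∈ S, ∃ r ∈ R, Cn W x r := by
  classical
  induction S using Finset.induction_on with
  | empty => exact ⟨∅, by simp, by simp, by simp⟩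
  | insert a S _ ih =>
    obtain ⟨R, h1, h2, h3⟩ := ih
    by_cases ha : ∃ r ∈ R, Cn W a r
    · refine ⟨R, h1.trans (Finset.subset_insert _ _), h2, ?_⟩
      intro x hx
      rw [Finset.mem_insert] at hx
      rcases hx with rfl | hx
      · exact ha
      · exact h3 x hx
    · refine ⟨insert a R, Finset.insert_subset_insert _ h1, ?_, ?_⟩
      · intro v hv v' hv' hvv
        rw [Finset.mem_insert] at hv hv'
        rcases hv with rfl | hv
        · rcases hv' with rfl | hv'
          · rfl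
          · exact absurd ⟨v', hv', hvv⟩ ha
        · rcases hv' with rfl | hv'
          · exact absurd ⟨v, hv, hvv.symm⟩ ha
          · exact h2 v hv v' hv' hvv
      · intro x hx
        rw [Finset.mem_insert] at hx
        rcases hx with rfl | hx
        · exact ⟨x, Finset.mem_insert_self _ _, Cn.refl _ _⟩
        · obtain ⟨r, hr, hxr⟩ := h3 x hx
          exact ⟨r, Finset.mem_insert_of_mem hr, hxr⟩

open Classical in
theorem cs (W : Ed → Bool) (S : Finset Vx) {k : ℕ}
    (hk : ∀ s ⊆ S, (∀ v ∈ s, ∀ v' ∈ s, Cn W v v' → v = v') → s.card ≤ k) :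
    (S.card : ℝ) ^ 2 ≤ k * ((S ×ˢ S).filter fun q => Cn W q.1 q.2).card := by
  obtain ⟨R, h1, h2, h3⟩ := exists_reps W S
  have hRk : R.card ≤ k := hk R h1 h2
  have h4 : ∀ x : Vx, ∃ r : Vx, x ∈ S → r ∈ R ∧ Cn W x r := by
    intro x
    by_cases hx : x ∈ S
    · obtain ⟨r, hr, hxr⟩ := h3 x hx
      exact ⟨r, fun _ => ⟨hr, hxr⟩⟩
    · exact ⟨x, fun h => absurd h hx⟩
  choose g hg using h4
  have h5 : S.card = ∑ r ∈ R, (S.filter fun x => g x = r).card :=
    Finset.card_eq_sum_card_fiberwise fun x hx => (hg x hx).1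
  have h6 : (∑ r ∈ R, ((S.filter fun x => g x = r).card : ℝ)) ^ 2 ≤
      R.card * ∑ r ∈ R, ((S.filter fun x => g x = r).card : ℝ) ^ 2 :=
    sq_sum_le_card_mul_sum_sq
  have h7 : ∑ r ∈ R, ((S.filter fun x => g x = r).card) ^ 2 =
      ((S ×ˢ S).filter fun q => g q.1 = g q.2).card := by
    rw [Finset.card_eq_sum_card_fiberwise (s := (S ×ˢ S).filter fun q => g q.1 = g q.2)
      (t := R) (f := fun q => g q.1)]
    · refine Finset.sum_congr rfl fun r _ => ?_
      rw [sq, ← Finset.card_product]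
      congr 1
      ext ⟨a, b⟩
      simp only [Finset.mem_product, Finset.mem_filter]
      constructor
      · rintro ⟨⟨ha, ha'⟩, hb, hb'⟩
        exact ⟨⟨⟨ha, hb⟩, by rw [ha', hb']⟩, ha'⟩
      · rintro ⟨⟨⟨ha, hb⟩, hab⟩, ha'⟩
        exact ⟨⟨ha, ha'⟩, hb, by rw [← hab, ha']⟩
    · rintro ⟨a, b⟩ hq
      rw [Finset.mem_coe, Finset.mem_filter, Finset.mem_product] at hq
      exact (hg a hq.1.1).1
  have h8 : ((S ×ˢ S).filter fun q => g q.1 = g q.2).card ≤
      ((S ×ˢ S).filter fun q => Cn W q.1 q.2).card := by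
    refine Finset.card_le_card ?_
    rintro ⟨a, b⟩ hq
    rw [Finset.mem_filter, Finset.mem_product] at hq ⊢
    obtain ⟨⟨ha, hb⟩, hab⟩ := hq
    refine ⟨⟨ha, hb⟩, ?_⟩
    have h9 := (hg a ha).2
    have h10 := (hg b hb).2
    simp only at hab
    rw [hab] at h9
    exact h9.trans h10.symm
  have h11 : (∑ r ∈ R, ((S.filter fun x => g x = r).card : ℝ) ^ 2) ≤
      (((S ×ˢ S).filter fun q => Cn W q.1 q.2).card : ℝ) := by
    have h12 : (∑ r ∈ R, ((S.filter fun x => g x = r).card : ℝ) ^ 2) =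
        ((∑ r ∈ R, ((S.filter fun x => g x = r).card) ^ 2 : ℕ) : ℝ) := by
      push_cast; rfl
    rw [h12, h7]
    exact_mod_cast h8
  have h13 : (S.card : ℝ) = ∑ r ∈ R, ((S.filter fun x => g x = r).card : ℝ) := by
    rw [h5]; push_cast; rfl
  rw [h13]
  refine h6.trans ?_
  have h14 : (R.card : ℝ) ≤ k := by exact_mod_cast hRk
  refine mul_le_mul h14 h11 ?_ (Nat.cast_nonneg _)
  exact Finset.sum_nonneg fun r _ => sq_nonneg _

end H2

theorem counting {p : XX} (hdeg : Deg2 (wl p))
    (hac : ∀ C : Finset Ed, IsCyc C → (∀ e ∈ C, wl p e = true) → C = ∅) {k : ℕ}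
    (hk : ∀ s : Finset Vx, (∀ v ∈ s, OnW (wl p) v) → (∀ v ∈ s, ∀ v' ∈ s, Cn (wl p) v v' → v = v') →
      s.card ≤ k) (L n : ℕ) (d : Dir) {C : ℝ} (hC : 0 ≤ C) :
    ((P2 p L n d C).card : ℝ) ^ 2 ≤ 4 * k * (BP p L C).card := by
  classical
  have h1 := H2.cs (wl p) (P2 p L n d C) (k := k) (fun s hs h => hk s (fun v hv => by
    have h2 := hs hv
    unfold P2 at h2
    rw [Finset.mem_filter] at h2
    exact ⟨d, h2.2.1⟩) h)
  have h2 := H2.pair_count hdeg hac L n d C
  have h3 : ((((P2 p L n d C) ×ˢ (P2 p L n d C)).filter fun q => Cn (wl p) q.1 q.2).card : ℝ) ≤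
      4 * (BP p L C).card := by exact_mod_cast h2
  have h4 : (0 : ℝ) ≤ k := Nat.cast_nonneg _
  calc ((P2 p L n d C).card : ℝ) ^ 2 ≤ _ := h1
    _ ≤ k * (4 * (BP p L C).card) := mul_le_mul_of_nonneg_left h3 h4
    _ = 4 * k * (BP p L C).card := by ring

end Pool.Agent.Helper60.TJ
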