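import Pool.Agent.Helper59.TJ.RecM
import Pool.Agent.Helper60.TJ.H1
import Pool.Agent.Helper60.TJ.H2
import Pool.Agent.Helper60.TJ.F2
import Pool.Agent.Helper60.TJ.B

set_option autoImplicit false

/-! TJ-H3: with three classes the energies along the walls are tight. -/

namespace Pool.Agent.Helper60.TJ

open MeasureTheory

namespace H3x

theorem cn_all_x (v : Vx) (n : ℤ) : Cn (fun _ => true) v (v + (n, 0)) := by
  induction n using Int.induction_on with
  | zero => have : v + ((0 : ℤ), (0 : ℤ)) = v := by simp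
            rw [this]; exact Cn.refl _ v
  | succ i ih =>
    refine ih.trans ?_
    have h := Cn.step (W := fun _ => true) (v := v + ((i : ℤ), 0)) (d := 0) rfl
    have e : v + ((i : ℤ), 0) + stp 0 = v + ((i : ℤ) + 1, 0) := by
      obtain ⟨a, b⟩ := v; simp [stp]; ring
    rwa [e] at h
  | pred i ih =>
    refine ih.trans ?_
    have h := Cn.step (W := fun _ => true) (v := v + (-(i : ℤ), 0)) (d := 2) rfl
    have e : v + (-(i : ℤ), 0) + stp 2 = v + (-(i : ℤ) - 1, 0) := by
      obtain ⟨a, b⟩ := v; simp [stp]; ring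
    rwa [e] at h

theorem cn_all_y (v : Vx) (n : ℤ) : Cn (fun _ => true) v (v + (0, n)) := by
  induction n using Int.induction_on with
  | zero => have : v + ((0 : ℤ), (0 : ℤ)) = v := by simp
            rw [this]; exact Cn.refl _ v
  | succ i ih =>
    refine ih.trans ?_
    have h := Cn.step (W := fun _ => true) (v := v + (0, (i : ℤ))) (d := 1) rfl
    have e : v + (0, (i : ℤ)) + stp 1 = v + (0, (i : ℤ) + 1) := by
      obtain ⟨a, b⟩ := v; simp [stp]; ring
    rwa [e] at h
  | pred i ih =>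
    refine ih.trans ?_
    have h := Cn.step (W := fun _ => true) (v := v + (0, -(i : ℤ))) (d := 3) rfl
    have e : v + (0, -(i : ℤ)) + stp 3 = v + (0, -(i : ℤ) - 1) := by
      obtain ⟨a, b⟩ := v; simp [stp]; ring
    rwa [e] at h

theorem exists_join (x x' : Vx) : ∃ D : Finset Ed, par (ind D) = vx (dl x) (dl x') := by
  have h1 := cn_all_x x (x'.1 - x.1)
  have h2 := cn_all_y (x + (x'.1 - x.1, 0)) (x'.2 - x.2)
  have h := h1.trans h2
  have e : x + (x'.1 - x.1, 0) + (0, x'.2 - x.2) = x' := by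
    obtain ⟨a, b⟩ := x; obtain ⟨c, d⟩ := x'; simp
  rw [e] at h
  obtain ⟨D, _, hD⟩ := h
  exact ⟨D, hD⟩

theorem mp_preimage_le {α β : Type*} [MeasurableSpace α] [MeasurableSpace β] {m : Measure α}
    {m' : Measure β} {f : α → β} (hf : MeasurePreserving f m m') (s : Set β) :
    m (f ⁻¹' s) ≤ m' s := by
  have h := Measure.le_map_apply (μ := m) hf.measurable.aemeasurable s
  rwa [hf.map_eq] at h

/-- a third class -/
theorem exists_third {k : ℕ} (hk : 3 ≤ k) {J : Ed → ℝ} (hJ : Nice k J) (U U' : Ed → Bool) :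
    ∃ U'' ∈ GJ J, U'' ≠ U ∧ U'' ≠ U' := by
  by_contra hcon
  push Not at hcon
  have hsub : GJ J ⊆ {U, U'} := by
    intro V hV
    by_cases h : V = U
    · simp [h]
    · simp [hcon V hV h]
  have h1 := Set.ncard_le_ncard hsub (by simp)
  have h2 : Set.ncard ({U, U'} : Set (Ed → Bool)) ≤ 2 := by
    refine (Set.ncard_insert_le U {U'}).trans ?_
    simp
  rw [hJ.card] at h1
  omega

/-- the set of couplings for which some wall is not near `x` -/
def NearBad (x : Vx) (M : ℝ) : Set (Ed → ℝ) :=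
  {J | ∃ U ∈ GJ J, ∃ U' ∈ GJ J, U ≠ U' ∧ ¬ Near (wt J) (bx U U') x M}

/-- `P`-probability that the wall energy between two given points is large -/
theorem pair_small {μ : Measure ℝ} [IsProbabilityMeasure μ] (hsym : μ.map (fun x => -x) = μ)
    {k : ℕ} (hk : 3 ≤ k) {Q : Measure XX}
    (hQ : IsQ μ k Q) {η : ENNReal} (hη : 0 < η) :
    ∃ C : ℝ, 0 ≤ C ∧ ∀ x x' : Vx, Q {p | ∃ X : Finset Ed, (∀ e ∈ X, wl p e = true) ∧
      par (ind X) = vx (dl x) (dl x') ∧ C < |en (wt p.1) p.2.1 X|} ≤ η := by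
  have hk4 : ((k * k * 4 : ℕ) : ENNReal) ≠ 0 := by
    have : 0 < k * k * 4 := by positivity
    exact_mod_cast this.ne'
  have hη' : 0 < η / ((k * k * 4 : ℕ) : ENNReal) :=
    ENNReal.div_pos hη.ne' (ENNReal.natCast_ne_top _)
  obtain ⟨M, hM0, hM⟩ := near_small hQ hη'
  refine ⟨6 * M, by positivity, fun x x' => ?_⟩
  obtain ⟨D, hD⟩ := exists_join x x'
  set R : Set (Ed → ℝ) := (NearBad x M ∪ NearBad x' M) ∪
    (flp (ind D) ⁻¹' NearBad x M ∪ flp (ind D) ⁻¹' NearBad x' M) with hR
  have hRm : PP μ R ≤ 4 * (η / ((k * k * 4 : ℕ) : ENNReal)) := by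
    have h1 : PP μ (NearBad x M) ≤ η / ((k * k * 4 : ℕ) : ENNReal) := hM x
    have h2 : PP μ (NearBad x' M) ≤ η / ((k * k * 4 : ℕ) : ENNReal) := hM x'
    have h3 := (mp_preimage_le (mp_flp μ hsym (ind D)) (NearBad x M)).trans h1
    have h4 := (mp_preimage_le (mp_flp μ hsym (ind D)) (NearBad x' M)).trans h2
    calc PP μ R ≤ PP μ (NearBad x M ∪ NearBad x' M) +
          PP μ (flp (ind D) ⁻¹' NearBad x M ∪ flp (ind D) ⁻¹' NearBad x' M) := measure_union_le _ _
      _ ≤ (PP μ (NearBad x M) + PP μ (NearBad x' M)) +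
          (PP μ (flp (ind D) ⁻¹' NearBad x M) + PP μ (flp (ind D) ⁻¹' NearBad x' M)) :=
        add_le_add (measure_union_le _ _) (measure_union_le _ _)
      _ ≤ (η / ((k * k * 4 : ℕ) : ENNReal) + η / ((k * k * 4 : ℕ) : ENNReal)) +
          (η / ((k * k * 4 : ℕ) : ENNReal) + η / ((k * k * 4 : ℕ) : ENNReal)) :=
        add_le_add (add_le_add h1 h2) (add_le_add h3 h4)
      _ = 4 * (η / ((k * k * 4 : ℕ) : ENNReal)) := by ring
  have hae : ∀ᵐ p ∂Q, (∃ X : Finset Ed, (∀ e ∈ X, wl p e = true) ∧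
      par (ind X) = vx (dl x) (dl x') ∧ 6 * M < |en (wt p.1) p.2.1 X|) → p ∈ Prod.fst ⁻¹' R := by
    filter_upwards [hQ.nice] with p hp
    rintro ⟨X, hX, hXp, hXe⟩
    obtain ⟨hN, hU, hU', hne⟩ := hp
    by_contra hpR
    have hpR : p.1 ∉ R := hpR
    rw [hR] at hpR
    simp only [Set.mem_union, not_or] at hpR
    obtain ⟨⟨hb1, hb2⟩, hb3, hb4⟩ := hpR
    have hn : ∀ U ∈ GJ p.1, ∀ U' ∈ GJ p.1, U ≠ U' →
        Near (wt p.1) (bx U U') x M ∧ Near (wt p.1) (bx U U') x' M := by
      intro U hU U' hU' hne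
      constructor
      · by_contra h
        exact hb1 ⟨U, hU, U', hU', hne, h⟩
      · by_contra h
        exact hb2 ⟨U, hU, U', hU', hne, h⟩
    have hGJ : GJ (flp (ind D) p.1) = GS (wt p.1) (vx (fr p.1) (par (ind D))) := by
      unfold GJ
      rw [wt_flp, fr_flp hN.nz]
    have hn' : ∀ U ∈ GS (wt p.1) (vx (fr p.1) (par (ind D))),
        ∀ U' ∈ GS (wt p.1) (vx (fr p.1) (par (ind D))), U ≠ U' →
        Near (wt p.1) (bx U U') x M ∧ Near (wt p.1) (bx U U') x' M := by
      intro U hU U' hU' hne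
      rw [← hGJ] at hU hU'
      constructor
      · by_contra h
        refine hb3 ⟨U, hU, U', hU', hne, ?_⟩
        rwa [wt_flp]
      · by_contra h
        refine hb4 ⟨U, hU, U', hU', hne, ?_⟩
        rwa [wt_flp]
    have h3 : ∀ U ∈ GS (wt p.1) (fr p.1), ∀ U' ∈ GS (wt p.1) (fr p.1),
        ∃ U'' ∈ GS (wt p.1) (fr p.1), U'' ≠ U ∧ U'' ≠ U' :=
      fun U _ U' _ => exists_third hk hN U U'
    have := hdet (wt_nonneg p.1) hN.ib hD h3 hn hn' p.2.1 hU p.2.2 hU' hne X hX hXp
    linarith
  calc Q {p | ∃ X : Finset Ed, (∀ e ∈ X, wl p e = true) ∧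
      par (ind X) = vx (dl x) (dl x') ∧ 6 * M < |en (wt p.1) p.2.1 X|}
      ≤ Q (Prod.fst ⁻¹' R) := measure_mono_ae hae
    _ ≤ (k * k : ℕ) * PP μ R := hQ.fst_le R
    _ ≤ (k * k : ℕ) * (4 * (η / ((k * k * 4 : ℕ) : ENNReal))) := by gcongr
    _ = ((k * k * 4 : ℕ) : ENNReal) * (η / ((k * k * 4 : ℕ) : ENNReal)) := by
        push_cast; ring
    _ ≤ η := ENNReal.mul_div_le

/-- the event that some piece of the wall from `x` to `x'` has energy larger than `C` -/
def PairBad (C : ℝ) (q : Vx × Vx) : Set XX :=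
  {p | ∃ X : Finset Ed, (∀ e ∈ X, wl p e = true) ∧
      par (ind X) = vx (dl q.1) (dl q.2) ∧ C < |en (wt p.1) p.2.1 X|}

theorem measurableSet_PairBad (C : ℝ) (q : Vx × Vx) : MeasurableSet (PairBad C q) := by
  have h1 : PairBad C q = ⋃ X : Finset Ed, {p | (∀ e ∈ X, wl p e = true) ∧
      par (ind X) = vx (dl q.1) (dl q.2) ∧ C < |en (wt p.1) p.2.1 X|} := by
    ext p; simp [PairBad]
  rw [h1]
  refine MeasurableSet.iUnion fun X => ?_
  refine MeasurableSet.inter ?_ (MeasurableSet.inter ?_ ?_)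
  · have h2 : {p : XX | ∀ e ∈ X, wl p e = true} = ⋂ e ∈ X, {p | wl p e = true} := by
      ext p; simp
    have h3 : MeasurableSet (⋂ e ∈ X, {p : XX | wl p e = true}) := by
      refine Finset.measurableSet_biInter X fun e _ => ?_
      have h4 : Measurable fun p : XX => wl p e := (measurable_pi_apply e).comp measurable_wl
      exact h4 (measurableSet_singleton true)
    rw [← h2] at h3
    exact h3
  · exact MeasurableSet.const _
  · have h5 : Measurable fun p : XX => en (wt p.1) p.2.1 X :=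
      (measurable_en X).comp (measurable_fst.prodMk measurable_snd.fst)
    exact measurableSet_lt measurable_const h5.abs

/-- the event that the wall through the origin in direction `d` has energy larger than `2 C` after
`n` steps -/
def StepBad (C : ℝ) (n : ℕ) (d : Dir) : Set XX :=
  {p | wl p (edg 0 d) = true ∧ 2 * C < |Vn n (p, d)|}

theorem measurableSet_StepBad (C : ℝ) (n : ℕ) (d : Dir) : MeasurableSet (StepBad C n d) := by
  refine MeasurableSet.inter ?_ ?_
  · have h4 : Measurable fun p : XX => wl p (edg 0 d) := (measurable_pi_apply _).comp measurable_wl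
    exact h4 (measurableSet_singleton true)
  · have h5 : Measurable fun p : XX => Vn n (p, d) :=
      (measurable_Vn n).comp (measurable_id.prodMk measurable_const)
    exact measurableSet_lt measurable_const h5.abs

theorem nuM_le {Q : Measure XX} (C : ℝ) (n : ℕ) :
    nuM Q {y | 2 * C < |Vn n y|} ≤ ∑ d : Dir, Q (StepBad C n d) := by
  have hm : MeasurableSet {y : YY | 2 * C < |Vn n y|} :=
    measurableSet_lt measurable_const (measurable_Vn n).abs
  unfold nuM
  rw [Measure.finsetSum_apply]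
  refine Finset.sum_le_sum fun d _ => ?_
  have hmd : Measurable fun p : XX => ((p, d) : YY) := measurable_id.prodMk measurable_const
  rw [Measure.map_apply hmd hm, Measure.restrict_apply (hmd hm)]
  refine measure_mono ?_
  rintro p ⟨h1, h2⟩
  exact ⟨h2, h1⟩

theorem card_box_H3 (L : ℕ) : (box L).card = (2 * L + 1) * (2 * L + 1) := by
  unfold box
  rw [Finset.card_product, Int.card_Icc]
  have : ((L : ℤ) + 1 - -(L : ℤ)).toNat = 2 * L + 1 := by omega
  rw [this]

theorem add_mem_box {L n : ℕ} {x v : Vx} (hx : x ∈ box L) (hv : v ∈ box n) : x + v ∈ box (L + n) := by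
  unfold box at *
  simp only [Finset.mem_product, Finset.mem_Icc, Prod.fst_add, Prod.snd_add] at *
  push_cast
  omega

theorem tight {μ : Measure ℝ} [IsProbabilityMeasure μ] (hsym : μ.map (fun x => -x) = μ)
    {k : ℕ} (hk : 3 ≤ k) {Q : Measure XX}
    (hQ : IsQ μ k Q) {η : ENNReal} (hη : 0 < η) :
    ∃ C : ℝ, ∀ n : ℕ, nuM Q {y | C < |Vn n y|} ≤ η := by
  classical
  obtain ⟨r, hr0, hrη⟩ : ∃ r : ℝ, 0 < r ∧ ENNReal.ofReal r ≤ η := by
    obtain ⟨q, hq0, hqη⟩ := ENNReal.lt_iff_exists_nnreal_btwn.1 hη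
    refine ⟨q, by exact_mod_cast hq0, ?_⟩
    rw [ENNReal.ofReal_coe_nnreal]
    exact hqη.le
  have hk0 : (0 : ℝ) < k := by exact_mod_cast (by omega : 0 < k)
  -- parameters
  set t : ℝ := r / (16 * k ^ 2) with ht
  have ht0 : 0 < t := by positivity
  set s : ℝ := r * t / (64 * k) with hs
  have hs0 : 0 < s := by positivity
  obtain ⟨C, hC0, hC⟩ := pair_small hsym hk hQ (η := ENNReal.ofReal s)
    (ENNReal.ofReal_pos.2 hs0)
  have hQfin : Q Set.univ ≠ ⊤ := by rw [hQ.univ_eq]; exact ENNReal.natCast_ne_top _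
  have : IsFiniteMeasure Q := ⟨lt_top_iff_ne_top.2 hQfin⟩
  refine ⟨2 * C, fun n => ?_⟩
  -- one direction
  have key : ∀ d : Dir, Q (StepBad C n d) ≤ ENNReal.ofReal (r / 4) := by
    intro d
    set L₀ : ℕ := 9 * n + 10 with hL₀
    set L : ℕ := L₀ + n with hL
    set N : ℝ := (2 * (L : ℝ) + 1) ^ 2 with hN
    have hN0 : 0 < N := by positivity
    have hNc : ((box L).card : ℝ) = N := by
      rw [card_box_H3, hN]; push_cast; ring
    -- pointwise bound
    have hpt : ∀ᵐ p ∂Q, (∑ x ∈ box L₀, (shX x ⁻¹' StepBad C n d).indicator (1 : XX → ENNReal) p) ≤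
        ENNReal.ofReal (t * N) + ENNReal.ofReal (4 * k / (t * N)) *
          ∑ q ∈ box L ×ˢ box L, (PairBad C q).indicator (1 : XX → ENNReal) p := by
      filter_upwards [hQ.nice, deg_two hQ, Pool.Agent.Helper59.TJ.recomb_q hQ] with p hp hdeg hrec
      obtain ⟨hNi, hU, hU', hne⟩ := hp
      have hac : ∀ C : Finset Ed, IsCyc C → (∀ e ∈ C, wl p e = true) → C = ∅ :=
        fun C hC h => acyc hU hU' hNi.nt hC h
      have hkk : ∀ s : Finset Vx, (∀ v ∈ s, OnW (wl p) v) →
          (∀ v ∈ s, ∀ v' ∈ s, Cn (wl p) v v' → v = v') → s.card ≤ k :=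
        fun s h1 h2 => few_comp hNi hU hrec hdeg.1 s h1 h2
      have hcount := counting hdeg hac hkk L n d hC0
      have e1 : (∑ x ∈ box L₀, (shX x ⁻¹' StepBad C n d).indicator (1 : XX → ENNReal) p) =
          (((box L₀).filter fun x => shX x p ∈ StepBad C n d).card : ENNReal) := by
        rw [Finset.card_filter]
        push_cast
        refine Finset.sum_congr rfl fun x _ => ?_
        simp [Set.indicator_apply]
      have e2 : (∑ q ∈ box L ×ˢ box L, (PairBad C q).indicator (1 : XX → ENNReal) p) =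
          ((BP p L C).card : ENNReal) := by
        unfold BP
        rw [Finset.card_filter]
        push_cast
        refine Finset.sum_congr rfl fun x _ => ?_
        simp [Set.indicator_apply, PairBad]
      have e3 : ((box L₀).filter fun x => shX x p ∈ StepBad C n d).card ≤
          (P2 p L n d C).card := by
        refine Finset.card_le_card ?_
        intro x hx
        rw [Finset.mem_filter] at hx
        obtain ⟨hx, hx1, hx2⟩ := hx
        unfold P2
        rw [Finset.mem_filter]
        refine ⟨?_, ?_, add_mem_box hx (pos_mem_box _ n), hx2⟩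
        · have := add_mem_box hx (pos_mem_box (shX x p, d) 0 : _ ∈ box 0)
          unfold box at hx ⊢
          simp only [Finset.mem_product, Finset.mem_Icc] at hx ⊢
          omega
        · rw [wl_shX, sh_edg, zero_add] at hx1
          exact hx1
      rw [e1, e2]
      set c : ℕ := (P2 p L n d C).card
      set b : ℕ := (BP p L C).card
      have hreal : (c : ℝ) ≤ t * N + 4 * k / (t * N) * b := by
        have htN : 0 < t * N := by positivity
        have h1 : 4 * (k : ℝ) / (t * N) * b = (4 * k * b) / (t * N) := by ring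
        rw [h1]
        have h2 : (c : ℝ) ^ 2 / (t * N) ≤ (4 * k * b) / (t * N) := by gcongr
        have h3 : (c : ℝ) ≤ t * N + (c : ℝ) ^ 2 / (t * N) := by
          rw [← sub_nonneg]
          have h4 : t * N + (c : ℝ) ^ 2 / (t * N) - c =
              ((t * N) ^ 2 + (c : ℝ) ^ 2 - c * (t * N)) / (t * N) := by
            field_simp
          rw [h4]
          apply div_nonneg _ htN.le
          nlinarith [sq_nonneg ((c : ℝ) - t * N), mul_nonneg (Nat.cast_nonneg (α := ℝ) c) htN.le]
        linarith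
      calc (((box L₀).filter fun x => shX x p ∈ StepBad C n d).card : ENNReal)
          ≤ (c : ENNReal) := by exact_mod_cast e3
        _ = ENNReal.ofReal (c : ℝ) := by rw [ENNReal.ofReal_natCast]
        _ ≤ ENNReal.ofReal (t * N + 4 * k / (t * N) * b) := ENNReal.ofReal_le_ofReal hreal
        _ = ENNReal.ofReal (t * N) + ENNReal.ofReal (4 * k / (t * N)) * (b : ENNReal) := by
            rw [ENNReal.ofReal_add (by positivity) (by positivity),
              ENNReal.ofReal_mul (p := 4 * k / (t * N)) (q := (b : ℝ)) (by positivity),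
              ENNReal.ofReal_natCast]
    -- integrate
    have hI := lintegral_mono_ae hpt
    rw [lintegral_finsetSum _ (fun x _ => (measurable_one.indicator
      ((measurable_shX x) (measurableSet_StepBad C n d))))] at hI
    have hI1 : ∀ x ∈ box L₀, ∫⁻ p, (shX x ⁻¹' StepBad C n d).indicator (1 : XX → ENNReal) p ∂Q =
        Q (StepBad C n d) := by
      intro x _
      rw [lintegral_indicator_one ((measurable_shX x) (measurableSet_StepBad C n d)),
        (hQ.inv x).measure_preimage (measurableSet_StepBad C n d).nullMeasurableSet]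
    rw [Finset.sum_congr rfl hI1, Finset.sum_const, lintegral_add_left measurable_const,
      lintegral_const, lintegral_const_mul _ (Finset.measurable_sum _ fun q _ =>
        measurable_one.indicator (measurableSet_PairBad C q)),
      lintegral_finsetSum _ (fun q _ => measurable_one.indicator (measurableSet_PairBad C q))] at hI
    have hI2 : ∑ q ∈ box L ×ˢ box L, ∫⁻ p, (PairBad C q).indicator (1 : XX → ENNReal) p ∂Q ≤
        ∑ q ∈ box L ×ˢ box L, ENNReal.ofReal s := by
      refine Finset.sum_le_sum fun q _ => ?_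
      rw [lintegral_indicator_one (measurableSet_PairBad C q)]
      exact hC q.1 q.2
    rw [Finset.sum_const, Finset.card_product] at hI2
    have hI3 := hI.trans (add_le_add le_rfl (mul_le_mul' le_rfl hI2))
    rw [hQ.univ_eq] at hI3
    -- to reals
    set a : ℝ := (Q (StepBad C n d)).toReal with ha
    have ha0 : 0 ≤ a := ENNReal.toReal_nonneg
    have hQa : Q (StepBad C n d) = ENNReal.ofReal a := by
      rw [ha, ENNReal.ofReal_toReal (measure_ne_top _ _)]
    rw [hQa] at hI3 ⊢
    have hk2 : ((k * (k - 1) : ℕ) : ℝ) ≤ (k : ℝ) ^ 2 := by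
      have : k * (k - 1) ≤ k ^ 2 := by
        rw [pow_two]; exact Nat.mul_le_mul_left k (Nat.sub_le k 1)
      exact_mod_cast this
    obtain ⟨m, hm⟩ : ∃ m : ℕ, m = k * (k - 1) := ⟨_, rfl⟩
    rw [← hm] at hI3 hk2
    have hI4 : ((box L₀).card : ℝ) * a ≤ t * N * (m : ℝ) +
        4 * k / (t * N) * (N * N * s) := by
      have e1 : (box L₀).card • ENNReal.ofReal a = ENNReal.ofReal ((box L₀).card * a) := by
        rw [nsmul_eq_mul, ENNReal.ofReal_mul (Nat.cast_nonneg _), ENNReal.ofReal_natCast]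
      have e3 : ((box L).card * (box L).card) • ENNReal.ofReal s =
          ENNReal.ofReal (N * N * s) := by
        rw [nsmul_eq_mul, ENNReal.ofReal_mul (p := N * N) (q := s) (by positivity), ← hNc,
          ← Nat.cast_mul, ENNReal.ofReal_natCast]
      have e4 : ENNReal.ofReal (t * N) * (m : ENNReal) = ENNReal.ofReal (t * N * (m : ℝ)) := by
        rw [ENNReal.ofReal_mul (p := t * N) (q := (m : ℝ)) (by positivity),
          ENNReal.ofReal_natCast]
      have e5 : ENNReal.ofReal (4 * k / (t * N)) * ENNReal.ofReal (N * N * s) =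
          ENNReal.ofReal (4 * k / (t * N) * (N * N * s)) :=
        (ENNReal.ofReal_mul (by positivity)).symm
      rw [e1, e3, e4, e5, ← ENNReal.ofReal_add (by positivity) (by positivity)] at hI3
      exact (ENNReal.ofReal_le_ofReal_iff (by positivity)).1 hI3
    apply ENNReal.ofReal_le_ofReal
    -- arithmetic
    have h1 : t * N * (m : ℝ) ≤ t * N * (k : ℝ) ^ 2 := by gcongr
    have h2 : t * N * (k : ℝ) ^ 2 = N * r / 16 := by
      rw [ht]; field_simp
    have h3 : 4 * (k : ℝ) / (t * N) * (N * N * s) = N * r / 16 := by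
      rw [hs]; field_simp; norm_num
    have h4 : N / 2 ≤ ((box L₀).card : ℝ) := by
      rw [card_box_H3, hN, hL, hL₀]
      push_cast
      have : (0 : ℝ) ≤ n := Nat.cast_nonneg n
      nlinarith
    have h5 : N / 2 * a ≤ N / 2 * (r / 4) := by
      have : N / 2 * a ≤ ((box L₀).card : ℝ) * a := by gcongr
      linarith
    exact le_of_mul_le_mul_left h5 (by positivity)
  calc nuM Q {y | 2 * C < |Vn n y|} ≤ ∑ d : Dir, Q (StepBad C n d) := nuM_le C n
    _ ≤ ∑ _d : Dir, ENNReal.ofReal (r / 4) := Finset.sum_le_sum fun d _ => key d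
    _ = ENNReal.ofReal r := by
        rw [Finset.sum_const, Finset.card_univ, Fintype.card_fin, nsmul_eq_mul,
          ← ENNReal.ofReal_natCast, ← ENNReal.ofReal_mul (by positivity)]
        congr 1; push_cast; ring
    _ ≤ η := hrη

end H3x

/-- `P`-probability that the wall energy between two given points is large -/
theorem pair_small {μ : Measure ℝ} [IsProbabilityMeasure μ] (hsym : μ.map (fun x => -x) = μ)
    {k : ℕ} (hk : 3 ≤ k) {Q : Measure XX}
    (hQ : IsQ μ k Q) {η : ENNReal} (hη : 0 < η) :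
    ∃ C : ℝ, 0 ≤ C ∧ ∀ x x' : Vx, Q {p | ∃ X : Finset Ed, (∀ e ∈ X, wl p e = true) ∧
      par (ind X) = vx (dl x) (dl x') ∧ C < |en (wt p.1) p.2.1 X|} ≤ η :=
  H3x.pair_small hsym hk hQ hη

theorem tight {μ : Measure ℝ} [IsProbabilityMeasure μ] (hsym : μ.map (fun x => -x) = μ)
    {k : ℕ} (hk : 3 ≤ k) {Q : Measure XX}
    (hQ : IsQ μ k Q) {η : ENNReal} (hη : 0 < η) :
    ∃ C : ℝ, ∀ n : ℕ, nuM Q {y | C < |Vn n y|} ≤ η :=
  H3x.tight hsym hk hQ hη

end Pool.Agent.Helper60.TJ
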