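import Pool.Agent.Helper60.TJ.A2
import Pool.Agent.Helper60.TJ.A3
import Pool.Agent.Helper60.TJ.C2
import Pool.Agent.Helper60.TJ.G1
import Pool.Agent.Helper60.TJ.G2
import Pool.Agent.Helper60.TJ.H3

set_option autoImplicit false

/-! Theorem 1: `N ∈ {2, 4, ∞}`. -/

namespace Pool.Agent.Helper60.TJ

open MeasureTheory Filter Topology

/-- no tightness along the walls -/
theorem cesaro_wall {μ : Measure ℝ} [IsProbabilityMeasure μ] (hμ : ∀ x : ℝ, μ {x} = 0) {k : ℕ}
    {Q : Measure XX} (hQ : IsQ μ k Q) (K : ℝ) :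
    Tendsto (fun N : ℕ => (N : ℝ)⁻¹ * ∑ n ∈ Finset.range N,
      (nuM Q {y | |Vn n y| ≤ K}).toReal) atTop (𝓝 0) := by
  haveI : IsFiniteMeasure (nuM Q) := ⟨nu_univ_lt hQ⟩
  exact cesaro (mp_Th hQ) measurable_xv (fun l hl h hm hi heq => no_eig hμ hQ hl hm hi heq) K

theorem k_le_two {μ : Measure ℝ} [IsProbabilityMeasure μ] (hμ : ∀ x : ℝ, μ {x} = 0)
    (hsym : μ.map (fun x => -x) = μ) {k : ℕ}
    {Q : Measure XX} (hQ : IsQ μ k Q) : k ≤ 2 := by
  by_contra hk
  push Not at hk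
  haveI hfin : IsFiniteMeasure (nuM Q) := ⟨nu_univ_lt hQ⟩
  have hpos := nu_univ_pos (by omega) hQ
  set T := nuM Q Set.univ with hT
  have hT2 : 0 < T / 2 := ENNReal.div_pos hpos.ne' (by simp)
  obtain ⟨C, hC⟩ := tight hsym (by omega : 3 ≤ k) hQ hT2
  have hTfin : T ≠ ⊤ := (nu_univ_lt hQ).ne
  have key : ∀ n : ℕ, T.toReal / 2 ≤ (nuM Q {y | |Vn n y| ≤ C}).toReal := by
    intro n
    have h1 : Set.univ = {y | |Vn n y| ≤ C} ∪ {y | C < |Vn n y|} := by
      ext y; simp [le_or_gt]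
    have h2 : T ≤ nuM Q {y | |Vn n y| ≤ C} + T / 2 := by
      calc T = nuM Q ({y | |Vn n y| ≤ C} ∪ {y | C < |Vn n y|}) := by rw [← h1]
        _ ≤ nuM Q {y | |Vn n y| ≤ C} + nuM Q {y | C < |Vn n y|} := measure_union_le _ _
        _ ≤ _ := add_le_add_right (hC n) _
    have h3 := ENNReal.toReal_mono (by finiteness) h2
    rw [ENNReal.toReal_add (measure_ne_top _ _) (ENNReal.div_ne_top hTfin (by simp)),
      ENNReal.toReal_div] at h3
    simp only [ENNReal.toReal_ofNat] at h3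
    linarith
  have hTr : 0 < T.toReal := ENNReal.toReal_pos hpos.ne' hTfin
  have hlim := cesaro_wall hμ hQ C
  have hlow : ∀ᶠ N : ℕ in atTop, T.toReal / 2 ≤ (N : ℝ)⁻¹ * ∑ n ∈ Finset.range N,
      (nuM Q {y | |Vn n y| ≤ C}).toReal := by
    filter_upwards [eventually_gt_atTop 0] with N hN
    have h1 : (N : ℝ) * (T.toReal / 2) ≤ ∑ n ∈ Finset.range N,
        (nuM Q {y | |Vn n y| ≤ C}).toReal := by
      have := Finset.card_nsmul_le_sum (Finset.range N)
        (fun n => (nuM Q {y | |Vn n y| ≤ C}).toReal) (T.toReal / 2) (fun n _ => key n)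
      simpa [nsmul_eq_mul] using this
    have hN' : (0 : ℝ) < N := by exact_mod_cast hN
    rw [← div_eq_inv_mul, le_div_iff₀ hN']
    linarith
  have := ge_of_tendsto hlim hlow
  linarith

theorem main1 (μ : Measure ℝ) [IsProbabilityMeasure μ] (hμ : ∀ x : ℝ, μ {x} = 0)
    (hsym : μ.map (fun x => -x) = μ) :
    (∀ᵐ J ∂(PP μ), {σ | IsGroundState J σ}.encard = 2) ∨
    (∀ᵐ J ∂(PP μ), {σ | IsGroundState J σ}.encard = 4) ∨
    (∀ᵐ J ∂(PP μ), {σ | IsGroundState J σ}.Infinite) := by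
  have hb := ae_basic μ hμ
  rcases ae_nice_or μ hμ with h | ⟨k, hk1, hk⟩
  · right; right
    filter_upwards [h, hb] with J h1 h2
    rw [← Set.encard_eq_top_iff, encard_spin h2.1 h2.2, Set.encard_eq_top_iff.2 h1]
    rfl
  · obtain ⟨Q, hQ⟩ := exists_Q μ k hk
    have hk2 := k_le_two hμ hsym hQ
    have hcard : ∀ᵐ J ∂(PP μ), {σ | IsGroundState J σ}.encard = 2 * k := by
      filter_upwards [hk, hb] with J h1 h2
      rw [encard_spin h2.1 h2.2, ← Set.Finite.cast_ncard_eq h1.fin, h1.card]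
    interval_cases k
    · left
      filter_upwards [hcard] with J hJ
      rw [hJ]; rfl
    · right; left
      filter_upwards [hcard] with J hJ
      rw [hJ]; rfl

end Pool.Agent.Helper60.TJ
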